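import Pool.Agent.V11272.RB.Mert

set_option autoImplicit false

/-! Arithmetic: totient and sum of divisors, the missing primes. -/

namespace Pool.Agent.V11272.RB

open Filter Topology Set

noncomputable section

lemma tri (M : Finset ℕ) : (M.card : ℝ) * ((M.card : ℝ) - 1) ≤ 2 * ∑ j ∈ M, (j : ℝ) := by
  induction M using Finset.induction_on_max with
  | empty => simp
  | insert a s hs ih =>
    have hna : a ∉ s := fun h => lt_irrefl _ (hs a h)
    rw [Finset.card_insert_of_notMem hna, Finset.sum_insert hna]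
    have hc : s.card ≤ a := by
      have : s ⊆ Finset.range a := fun x hx => Finset.mem_range.2 (hs x hx)
      simpa using Finset.card_le_card this
    have hc' : (s.card : ℝ) ≤ a := by exact_mod_cast hc
    push_cast
    nlinarith

lemma tri' (M : Finset ℕ) (k : ℕ) (h : ∀ p ∈ M, p ≤ k) :
    (M.card : ℝ) * ((M.card : ℝ) - 1) ≤ 2 * ∑ p ∈ M, ((k : ℝ) - p) := by
  have hinj : Set.InjOn (fun p => k - p) (M : Set ℕ) := by
    intro a ha b hb hab
    have h1 := h a ha
    have h2 := h b hb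
    simp only at hab
    omega
  have h1 := tri (M.image fun p => k - p)
  rw [Finset.card_image_of_injOn hinj, Finset.sum_image hinj] at h1
  refine h1.trans (le_of_eq ?_)
  congr 1
  refine Finset.sum_congr rfl fun p hp => ?_
  rw [Nat.cast_sub (h p hp)]

lemma one_sub_inv_pos {p : ℕ} (hp : 2 ≤ p) : 0 < 1 - (p : ℝ)⁻¹ := by
  have h2 : (2 : ℝ) ≤ p := by exact_mod_cast hp
  have h1 : (p : ℝ)⁻¹ ≤ 2⁻¹ := inv_anti₀ (by norm_num) h2
  linarith

lemma totient_log {n : ℕ} (hn : n ≠ 0) :
    Real.log ((n : ℝ) / Nat.totient n) = ∑ p ∈ n.primeFactors, wt p := by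
  have h1 : (Nat.totient n : ℝ) = n * ∏ p ∈ n.primeFactors, (1 - (p : ℝ)⁻¹) := by
    have := Nat.totient_eq_mul_prod_factors n
    have h2 := congrArg (fun q : ℚ => (q : ℝ)) this
    push_cast at h2
    exact h2
  have hn0 : (n : ℝ) ≠ 0 := Nat.cast_ne_zero.2 hn
  have hne : ∀ p ∈ n.primeFactors, (1 - (p : ℝ)⁻¹) ≠ 0 := fun p hp =>
    (one_sub_inv_pos (Nat.prime_of_mem_primeFactors hp).two_le).ne'
  have h3 : (n : ℝ) / Nat.totient n = (∏ p ∈ n.primeFactors, (1 - (p : ℝ)⁻¹))⁻¹ := by
    rw [h1]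
    have := Finset.prod_ne_zero_iff.2 hne
    field_simp
  rw [h3, Real.log_inv, Real.log_prod hne, ← Finset.sum_neg_distrib]
  rfl

lemma sigma_pp {p a : ℕ} (hp : p.Prime) : (ArithmeticFunction.sigma 1 (p ^ a) : ℝ) / (p : ℝ) ^ a =
    (1 - ((p : ℝ)⁻¹) ^ (a + 1)) / (1 - (p : ℝ)⁻¹) := by
  have h2 : (2 : ℝ) ≤ p := by exact_mod_cast hp.two_le
  have hp0 : (p : ℝ) ≠ 0 := by linarith
  have hp1 : (p : ℝ) - 1 ≠ 0 := by linarith
  rw [ArithmeticFunction.sigma_one_apply_prime_pow hp]
  push_cast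
  rw [geom_sum_eq (by linarith), inv_pow]
  field_simp
  ring

lemma sigma_log {n : ℕ} (hn : n ≠ 0) :
    Real.log ((ArithmeticFunction.sigma 1 n : ℝ) / n) =
      ∑ p ∈ n.primeFactors, (wt p + Real.log (1 - ((p : ℝ)⁻¹) ^ (n.factorization p + 1))) := by
  have h1 : (ArithmeticFunction.sigma 1 n : ℝ) = ∏ p ∈ n.primeFactors,
      (ArithmeticFunction.sigma 1 (p ^ n.factorization p) : ℝ) := by
    have := ArithmeticFunction.isMultiplicative_sigma (k := 1) |>.multiplicative_factorization _ hn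
    rw [this, Finsupp.prod, Nat.support_factorization]
    push_cast
    rfl
  have h2 : (n : ℝ) = ∏ p ∈ n.primeFactors, ((p : ℝ) ^ n.factorization p) := by
    have := Nat.prod_factorization_pow_eq_self hn
    rw [Finsupp.prod, Nat.support_factorization] at this
    exact_mod_cast this.symm
  have h3 : (ArithmeticFunction.sigma 1 n : ℝ) / n = ∏ p ∈ n.primeFactors,
      ((1 - ((p : ℝ)⁻¹) ^ (n.factorization p + 1)) / (1 - (p : ℝ)⁻¹)) := by
    have h4 : (ArithmeticFunction.sigma 1 n : ℝ) / n = (∏ p ∈ n.primeFactors,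
      (ArithmeticFunction.sigma 1 (p ^ n.factorization p) : ℝ)) /
      (∏ p ∈ n.primeFactors, ((p : ℝ) ^ n.factorization p)) := by rw [← h1, ← h2]
    rw [h4, ← Finset.prod_div_distrib]
    exact Finset.prod_congr rfl fun p hp => sigma_pp (Nat.prime_of_mem_primeFactors hp)
  have hpos : ∀ p ∈ n.primeFactors, 0 < 1 - ((p : ℝ)⁻¹) ^ (n.factorization p + 1) := by
    intro p hp
    have h4 : (2 : ℝ) ≤ p := by exact_mod_cast (Nat.prime_of_mem_primeFactors hp).two_le
    have h5 : (p : ℝ)⁻¹ < 1 := inv_lt_one_of_one_lt₀ (by linarith)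
    have h6 := pow_lt_one₀ (by positivity : (0:ℝ) ≤ (p : ℝ)⁻¹) h5 (Nat.succ_ne_zero (n.factorization p))
    simp only [Nat.succ_eq_add_one] at h6
    linarith
  rw [h3, Real.log_prod (fun p hp => (div_pos (hpos p hp)
    (one_sub_inv_pos (Nat.prime_of_mem_primeFactors hp).two_le)).ne')]
  refine Finset.sum_congr rfl fun p hp => ?_
  rw [Real.log_div (hpos p hp).ne' (one_sub_inv_pos (Nat.prime_of_mem_primeFactors hp).two_le).ne']
  unfold wt
  ring

/-- the sum of divisors is dominated by the totient quotient -/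
lemma sigma_le {n : ℕ} (hn : n ≠ 0) :
    (ArithmeticFunction.sigma 1 n : ℝ) / n ≤ (n : ℝ) / Nat.totient n := by
  have hn0 : (0 : ℝ) < n := by exact_mod_cast Nat.pos_of_ne_zero hn
  have hφ : (0 : ℝ) < Nat.totient n := by exact_mod_cast Nat.totient_pos.2 (Nat.pos_of_ne_zero hn)
  have hσ : (0 : ℝ) < ArithmeticFunction.sigma 1 n := by
    exact_mod_cast ArithmeticFunction.sigma_pos 1 n hn
  rw [← Real.log_le_log_iff (by positivity) (by positivity), sigma_log hn, totient_log hn]
  refine Finset.sum_le_sum fun p hp => ?_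
  have h4 : (2 : ℝ) ≤ p := by exact_mod_cast (Nat.prime_of_mem_primeFactors hp).two_le
  have h5 : (p : ℝ)⁻¹ < 1 := inv_lt_one_of_one_lt₀ (by linarith)
  have h6 := pow_le_one₀ (n := n.factorization p + 1) (by positivity : (0:ℝ) ≤ (p : ℝ)⁻¹) h5.le
  have h7 : 0 ≤ ((p : ℝ)⁻¹) ^ (n.factorization p + 1) := by positivity
  have h8 := Real.log_nonpos (by linarith : 0 ≤ 1 - ((p : ℝ)⁻¹) ^ (n.factorization p + 1)) (by linarith)
  linarith

/-- the sum of the logarithms of the prime factors -/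
lemma sum_log_primeFactors {n : ℕ} (hn : n ≠ 0) : ∑ p ∈ n.primeFactors, Real.log p ≤ Real.log n := by
  have h1 : (∏ p ∈ n.primeFactors, p) ∣ n := Nat.prod_primeFactors_dvd n
  have h2 := Nat.le_of_dvd (Nat.pos_of_ne_zero hn) h1
  have h3 : ((∏ p ∈ n.primeFactors, p : ℕ) : ℝ) ≤ n := by exact_mod_cast h2
  have h4 : ∀ p ∈ n.primeFactors, (p : ℝ) ≠ 0 := fun p hp => by
    exact_mod_cast (Nat.prime_of_mem_primeFactors hp).ne_zero
  rw [← Real.log_prod h4]
  push_cast at h3
  refine Real.log_le_log ?_ h3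
  exact Finset.prod_pos fun p hp => by exact_mod_cast (Nat.prime_of_mem_primeFactors hp).pos

/-- the missing primes -/
def Mis (n : ℕ) : Finset ℕ := (PL (Real.log n)).filter fun p => ¬ p ∣ n

/-- the main inequality for the missing primes -/
lemma missing_le {n : ℕ} {y : ℝ} (hn : n ≠ 0) (hy : y = Real.log n) (hy3 : 3 ≤ y) :
    ∑ p ∈ n.primeFactors, wt p + ∑ p ∈ Mis n, (wt p - ff y * Real.log p) ≤
      SS y + ff y * (y - Chebyshev.theta y) + 2 / y ^ 2 := by
  have hly : 0 < Real.log y := Real.log_pos (by linarith)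
  have hff : 0 < ff y := by unfold ff; positivity
  have hmul : ff y * Real.log y = 1 / y := by unfold ff; field_simp
  have h1 : ∑ p ∈ n.primeFactors, wt p ≤ ∑ p ∈ n.primeFactors, (wt p - ff y * Real.log p) + ff y * y := by
    rw [Finset.sum_sub_distrib, ← Finset.mul_sum]
    have := mul_le_mul_of_nonneg_left (sum_log_primeFactors hn) hff.le
    rw [← hy] at this
    linarith
  -- split
  have h2 : ∑ p ∈ n.primeFactors, (wt p - ff y * Real.log p) =
      ∑ p ∈ (PL y).filter (fun p => p ∣ n), (wt p - ff y * Real.log p) +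
      ∑ p ∈ n.primeFactors.filter (fun p => ⌊y⌋₊ < p), (wt p - ff y * Real.log p) := by
    rw [← Finset.sum_union]
    · congr 1
      ext p
      simp only [PL, Finset.mem_union, Finset.mem_filter, Finset.mem_Ioc, Nat.mem_primeFactors]
      constructor
      · rintro ⟨h1, h2, h3⟩
        by_cases h : p ≤ ⌊y⌋₊
        · exact Or.inl ⟨⟨⟨h1.pos, h⟩, h1⟩, h2⟩
        · exact Or.inr ⟨⟨h1, h2, h3⟩, not_le.1 h⟩
      · rintro (⟨⟨_, h1⟩, h2⟩ | ⟨h1, _⟩)
        · exact ⟨h1, h2, hn⟩
        · exact h1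
    · rw [Finset.disjoint_left]
      intro p hp hp2
      simp only [PL, Finset.mem_filter, Finset.mem_Ioc] at hp hp2
      omega
  have h3 : ∑ p ∈ (PL y).filter (fun p => p ∣ n), (wt p - ff y * Real.log p) +
      ∑ p ∈ Mis n, (wt p - ff y * Real.log p) = SS y - ff y * Chebyshev.theta y := by
    unfold Mis
    rw [← hy, Finset.sum_filter_add_sum_filter_not, Finset.sum_sub_distrib, ← Finset.mul_sum]
    rfl
  have h4 : ∑ p ∈ n.primeFactors.filter (fun p => ⌊y⌋₊ < p), (wt p - ff y * Real.log p) ≤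
      2 / y ^ 2 := by
    have hb : ∀ p ∈ n.primeFactors.filter (fun p => ⌊y⌋₊ < p), (wt p - ff y * Real.log p) ≤
        if p = ⌊y⌋₊ + 1 then 2 / y ^ 2 else 0 := by
      intro p hp
      rw [Finset.mem_filter] at hp
      have hp2 := (Nat.prime_of_mem_primeFactors hp.1).two_le
      have hlt : y < p := by
        have h5 := Nat.lt_floor_add_one y
        have h6 : ((⌊y⌋₊ + 1 : ℕ) : ℝ) ≤ p := by exact_mod_cast hp.2
        push_cast at h6
        linarith
      have h7 : 1 / y ≤ ff y * Real.log p := by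
        rw [← hmul]
        exact mul_le_mul_of_nonneg_left (Real.log_le_log (by linarith) hlt.le) hff.le
      have h8 := wt_upper hp2
      split_ifs with h
      · have h9 : 1 / ((p : ℝ) - 1) ≤ 1 / (y - 1) :=
          one_div_le_one_div_of_le (by linarith) (by linarith)
        have h10 : 1 / (y - 1) - 1 / y ≤ 2 / y ^ 2 := by
          rw [div_sub_div _ _ (by linarith) (by linarith), div_le_div_iff₀ (by nlinarith) (by positivity)]
          nlinarith
        linarith
      · have h9 : y ≤ (p : ℝ) - 1 := by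
          have h5 := Nat.lt_floor_add_one y
          have h6 : ((⌊y⌋₊ + 1 + 1 : ℕ) : ℝ) ≤ p := by
            have : ⌊y⌋₊ + 1 + 1 ≤ p := by
              have := hp.2
              omega
            exact_mod_cast this
          push_cast at h6
          linarith
        have h10 : 1 / ((p : ℝ) - 1) ≤ 1 / y := one_div_le_one_div_of_le (by linarith) h9
        linarith
    refine (Finset.sum_le_sum hb).trans ?_
    rw [Finset.sum_ite_eq']
    split_ifs
    · exact le_rfl
    · positivity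
  rw [h2] at h1
  have e : ff y * (y - Chebyshev.theta y) = ff y * y - ff y * Chebyshev.theta y := by ring
  rw [e]
  linarith

/-- the missing primes of an exceptional integer are few -/
lemma missing_card {n : ℕ} {y : ℝ} (hn : n ≠ 0) (hy : y = Real.log n) (hy3 : 3 ≤ y)
    (hex : Real.exp Real.eulerMascheroniConstant * Real.log (Real.log n) ≤ (n : ℝ) / Nat.totient n) :
    ((Mis n).card : ℝ) * (((Mis n).card : ℝ) - 1) ≤ 2 * y ^ 2 * DD y + 4 := by
  have hly : 0 < Real.log y := Real.log_pos (by linarith)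
  have hy0 : 0 < y := by linarith
  have hff : 0 < ff y := by unfold ff; positivity
  have hmul : ff y * Real.log y = 1 / y := by unfold ff; field_simp
  have h1 := missing_le hn hy hy3
  have h2 : Real.eulerMascheroniConstant + Real.log (Real.log y) ≤ ∑ p ∈ n.primeFactors, wt p := by
    rw [← totient_log hn, ← Real.log_exp Real.eulerMascheroniConstant,
      ← Real.log_mul (Real.exp_ne_zero _) hly.ne']
    refine Real.log_le_log (by positivity) ?_
    rw [← hy] at hex
    exact hex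
  have h3 : ∑ p ∈ Mis n, (wt p - ff y * Real.log p) ≤ DD y + 2 / y ^ 2 := by
    unfold DD
    have e : ff y * (y - Chebyshev.theta y) = -(ff y * (Chebyshev.theta y - y)) := by ring
    rw [e] at h1
    linarith
  have h4 : ∑ p ∈ Mis n, (((⌊y⌋₊ : ℕ) : ℝ) - p) / y ^ 2 ≤ ∑ p ∈ Mis n, (wt p - ff y * Real.log p) := by
    refine Finset.sum_le_sum fun p hp => ?_
    simp only [Mis, PL, Finset.mem_filter, Finset.mem_Ioc] at hp
    rw [← hy] at hp
    have hp2 : 2 ≤ p := hp.1.2.two_le
    have hp0 : (0 : ℝ) < p := by exact_mod_cast hp.1.1.1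
    have hpy : (p : ℝ) ≤ y := (Nat.le_floor_iff hy0.le).1 hp.1.1.2
    have h5 := wt_lower hp2
    have h6 : ff y * Real.log p ≤ 1 / y := by
      rw [← hmul]
      exact mul_le_mul_of_nonneg_left (Real.log_le_log hp0 hpy) hff.le
    have h7 : (((⌊y⌋₊ : ℕ) : ℝ) - p) / y ^ 2 ≤ (p : ℝ)⁻¹ - 1 / y := by
      have h8 : (p : ℝ)⁻¹ - 1 / y = (y - p) / (p * y) := by field_simp
      rw [h8]
      have h9 : ((⌊y⌋₊ : ℕ) : ℝ) ≤ y := Nat.floor_le hy0.le
      have h10 : 0 ≤ y - p := by linarith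
      calc (((⌊y⌋₊ : ℕ) : ℝ) - p) / y ^ 2 ≤ (y - p) / y ^ 2 := by gcongr
        _ ≤ (y - p) / (p * y) := by
          refine div_le_div_of_nonneg_left h10 (by positivity) ?_
          nlinarith
    linarith
  have h5 := tri' (Mis n) ⌊y⌋₊ (fun p hp => by
    simp only [Mis, PL, Finset.mem_filter, Finset.mem_Ioc] at hp
    rw [← hy] at hp
    exact hp.1.1.2)
  rw [← Finset.sum_div] at h4
  have h6 : (∑ p ∈ Mis n, (((⌊y⌋₊ : ℕ) : ℝ) - p)) / y ^ 2 ≤ DD y + 2 / y ^ 2 := h4.trans h3
  rw [div_le_iff₀ (by positivity)] at h6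
  have h7 : (DD y + 2 / y ^ 2) * y ^ 2 = y ^ 2 * DD y + 2 := by field_simp
  rw [h7] at h6
  linarith

end

end Pool.Agent.V11272.RB
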