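import Pool.Agent.V11272.RB.Arith

set_option autoImplicit false

/-! Counting the exceptional integers from above. -/

namespace Pool.Agent.V11272.RB

open Filter Topology Set

noncomputable section

/-- Nicolas-type exceptional integers -/
def Exc (n : ℕ) : Prop := 3 ≤ n ∧
  Real.exp Real.eulerMascheroniConstant * Real.log (Real.log n) ≤ (n : ℝ) / Nat.totient n

lemma card_small_subsets (S : Finset ℕ) (m : ℕ) :
    ((S.powerset).filter fun M => M.card ≤ m).card ≤ (S.card + 1) ^ m := by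
  have h1 : (S.powerset).filter (fun M => M.card ≤ m) ⊆
      (Finset.range (m + 1)).biUnion fun j => S.powersetCard j := by
    intro M hM
    rw [Finset.mem_filter, Finset.mem_powerset] at hM
    rw [Finset.mem_biUnion]
    exact ⟨M.card, Finset.mem_range.2 (by omega), Finset.mem_powersetCard.2 ⟨hM.1, rfl⟩⟩
  refine (Finset.card_le_card h1).trans (Finset.card_biUnion_le.trans ?_)
  rw [add_pow]
  refine Finset.sum_le_sum fun j hj => ?_
  rw [Finset.card_powersetCard, one_pow, mul_one]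
  have hj' : j ≤ m := by
    have := Finset.mem_range.1 hj
    omega
  calc S.card.choose j ≤ S.card ^ j := Nat.choose_le_pow _ _
    _ ≤ S.card ^ j * m.choose j := Nat.le_mul_of_pos_right _ (Nat.choose_pos hj')

lemma PL_floor (y : ℝ) : PL (⌊y⌋₊ : ℝ) = PL y := by
  unfold PL
  rw [Nat.floor_natCast]

lemma card_PL (k : ℕ) : (PL (k : ℝ)).card ≤ k := by
  unfold PL
  rw [Nat.floor_natCast]
  refine (Finset.card_filter_le _ _).trans ?_
  simp

/-- the block of integers -/
def NB (k m : ℕ) : Finset ℕ :=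
  (Finset.range (⌊Real.exp (k + 1)⌋₊ + 1)).filter fun n => n ≠ 0 ∧ ⌊Real.log n⌋₊ = k ∧ (Mis n).card ≤ m

lemma card_NB (k m : ℕ) (hk : 1 ≤ k) : ((NB k m).card : ℝ) ≤
    ((k : ℝ) + 1) ^ m * Real.exp (k + 1 - Chebyshev.theta k + m * Real.log (k + 1)) := by
  classical
  set RR : ℝ := Real.exp (k + 1 - Chebyshev.theta k + m * Real.log (k + 1)) with hRR
  set tgt : Finset (Finset ℕ × ℕ) := (((PL (k : ℝ)).powerset).filter fun M => M.card ≤ m) ×ˢ
    (Finset.Icc 1 ⌊RR⌋₊) with htgt
  set fn : ℕ → Finset ℕ × ℕ := fun n =>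
    (Mis n, n / ∏ p ∈ (PL (k : ℝ)) \ Mis n, p) with hfn
  have hpr : ∀ p ∈ PL (k : ℝ), p.Prime := fun p hp => (Finset.mem_filter.1 hp).2
  have hple : ∀ p ∈ PL (k : ℝ), p ≤ k := fun p hp => by
    have := (Finset.mem_Ioc.1 (Finset.mem_filter.1 hp).1).2
    rwa [Nat.floor_natCast] at this
  have hprops : ∀ n ∈ NB k m, n ≠ 0 ∧ Mis n ⊆ PL (k : ℝ) ∧ (Mis n).card ≤ m ∧
      (∏ p ∈ (PL (k : ℝ)) \ Mis n, p) ∣ n ∧ (n : ℝ) ≤ Real.exp (k + 1) := by
    intro n hn
    simp only [NB, Finset.mem_filter, Finset.mem_range] at hn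
    obtain ⟨hn1, hn2, hn3, hn4⟩ := hn
    have hPL : PL (Real.log n) = PL (k : ℝ) := by rw [← hn3, PL_floor]
    refine ⟨hn2, ?_, hn4, ?_, ?_⟩
    · unfold Mis
      rw [hPL]
      exact Finset.filter_subset _ _
    · refine Finset.prod_primes_dvd n (fun p hp => ?_) (fun p hp => ?_)
      · exact (hpr p (Finset.mem_sdiff.1 hp).1).prime
      · have h1 := Finset.mem_sdiff.1 hp
        by_contra hnd
        apply h1.2
        unfold Mis
        rw [hPL, Finset.mem_filter]
        exact ⟨h1.1, hnd⟩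
    · have h1 : n ≤ ⌊Real.exp (k + 1)⌋₊ := by omega
      exact (Nat.le_floor_iff (Real.exp_pos _).le).1 h1
  have hmaps : ∀ n ∈ NB k m, fn n ∈ tgt := by
    intro n hn
    obtain ⟨h0, h1, h2, h3, h4⟩ := hprops n hn
    rw [htgt, Finset.mem_product, Finset.mem_filter, Finset.mem_powerset, Finset.mem_Icc]
    refine ⟨⟨h1, h2⟩, ?_, ?_⟩
    · exact Nat.div_pos (Nat.le_of_dvd (Nat.pos_of_ne_zero h0) h3)
        (Finset.prod_pos fun p hp => (hpr p (Finset.mem_sdiff.1 hp).1).pos)
    · apply Nat.le_floor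
      rw [hfn]
      simp only
      have hprodpos : (0 : ℝ) < ((∏ p ∈ (PL (k : ℝ)) \ Mis n, p : ℕ) : ℝ) := by
        exact_mod_cast Finset.prod_pos fun p hp => (hpr p (Finset.mem_sdiff.1 hp).1).pos
      rw [Nat.cast_div h3 hprodpos.ne', div_le_iff₀ hprodpos]
      have hlogprod : Real.log ((∏ p ∈ (PL (k : ℝ)) \ Mis n, p : ℕ) : ℝ) =
          Chebyshev.theta k - ∑ p ∈ Mis n, Real.log p := by
        push_cast
        rw [Real.log_prod (fun p hp => by
          exact_mod_cast (hpr p (Finset.mem_sdiff.1 hp).1).ne_zero), theta_eq,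
          ← Finset.sum_sdiff h1]
        ring
      have hmis : ∑ p ∈ Mis n, Real.log p ≤ m * Real.log (k + 1) := by
        calc ∑ p ∈ Mis n, Real.log p ≤ ∑ p ∈ Mis n, Real.log ((k : ℝ) + 1) := by
              refine Finset.sum_le_sum fun p hp => ?_
              have hp1 : (0 : ℝ) < p := by exact_mod_cast (hpr p (h1 hp)).pos
              have hp2 : (p : ℝ) ≤ k := by exact_mod_cast hple p (h1 hp)
              exact Real.log_le_log hp1 (by linarith)
          _ = (Mis n).card * Real.log (k + 1) := by rw [Finset.sum_const, nsmul_eq_mul]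
          _ ≤ m * Real.log (k + 1) := by
              have : 0 ≤ Real.log ((k : ℝ) + 1) := Real.log_nonneg (by
                have : (0 : ℝ) ≤ k := Nat.cast_nonneg k
                linarith)
              have h5 : ((Mis n).card : ℝ) ≤ m := by exact_mod_cast h2
              exact mul_le_mul_of_nonneg_right h5 this
      refine h4.trans ?_
      rw [← Real.exp_log hprodpos, hlogprod, hRR, ← Real.exp_add, Real.exp_le_exp]
      linarith
  have hinj : Set.InjOn fn (NB k m : Set ℕ) := by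
    intro a ha b hb hab
    obtain ⟨_, _, _, a3, _⟩ := hprops a ha
    obtain ⟨_, _, _, b3, _⟩ := hprops b hb
    rw [hfn] at hab
    simp only [Prod.mk.injEq] at hab
    have h1 := Nat.div_mul_cancel a3
    have h2 := Nat.div_mul_cancel b3
    rw [← h1, ← h2, hab.2, hab.1]
  have hcard := Finset.card_le_card_of_injOn fn hmaps hinj
  rw [htgt, Finset.card_product] at hcard
  have h1 := card_small_subsets (PL (k : ℝ)) m
  have h2 : (((PL (k : ℝ)).card + 1 : ℕ) : ℝ) ≤ (k : ℝ) + 1 := by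
    have := card_PL k
    push_cast
    have : ((PL (k : ℝ)).card : ℝ) ≤ k := by exact_mod_cast this
    linarith
  have h3 : ((Finset.Icc 1 ⌊RR⌋₊).card : ℝ) ≤ RR := by
    rw [Nat.card_Icc, Nat.add_sub_cancel]
    exact Nat.floor_le (Real.exp_pos _).le
  calc ((NB k m).card : ℝ) ≤ ((((PL (k : ℝ)).powerset).filter fun M => M.card ≤ m).card *
        (Finset.Icc 1 ⌊RR⌋₊).card : ℕ) := by exact_mod_cast hcard
    _ = ((((PL (k : ℝ)).powerset).filter fun M => M.card ≤ m).card : ℝ) *
        ((Finset.Icc 1 ⌊RR⌋₊).card : ℝ) := by push_cast; rfl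
    _ ≤ ((k : ℝ) + 1) ^ m * RR := by
        refine mul_le_mul ?_ h3 (by positivity) (by positivity)
        have h5 : ((((PL (k : ℝ)).powerset).filter fun M => M.card ≤ m).card : ℝ) ≤
            ((((PL (k : ℝ)).card + 1 : ℕ) : ℝ)) ^ m := by exact_mod_cast h1
        exact h5.trans (pow_le_pow_left₀ (by positivity) h2 m)

open Classical in
/-- the upper count -/
theorem count_upper {x L T : ℝ} {M : ℕ} (hx : 3 ≤ x) (hL : L = Real.log x)
    (hM : ∀ n : ℕ, 3 ≤ Real.log n → Real.log n ≤ L → Exc n → (Mis n).card ≤ M)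
    (hT : ∀ k : ℕ, (k : ℝ) ≤ L → k - Chebyshev.theta k ≤ T) :
    (((Finset.Icc 3 ⌊x⌋₊).filter Exc).card : ℝ) ≤ Real.exp 3 +
      (L + 1) * Real.exp (2 * M * Real.log (L + 1) + 1 + T) := by
  have hx0 : 0 < x := by linarith
  have hL0 : 0 < L := by rw [hL]; exact Real.log_pos (by linarith)
  have hsub : (Finset.Icc 3 ⌊x⌋₊).filter Exc ⊆ (Finset.Icc 1 ⌊Real.exp 3⌋₊) ∪
      (Finset.Icc 3 ⌊L⌋₊).biUnion fun k => NB k M := by
    intro n hn
    rw [Finset.mem_filter, Finset.mem_Icc] at hn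
    obtain ⟨⟨h1, h2⟩, h3⟩ := hn
    have hn0 : (0 : ℝ) < n := by
      have : 0 < n := by omega
      exact_mod_cast this
    have hnx : (n : ℝ) ≤ x := (Nat.le_floor_iff hx0.le).1 h2
    rw [Finset.mem_union]
    by_cases h : Real.log n < 3
    · left
      rw [Finset.mem_Icc]
      refine ⟨by omega, Nat.le_floor ?_⟩
      exact ((Real.log_lt_iff_lt_exp hn0).1 h).le
    · right
      push Not at h
      have hnL : Real.log n ≤ L := by rw [hL]; exact Real.log_le_log hn0 hnx
      rw [Finset.mem_biUnion]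
      refine ⟨⌊Real.log n⌋₊, ?_, ?_⟩
      · rw [Finset.mem_Icc]
        exact ⟨Nat.le_floor (by exact_mod_cast h), Nat.floor_le_floor hnL⟩
      · unfold NB
        rw [Finset.mem_filter, Finset.mem_range]
        refine ⟨?_, by omega, rfl, hM n h hnL h3⟩
        have h5 : n ≤ ⌊Real.exp ((⌊Real.log n⌋₊ : ℝ) + 1)⌋₊ := by
          apply Nat.le_floor
          rw [← Real.log_le_iff_le_exp hn0]
          exact (Nat.lt_floor_add_one _).le
        omega
  have hcard := (Finset.card_le_card hsub).trans (Finset.card_union_le _ _)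
  have hcard2 : (((Finset.Icc 3 ⌊L⌋₊).biUnion fun k => NB k M).card : ℝ) ≤
      (L + 1) * Real.exp (2 * M * Real.log (L + 1) + 1 + T) := by
    calc (((Finset.Icc 3 ⌊L⌋₊).biUnion fun k => NB k M).card : ℝ)
        ≤ ((∑ k ∈ Finset.Icc 3 ⌊L⌋₊, (NB k M).card : ℕ) : ℝ) := by
          exact_mod_cast Finset.card_biUnion_le
      _ = ∑ k ∈ Finset.Icc 3 ⌊L⌋₊, ((NB k M).card : ℝ) := by push_cast; rfl
      _ ≤ ∑ k ∈ Finset.Icc 3 ⌊L⌋₊, Real.exp (2 * M * Real.log (L + 1) + 1 + T) := by
          refine Finset.sum_le_sum fun k hk => ?_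
          rw [Finset.mem_Icc] at hk
          have hkL : (k : ℝ) ≤ L := (Nat.le_floor_iff hL0.le).1 hk.2
          have hk0 : (0 : ℝ) ≤ k := Nat.cast_nonneg k
          refine (card_NB k M (by omega)).trans ?_
          have h1 : ((k : ℝ) + 1) ^ M = Real.exp (M * Real.log (k + 1)) := by
            rw [mul_comm, Real.exp_mul, Real.exp_log (by linarith), Real.rpow_natCast]
          rw [h1, ← Real.exp_add, Real.exp_le_exp]
          have h2 := hT k hkL
          have h3 : Real.log ((k : ℝ) + 1) ≤ Real.log (L + 1) := Real.log_le_log (by linarith) (by linarith)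
          have h4 : (M : ℝ) * Real.log (k + 1) ≤ M * Real.log (L + 1) :=
            mul_le_mul_of_nonneg_left h3 (Nat.cast_nonneg M)
          linarith
      _ = ((Finset.Icc 3 ⌊L⌋₊).card : ℝ) * Real.exp (2 * M * Real.log (L + 1) + 1 + T) := by
          rw [Finset.sum_const, nsmul_eq_mul]
      _ ≤ _ := by
          refine mul_le_mul_of_nonneg_right ?_ (Real.exp_pos _).le
          rw [Nat.card_Icc]
          have h1 : ((⌊L⌋₊ + 1 - 3 : ℕ) : ℝ) ≤ ⌊L⌋₊ := by
            exact_mod_cast (by omega : ⌊L⌋₊ + 1 - 3 ≤ ⌊L⌋₊)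
          have h2 := Nat.floor_le hL0.le
          linarith
  have hcard3 : ((Finset.Icc 1 ⌊Real.exp 3⌋₊).card : ℝ) ≤ Real.exp 3 := by
    rw [Nat.card_Icc, Nat.add_sub_cancel]
    exact Nat.floor_le (Real.exp_pos _).le
  have hcard' : (((Finset.Icc 3 ⌊x⌋₊).filter Exc).card : ℝ) ≤ ((Finset.Icc 1 ⌊Real.exp 3⌋₊).card : ℝ) +
      (((Finset.Icc 3 ⌊L⌋₊).biUnion fun k => NB k M).card : ℝ) := by exact_mod_cast hcard
  linarith

end

end Pool.Agent.V11272.RB
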