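import Pool.Agent.V11272.RB.Pole

set_option autoImplicit false

/-! Analytic continuation of the transform of `kk` across the real zero-free strip. -/

namespace Pool.Agent.V11272.RB

open Complex Filter Topology MeasureTheory Set
open H353 (FF)

noncomputable section

variable {α C : ℝ}

/-- the set where `PP` is analytic -/
lemma isOpen_good : IsOpen {w : ℂ | w ≠ 0 ∧ FF w ≠ 0} :=
  isOpen_ne.inter (isOpen_ne_fun FF_diff.continuous continuous_const)

lemma PP_diffOn : DifferentiableOn ℂ PP {w : ℂ | w ≠ 0 ∧ FF w ≠ 0} :=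
  fun _ hw => (PP_diff hw.1 hw.2).differentiableWithinAt

lemma dPP_diffOn : DifferentiableOn ℂ (deriv PP) {w : ℂ | w ≠ 0 ∧ FF w ≠ 0} :=
  PP_diffOn.deriv isOpen_good

lemma J_tendsto (h : PD α C) : Tendsto (fun t : ℝ => Lp (Real.log 2) dl 0 (t : ℂ)) (𝓝[>] 0)
    (𝓝 (J0 : ℂ)) := by
  have e : (J0 : ℂ) = ∫ u in Ioi (Real.log 2), ((dl u : ℝ) : ℂ) := by
    unfold J0
    rw [integral_complex_ofReal]
  rw [e]
  unfold Lp
  refine tendsto_integral_filter_of_dominated_convergence (fun u => |dl u|) ?_ ?_ ?_ ?_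
  · exact Eventually.of_forall fun t => (meas_kernel measurable_dl 0 _).aestronglyMeasurable
  · filter_upwards [self_mem_nhdsWithin] with t ht
    filter_upwards [ae_restrict_mem measurableSet_Ioi] with u hu
    rw [norm_kernel, pow_zero, mul_one]
    have hu0 : 0 < u := L2_pos.trans hu
    have ht0 : 0 < t := ht
    have h1 : Real.exp (-((t : ℂ).re * u)) ≤ 1 := by
      rw [Complex.ofReal_re]
      apply Real.exp_le_one_iff.2
      have := mul_pos ht0 hu0
      linarith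
    calc |dl u| * Real.exp (-((t : ℂ).re * u)) ≤ |dl u| * 1 := by gcongr
      _ = _ := mul_one _
  · exact h.int.abs.integrableOn
  · filter_upwards with u
    have h1 : Continuous fun t : ℝ => ((dl u * u ^ 0 : ℝ) : ℂ) * cexp (-((t : ℂ) * u)) := by fun_prop
    have h2 := (h1.tendsto 0).mono_left (nhdsWithin_le_nhds (s := Ioi 0))
    simpa using h2

/-- the derivatives of the transform of `kk` at a real point -/
lemma small_kk (h : PD α C) (hz : ∀ w : ℂ, 1 - α < w.re → FF w ≠ 0) {s0 r r' : ℝ}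
    (hs0 : -α < s0) (hr : 0 < r) (hrr : r < r')
    (hB : ∀ s ∈ Metric.ball (s0 : ℂ) r', 1 + s ≠ 0 ∧ FF (1 + s) ≠ 0) :
    ∃ C1 : ℝ, ∀ m : ℕ, ‖Lp (Real.log 2) kk m (s0 : ℂ)‖ ≤ C1 * ((m.factorial : ℝ) / r ^ m) := by
  set B := Metric.ball (s0 : ℂ) r' with hBdef
  have hBo : IsOpen B := Metric.isOpen_ball
  have hsB : (s0 : ℂ) ∈ B := Metric.mem_ball_self (by linarith)
  have hsH : (s0 : ℂ) ∈ HP α := by
    show -α < (s0 : ℂ).re
    rwa [Complex.ofReal_re]
  set J := Lp (Real.log 2) dl 0 with hJ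
  set J1 := Lp (Real.log 2) dl 1 with hJ1
  set J2 := Lp (Real.log 2) dl 2 with hJ2
  have hadd : ∀ s, HasDerivAt (fun s : ℂ => 1 + s) 1 s := fun s => (hasDerivAt_id s).const_add 1
  -- the second derivative
  have hΨ : ∀ s ∈ HP α, J2 s = PP (1 + s) - deriv PP (1 + s) := by
    intro s hs
    rw [hJ2, Lp_dl h 0 hs, Lp_Fp_iter h hz 0 hs, Lp_Fp_iter h hz (0 + 1) hs]
    simp
    ring
  have hΨd : DifferentiableOn ℂ (fun s => PP (1 + s) - deriv PP (1 + s)) B := by
    intro s hs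
    have h1 := hB s hs
    have hg : {w : ℂ | w ≠ 0 ∧ FF w ≠ 0} ∈ 𝓝 (1 + s) := isOpen_good.mem_nhds h1
    have a1 : DifferentiableAt ℂ PP (1 + s) := PP_diffOn.differentiableAt hg
    have a2 : DifferentiableAt ℂ (deriv PP) (1 + s) := dPP_diffOn.differentiableAt hg
    exact ((a1.comp s (hadd s).differentiableAt).sub
      (a2.comp s (hadd s).differentiableAt)).differentiableWithinAt
  obtain ⟨Φ1, hΦ1s, hΦ1⟩ := hΨd.isExactOn_ball.with_val_at (s0 : ℂ) (-J1 s0)
  have hΦ1d : DifferentiableOn ℂ Φ1 B := fun s hs => (hΦ1 s hs).differentiableAt.differentiableWithinAt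
  obtain ⟨Φ2, hΦ2s, hΦ2⟩ := hΦ1d.isExactOn_ball.with_val_at (s0 : ℂ) (J s0)
  have hΦ2d : DifferentiableOn ℂ Φ2 B := fun s hs => (hΦ2 s hs).differentiableAt.differentiableWithinAt
  have hBH : IsOpen (B ∩ HP α) := hBo.inter (isOpen_HP α)
  have hBHc : IsPreconnected (B ∩ HP α) := ((convex_ball _ _).inter (convex_HP α)).isPreconnected
  have hd0 := fun s hs => h.dl_LD.hasDerivAt 0 (s := s) hs
  have hd1 := fun s hs => h.dl_LD.hasDerivAt 1 (s := s) hs
  have e1 : EqOn Φ1 (fun s => -J1 s) (B ∩ HP α) := by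
    refine hBH.eqOn_of_deriv_eq hBHc (hΦ1d.mono inter_subset_left) ?_ ?_ ⟨hsB, hsH⟩ hΦ1s
    · exact ((h.dl_LD.differentiableOn 1).neg).mono inter_subset_right
    · intro s hs
      have h1 : deriv (fun s => -J1 s) s = J2 s := by
        have := (hd1 s hs.2).neg.deriv
        rw [neg_neg] at this
        exact this
      rw [h1, (hΦ1 s hs.1).deriv, hΨ s hs.2]
  have e2 : EqOn Φ2 J (B ∩ HP α) := by
    refine hBH.eqOn_of_deriv_eq hBHc (hΦ2d.mono inter_subset_left) ?_ ?_ ⟨hsB, hsH⟩ hΦ2s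
    · exact (h.dl_LD.differentiableOn 0).mono inter_subset_right
    · intro s hs
      rw [(hΦ2 s hs.1).deriv, e1 hs, (hd0 s hs.2).deriv]
  -- the product
  set GJ : ℂ → ℂ := fun s => Φ2 s - cexp (-(s * Real.log 2)) * (J0 : ℂ) with hGJ
  have hexpd : Differentiable ℂ fun s : ℂ => cexp (-(s * Real.log 2)) * (J0 : ℂ) := by fun_prop
  have hGJd : DifferentiableOn ℂ GJ B := hΦ2d.sub hexpd.differentiableOn
  have hrel : ∀ s ∈ B ∩ HP α, s * Lp (Real.log 2) kk 0 s = GJ s := by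
    intro s hs
    rw [h.rel s hs.2, hGJ]
    simp only
    rw [e2 hs]
  have hGJ0 : (0 : ℂ) ∈ B → GJ 0 = 0 := by
    intro h0
    have c1 : Tendsto (fun t : ℝ => GJ (t : ℂ)) (𝓝[>] 0) (𝓝 (GJ 0)) := by
      have : ContinuousAt GJ 0 := (hGJd.differentiableAt (hBo.mem_nhds h0)).continuousAt
      have h1 : Tendsto (fun t : ℝ => (t : ℂ)) (𝓝[>] 0) (𝓝 0) := by
        have := (Complex.continuous_ofReal.tendsto 0).mono_left (nhdsWithin_le_nhds (s := Ioi 0))
        simpa using this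
      exact this.tendsto.comp h1
    have c2 : Tendsto (fun t : ℝ => J (t : ℂ) - cexp (-((t : ℂ) * Real.log 2)) * (J0 : ℂ)) (𝓝[>] 0)
        (𝓝 0) := by
      have h1 : Continuous fun t : ℝ => cexp (-((t : ℂ) * Real.log 2)) * (J0 : ℂ) := by fun_prop
      have h2 := (h1.tendsto 0).mono_left (nhdsWithin_le_nhds (s := Ioi 0))
      have h3 := (J_tendsto h).sub h2
      simpa using h3
    have c3 : (fun t : ℝ => GJ (t : ℂ)) =ᶠ[𝓝[>] 0]
        fun t : ℝ => J (t : ℂ) - cexp (-((t : ℂ) * Real.log 2)) * (J0 : ℂ) := by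
      have h1 : ∀ᶠ t : ℝ in 𝓝[>] 0, (t : ℂ) ∈ B := by
        have : Tendsto (fun t : ℝ => (t : ℂ)) (𝓝[>] 0) (𝓝 0) := by
          have := (Complex.continuous_ofReal.tendsto 0).mono_left (nhdsWithin_le_nhds (s := Ioi 0))
          simpa using this
        exact this.eventually (hBo.mem_nhds h0)
      filter_upwards [h1, self_mem_nhdsWithin] with t ht ht0
      have ht0' : (0 : ℝ) < t := ht0
      have : (t : ℂ) ∈ HP α := by
        show -α < (t : ℂ).re
        rw [Complex.ofReal_re]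
        linarith [h.h0]
      simp only [hGJ]
      rw [e2 ⟨ht, this⟩]
    exact tendsto_nhds_unique c1 (c2.congr' c3.symm)
  obtain ⟨C', hk⟩ := h.kk_LD
  set G := Lp (Real.log 2) kk 0 with hG
  set GJ' : ℂ → ℂ := Function.update GJ 0 0 with hGJ'
  have hGJ'0 : GJ' 0 = 0 := Function.update_self _ _ _
  have hGJ'B : EqOn GJ' GJ B := by
    intro s hs
    by_cases h0 : s = 0
    · rw [h0] at hs ⊢
      rw [hGJ'0, hGJ0 hs]
    · exact Function.update_of_ne h0 _ _
  have hGJ'd : DifferentiableOn ℂ GJ' B := hGJd.congr hGJ'B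
  have hGtd : DifferentiableOn ℂ (dslope GJ' 0) B := by
    by_cases h0 : (0 : ℂ) ∈ B
    · exact (differentiableOn_dslope (hBo.mem_nhds h0)).2 hGJ'd
    · exact (differentiableOn_dslope_of_notMem h0).2 hGJ'd
  have hGt : EqOn (dslope GJ' 0) G (B ∩ HP α) := by
    intro s hs
    by_cases h0 : s = 0
    · subst h0
      rw [dslope_same]
      have e5 : GJ' =ᶠ[𝓝 0] fun s => s * G s := by
        filter_upwards [hBH.mem_nhds hs] with z hz'
        rw [hGJ'B hz'.1, hrel z hz']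
      rw [e5.deriv_eq]
      have := ((hasDerivAt_id (0 : ℂ)).mul (hk.hasDerivAt 0 hs.2)).deriv
      have e6 : deriv (fun s => s * G s) 0 = deriv (id * G) 0 := rfl
      rw [e6, this]
      simp [hG]
    · rw [dslope_of_ne _ h0, slope_def_field, hGJ'0, hGJ'B hs.1, ← hrel s hs]
      simp only [sub_zero]
      field_simp
  obtain ⟨M, hM0, hM⟩ := cauchy_bound hr hrr hGtd
  refine ⟨M, fun m => ?_⟩
  have h1 := hk.iterDeriv 0 m hsH
  have h2 : iteratedDeriv m (dslope GJ' 0) (s0 : ℂ) = iteratedDeriv m G (s0 : ℂ) := by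
    refine Filter.EventuallyEq.iteratedDeriv_eq m ?_
    filter_upwards [hBH.mem_nhds ⟨hsB, hsH⟩] with z hz'
    exact hGt hz'
  have h3 := hM m
  rw [h2, h1, zero_add, norm_mul, norm_pow, norm_neg, norm_one, one_pow, one_mul] at h3
  calc _ ≤ m.factorial * M / r ^ m := h3
    _ = _ := by ring

end

end Pool.Agent.V11272.RB
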