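import Pool.Agent.V11272.RB.Osc

set_option autoImplicit false

/-! Local oscillation from the Laplace transform: the abstract theorem. -/

namespace Pool.Agent.V11272.RB

open Complex Filter Topology MeasureTheory Set

noncomputable section

variable {a : ℝ} {kk : ℝ → ℝ} {α C : ℝ}

lemma lim_aux {q : ℝ} (hq0 : 0 ≤ q) (hq1 : q < 1) (A B K D : ℝ) :
    Tendsto (fun m : ℕ => A * (m * q ^ m) + B * (m * q ^ (m - 1)) +
      K * (D ^ m / ((m - 1).factorial : ℝ))) atTop (𝓝 0) := by
  have h1 : Tendsto (fun m : ℕ => (m : ℝ) * q ^ m) atTop (𝓝 0) :=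
    tendsto_self_mul_const_pow_of_lt_one hq0 hq1
  have h2 : Tendsto (fun m : ℕ => (m : ℝ) * q ^ (m - 1)) atTop (𝓝 0) := by
    rw [← tendsto_add_atTop_iff_nat 1]
    have h3 : Tendsto (fun m : ℕ => (m : ℝ) * q ^ m + q ^ m) atTop (𝓝 (0 + 0)) :=
      h1.add (tendsto_pow_atTop_nhds_zero_of_lt_one hq0 hq1)
    rw [add_zero] at h3
    refine h3.congr fun m => ?_
    simp only [Nat.add_sub_cancel]
    push_cast
    ring
  have h3 : Tendsto (fun m : ℕ => D ^ m / ((m - 1).factorial : ℝ)) atTop (𝓝 0) := by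
    rw [← tendsto_add_atTop_iff_nat 1]
    have h4 : Tendsto (fun m : ℕ => D * (D ^ m / (m.factorial : ℝ))) atTop (𝓝 (D * 0)) :=
      (FloorSemiring.tendsto_pow_div_factorial_atTop D).const_mul D
    rw [mul_zero] at h4
    refine h4.congr fun m => ?_
    simp only [Nat.add_sub_cancel]
    rw [pow_succ]
    ring
  have h4 := ((h1.const_mul A).add (h2.const_mul B)).add (h3.const_mul K)
  simpa using h4

theorem local_osc (h : LD a kk α C) {lam D r b x : ℝ} {s1 : ℂ} (hl : 0 < lam)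
    (hs1 : s1.re = -α + lam) (hx0 : 0 < x) (hx1 : x < 1 / 2) (hD0 : 0 < D) (hDr : D < r)
    (hDb : D < lam + b - α) (hDE : D * EE x < lam)
    (h1 : ∃ C1 : ℝ, ∀ m : ℕ, ‖Lp a kk m ((-α + lam : ℝ) : ℂ)‖ ≤ C1 * ((m.factorial : ℝ) / r ^ m))
    (h2 : ∃ c : ℝ, 0 < c ∧ ∃ (C2 : ℝ) (m0 : ℕ), ∀ m : ℕ, m0 ≤ m →
      c * (((m - 1).factorial : ℝ) / D ^ m) ≤
        ‖s1‖ * ‖Lp a kk m s1‖ + m * ‖Lp a kk (m - 1) s1‖ + C2) :
    ∃ U0 : ℝ, ∀ U : ℝ, U0 ≤ U → ∃ u : ℝ, (1 - 2 * x) * U ≤ u ∧ u ≤ U ∧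
      Real.exp (-(b * u)) < kk u := by
  obtain ⟨C1, h1⟩ := h1
  obtain ⟨c, hc, C2, m0, h2⟩ := h2
  have hC := h.C_nonneg
  have hE := EE_pos hx0 hx1
  have hr : 0 < r := hD0.trans hDr
  have hb : 0 < lam + b - α := hD0.trans hDb
  have hC1 : 0 ≤ C1 := by
    have := h1 0
    simp at this
    exact (norm_nonneg _).trans this
  set q : ℝ := max (D / (lam + b - α)) (max (D * EE x / lam) (D / r)) with hq
  have hq1 : q < 1 := by
    rw [hq]
    refine max_lt ((div_lt_one hb).2 hDb) (max_lt ((div_lt_one hl).2 hDE) ((div_lt_one hr).2 hDr))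
  have hq0 : 0 ≤ q := le_max_of_le_left (by positivity)
  -- a uniform bound
  set K : ℝ := 2 / (lam + b - α) + 2 * (C * (4 * Real.exp 4 / lam)) + C1 with hK
  have hK0 : 0 ≤ K := by rw [hK]; positivity
  have hBd : ∀ (U : ℝ) (j : ℕ), 0 ≤ U → (j : ℝ) ≤ (1 - x) * (lam * U) →
      (1 - x) * (lam * U) ≤ j + 2 →
      (∀ u : ℝ, (1 - 2 * x) * U ≤ u → u ≤ U → kk u ≤ Real.exp (-(b * u))) →
      ‖Lp a kk j s1‖ ≤ K * (j.factorial * (q / D) ^ j) := by
    intro U j hU hj1 hj2 hW
    have g1 := window_bound h j hl hs1 hb hx0 hx1 hU hj1 hj2 hW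
    have g2 := h1 j
    have f0 : (0 : ℝ) < j.factorial := by exact_mod_cast j.factorial_pos
    have e1 : (1 / (lam + b - α)) ≤ q / D := by
      rw [le_div_iff₀ hD0, one_div_mul_eq_div]
      exact le_max_left _ _
    have e2 : EE x / lam ≤ q / D := by
      rw [le_div_iff₀ hD0]
      have : EE x / lam * D = D * EE x / lam := by ring
      rw [this]
      exact le_max_of_le_right (le_max_left _ _)
    have e3 : 1 / r ≤ q / D := by
      rw [le_div_iff₀ hD0, one_div_mul_eq_div]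
      exact le_max_of_le_right (le_max_right _ _)
    have p1 : (j.factorial : ℝ) / (lam + b - α) ^ (j + 1) ≤
        (1 / (lam + b - α)) * (j.factorial * (q / D) ^ j) := by
      have : (j.factorial : ℝ) / (lam + b - α) ^ (j + 1) =
          (1 / (lam + b - α)) * (j.factorial * (1 / (lam + b - α)) ^ j) := by
        rw [pow_succ, div_pow, one_pow]
        field_simp
      rw [this]
      gcongr
    have p2 : (j.factorial : ℝ) * (EE x / lam) ^ j ≤ j.factorial * (q / D) ^ j := by gcongr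
    have p3 : (j.factorial : ℝ) / r ^ j ≤ j.factorial * (q / D) ^ j := by
      have : (j.factorial : ℝ) / r ^ j = j.factorial * (1 / r) ^ j := by
        rw [div_pow, one_pow]; ring
      rw [this]
      gcongr
    have p4 := mul_le_mul_of_nonneg_left p3 hC1
    have p5 : 2 * (C * ((4 * Real.exp 4 / lam) * (j.factorial * (EE x / lam) ^ j))) ≤
        2 * (C * ((4 * Real.exp 4 / lam) * (j.factorial * (q / D) ^ j))) := by gcongr
    calc ‖Lp a kk j s1‖ ≤ _ := g1
      _ ≤ 2 * ((1 / (lam + b - α)) * (j.factorial * (q / D) ^ j)) +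
          2 * (C * ((4 * Real.exp 4 / lam) * (j.factorial * (q / D) ^ j))) +
          C1 * (j.factorial * (q / D) ^ j) := by linarith
      _ = _ := by rw [hK]; ring
  -- the limit
  have hlim := (lim_aux hq0 hq1 (‖s1‖ * K) (K * D) (|C2|) D).eventually (gt_mem_nhds hc)
  obtain ⟨m1, hm1⟩ := eventually_atTop.1 hlim
  refine ⟨((max (max m0 m1) 2 : ℕ) + 1) / ((1 - x) * lam), fun U hU => ?_⟩
  by_contra hcon
  push Not at hcon
  have hx2 : 0 < (1 - x) * lam := mul_pos (by linarith) hl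
  set m : ℕ := ⌊(1 - x) * (lam * U)⌋₊ with hm
  have hU1 : ((max (max m0 m1) 2 : ℕ) : ℝ) + 1 ≤ (1 - x) * (lam * U) := by
    rw [div_le_iff₀ hx2] at hU
    linarith
  have hU0 : 0 ≤ U := by
    refine le_trans ?_ hU
    positivity
  have hm2 : max (max m0 m1) 2 ≤ m := by
    rw [hm]
    refine Nat.le_floor ?_
    linarith
  have hpos : 0 ≤ (1 - x) * (lam * U) := by
    have : 0 ≤ 1 - x := by linarith
    positivity
  have hmle : (m : ℝ) ≤ (1 - x) * (lam * U) := Nat.floor_le hpos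
  have hmlt : (1 - x) * (lam * U) < m + 1 := Nat.lt_floor_add_one _
  have hmm0 : m0 ≤ m := (le_max_left _ _).trans ((le_max_left _ _).trans hm2)
  have hmm1 : m1 ≤ m := (le_max_right _ _).trans ((le_max_left _ _).trans hm2)
  have hm22 : 2 ≤ m := (le_max_right _ _).trans hm2
  have hcast : ((m - 1 : ℕ) : ℝ) = m - 1 := by
    rw [Nat.cast_sub (by omega)]; simp
  have b1 := hBd U m hU0 hmle (by linarith) hcon
  have b2 := hBd U (m - 1) hU0 (by rw [hcast]; linarith) (by rw [hcast]; linarith) hcon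
  have b3 := h2 m hmm0
  have b4 := hm1 m hmm1
  have f0 : (0 : ℝ) < (m - 1).factorial := by exact_mod_cast (m - 1).factorial_pos
  have hDm : 0 < D ^ m := pow_pos hD0 m
  have hfac : (m.factorial : ℝ) = m * (m - 1).factorial := by
    have : m.factorial = m * (m - 1).factorial := (Nat.mul_factorial_pred (by omega)).symm
    exact_mod_cast this
  have b5 : c * (((m - 1).factorial : ℝ) / D ^ m) ≤
      ‖s1‖ * (K * (m.factorial * (q / D) ^ m)) + m * (K * ((m - 1).factorial * (q / D) ^ (m - 1))) +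
        |C2| := by
    refine b3.trans ?_
    have c1 := mul_le_mul_of_nonneg_left b1 (norm_nonneg s1)
    have c2 := mul_le_mul_of_nonneg_left b2 (Nat.cast_nonneg (α := ℝ) m)
    have c3 := le_abs_self C2
    linarith
  have b6 : c ≤ ‖s1‖ * K * (m * q ^ m) + K * D * (m * q ^ (m - 1)) +
      |C2| * (D ^ m / ((m - 1).factorial : ℝ)) := by
    have d1 : c = c * (((m - 1).factorial : ℝ) / D ^ m) * (D ^ m / (m - 1).factorial) := by
      field_simp
    have d2 : D ^ m = D ^ (m - 1) * D := by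
      rw [← pow_succ]; congr 1; omega
    rw [d1]
    refine (mul_le_mul_of_nonneg_right b5 (by positivity)).trans (le_of_eq ?_)
    have d3 : ‖s1‖ * (K * (m.factorial * (q / D) ^ m)) * (D ^ m / (m - 1).factorial) =
        ‖s1‖ * K * (m * q ^ m) := by
      rw [hfac, div_pow]
      field_simp
    have d4 : m * (K * ((m - 1).factorial * (q / D) ^ (m - 1))) * (D ^ m / (m - 1).factorial) =
        K * D * (m * q ^ (m - 1)) := by
      rw [d2, div_pow]
      field_simp
    rw [add_mul, add_mul, d3, d4]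
  linarith

end

end Pool.Agent.V11272.RB
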