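import Pool.Agent.V11272.RB.Inp
import Pool.Agent.V11272.RB.Osc2

set_option autoImplicit false

/-! Local oscillation of the weighted tail. -/

namespace Pool.Agent.V11272.RB

open Complex Filter Topology MeasureTheory Set
open H353 (FF)

noncomputable section

lemma FF_ne_of_free {A : ℝ} (hfree : ∀ s : ℂ, 1 - A < s.re → riemannZeta s ≠ 0) {w : ℂ}
    (hw : 1 - A < w.re) : FF w ≠ 0 := by
  by_cases h : w = 1
  · rw [h, show FF 1 = 1 from ZU.J_g2b.FF_one]; exact one_ne_zero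
  · rw [Pool.Agent.W190.FF_eq_ne h]
    exact mul_ne_zero (sub_ne_zero.2 h) (hfree w hw)

/-- choice of the point -/
lemma choose_point {A α lam η : ℝ} (hA1 : A ≤ 1 / 2) (hα : α ≤ A) (hα0 : 0 ≤ α) (hαη : A - η ≤ α)
    (hlam : 0 < lam) (hlam1 : lam ≤ 1 / 32) (hη : 0 < η) (hη1 : 4 * η < lam)
    (hfree : ∀ s : ℂ, 1 - A < s.re → riemannZeta s ≠ 0)
    (hzero : ∀ δ > 0, ∃ ρ : ℂ, riemannZeta ρ = 0 ∧ 1 - A - δ < ρ.re) :
    ∃ (w1 ρ : ℂ) (R D : ℝ), w1.re = 1 - α + lam ∧ FF ρ = 0 ∧ ρ ≠ 0 ∧ ‖w1 - ρ‖ = D ∧ D < R ∧ 0 < D ∧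
      D ≤ lam + 3 * η ∧
      (∀ w ∈ Metric.ball w1 R, FF w = 0 → w = ρ) ∧ (0 : ℂ) ∉ Metric.ball w1 R := by
  obtain ⟨ρ0, hρ0, hρ0re⟩ := hzero (min η (1 / 8)) (by positivity)
  have hFρ0 := (Pool.Agent.W190.zero_FF hρ0).1
  have hη2 : 1 - A - η < ρ0.re := by
    have := min_le_left η (1 / 8 : ℝ)
    linarith
  have hη3 : 1 - A - 1 / 8 < ρ0.re := by
    have := min_le_right η (1 / 8 : ℝ)
    linarith
  have hρ0le : ρ0.re ≤ 1 - A := by
    by_contra hc
    push Not at hc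
    exact hfree ρ0 hc hρ0
  set x0 : ℝ := 1 - α + lam with hx0
  set c0 : ℂ := ⟨x0, ρ0.im⟩ with hc0
  set K : Set ℂ := Metric.closedBall c0 (1 / 3) with hK
  have hfin := H353.zeros_finite K (isCompact_closedBall _ _)
  set S := hfin.toFinset with hS
  have hmem : ∀ ρ : ℂ, ρ ∈ S ↔ FF ρ = 0 ∧ ρ ∈ K := fun ρ => by rw [hS, Set.Finite.mem_toFinset]; rfl
  have hgap : ∀ ρ : ℂ, FF ρ = 0 → lam ≤ x0 - ρ.re := by
    intro ρ hρ
    by_contra hc
    push Not at hc
    exact FF_ne_of_free hfree (w := ρ) (by rw [hx0] at hc; linarith) hρ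
  set f : ℂ × ℂ → ℝ := fun p => ((x0 - p.2.re) ^ 2 + p.2.im ^ 2 - (x0 - p.1.re) ^ 2 - p.1.im ^ 2) /
    (2 * (p.2.im - p.1.im)) with hf
  have hT : ((S ×ˢ S).image f : Finset ℝ).finite_toSet = ((S ×ˢ S).image f : Finset ℝ).finite_toSet := rfl
  have hinf : (Ioo (ρ0.im - η) (ρ0.im + η)).Infinite := Ioo_infinite (by linarith)
  obtain ⟨τ, hτ1, hτ2⟩ := (hinf.diff ((S ×ˢ S).image f).finite_toSet).nonempty
  have hnorm : ∀ ρ : ℂ, ‖(⟨x0, τ⟩ : ℂ) - ρ‖ ^ 2 = (x0 - ρ.re) ^ 2 + (τ - ρ.im) ^ 2 := by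
    intro ρ
    rw [Complex.sq_norm, Complex.normSq_apply]
    simp
    ring
  have hρ0S : ρ0 ∈ S := by
    rw [hmem]
    refine ⟨hFρ0, ?_⟩
    rw [hK, Metric.mem_closedBall, dist_eq_norm]
    have h1 := Complex.norm_le_abs_re_add_abs_im (ρ0 - c0)
    have h2 : (ρ0 - c0).im = 0 := by rw [hc0]; simp
    have h3 : (ρ0 - c0).re = ρ0.re - x0 := by rw [hc0]; simp
    rw [h2, h3, abs_zero, add_zero] at h1
    refine h1.trans ?_
    rw [abs_le]
    constructor
    · rw [hx0]; linarith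
    · rw [hx0]; linarith
  obtain ⟨ρ, hρS, hρmin⟩ := Finset.exists_min_image S (fun ρ => ‖(⟨x0, τ⟩ : ℂ) - ρ‖) ⟨ρ0, hρ0S⟩
  have hρF := ((hmem ρ).1 hρS).1
  set w1 : ℂ := ⟨x0, τ⟩ with hw1
  have hDle : ‖w1 - ρ‖ ≤ lam + 3 * η := by
    refine (hρmin ρ0 hρ0S).trans ?_
    have h1 := Complex.norm_le_abs_re_add_abs_im (w1 - ρ0)
    have h2 : (w1 - ρ0).im = τ - ρ0.im := by rw [hw1]; simp
    have h3 : (w1 - ρ0).re = x0 - ρ0.re := by rw [hw1]; simp
    rw [h2, h3] at h1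
    have h4 : |τ - ρ0.im| ≤ η := by
      rw [abs_le]; constructor <;> linarith [hτ1.1, hτ1.2]
    have h5 : |x0 - ρ0.re| ≤ lam + 2 * η := by
      rw [abs_le]
      constructor
      · rw [hx0]; linarith
      · rw [hx0]; linarith
    linarith
  have hDpos : 0 < ‖w1 - ρ‖ := by
    rw [norm_pos_iff, sub_ne_zero]
    intro h
    have h1 := hgap ρ hρF
    rw [← h, hw1] at h1
    simp at h1
    linarith
  have huniq : ∀ ρ' ∈ S, ρ' ≠ ρ → ‖w1 - ρ‖ < ‖w1 - ρ'‖ := by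
    intro ρ' hρ' hne
    refine lt_of_le_of_ne (hρmin ρ' hρ') ?_
    intro heq
    have h1 : (x0 - ρ.re) ^ 2 + (τ - ρ.im) ^ 2 = (x0 - ρ'.re) ^ 2 + (τ - ρ'.im) ^ 2 := by
      rw [← hnorm, ← hnorm, heq]
    have g1 := hgap ρ hρF
    have g2 := hgap ρ' ((hmem ρ').1 hρ').1
    by_cases him : ρ'.im = ρ.im
    · apply hne
      apply Complex.ext _ him
      rw [him] at h1
      have h2 : (x0 - ρ.re) ^ 2 = (x0 - ρ'.re) ^ 2 := by linarith
      have h3 : x0 - ρ.re = x0 - ρ'.re :=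
        (pow_left_inj₀ (by linarith) (by linarith) (two_ne_zero)).1 h2
      linarith
    · apply hτ2
      rw [Finset.coe_image, Set.mem_image]
      refine ⟨(ρ, ρ'), by rw [Finset.mem_coe, Finset.mem_product]; exact ⟨hρS, hρ'⟩, ?_⟩
      rw [hf]
      simp only
      have h4 : ρ'.im - ρ.im ≠ 0 := sub_ne_zero.2 him
      rw [div_eq_iff (by positivity)]
      linarith
  have hev : ∀ᶠ R : ℝ in 𝓝[>] ‖w1 - ρ‖, ∀ ρ' ∈ S, ρ' ≠ ρ → R < ‖w1 - ρ'‖ := by
    have hSf : ((S : Set ℂ)).Finite := S.finite_toSet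
    have : ∀ᶠ R : ℝ in 𝓝[>] ‖w1 - ρ‖, ∀ ρ' ∈ (S : Set ℂ), ρ' ≠ ρ → R < ‖w1 - ρ'‖ := by
      rw [hSf.eventually_all]
      intro ρ' hρ'
      by_cases hne : ρ' = ρ
      · exact Eventually.of_forall fun R h => absurd hne h
      · have := huniq ρ' hρ' hne
        exact ((eventually_lt_nhds this).filter_mono nhdsWithin_le_nhds).mono fun R hR _ => hR
    exact this
  have hlt4 : ‖w1 - ρ‖ < 1 / 4 := by linarith
  obtain ⟨R, hR1, hR2⟩ := (hev.and (Ioo_mem_nhdsGT hlt4)).exists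
  refine ⟨w1, ρ, R, ‖w1 - ρ‖, rfl, hρF, ?_, rfl, hR2.1, hDpos, hDle, ?_, ?_⟩
  · rintro rfl
    have h1 : w1.re ≤ ‖w1 - 0‖ := by
      rw [sub_zero]; exact Complex.re_le_norm w1
    have h2 : w1.re = x0 := rfl
    rw [h2, hx0] at h1
    linarith
  · intro w hw hFw
    by_contra hne
    have hwK : w ∈ K := by
      rw [hK, Metric.mem_closedBall]
      have h1 : dist w w1 < R := hw
      have h2 : dist w1 c0 ≤ η := by
        rw [dist_eq_norm]
        have h1 := Complex.norm_le_abs_re_add_abs_im (w1 - c0)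
        have h2 : (w1 - c0).im = τ - ρ0.im := by rw [hw1, hc0]; simp
        have h3 : (w1 - c0).re = 0 := by rw [hw1, hc0]; simp
        rw [h2, h3, abs_zero, zero_add] at h1
        refine h1.trans ?_
        rw [abs_le]; constructor <;> linarith [hτ1.1, hτ1.2]
      have h3 := dist_triangle w w1 c0
      linarith [hR2.2]
    have h3 := hR1 w ((hmem w).2 ⟨hFw, hwK⟩) hne
    rw [Metric.mem_ball, dist_comm, dist_eq_norm] at hw
    linarith
  · rw [Metric.mem_ball, dist_comm, dist_eq_norm, sub_zero, not_lt]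
    have h1 : w1.re ≤ ‖w1‖ := Complex.re_le_norm w1
    have h2 : w1.re = x0 := rfl
    rw [h2, hx0] at h1
    linarith [hR2.2]

/-- local oscillation -/
theorem osc_main {A b ε : ℝ} (hA0 : 0 ≤ A) (hA1 : A ≤ 1 / 2)
    (hfree : ∀ s : ℂ, 1 - A < s.re → riemannZeta s ≠ 0)
    (hzero : ∀ δ > 0, ∃ ρ : ℂ, riemannZeta ρ = 0 ∧ 1 - A - δ < ρ.re) (hb : A < b)
    (hε : 0 < ε) (hε1 : ε < 1) :
    ∃ U0 : ℝ, ∀ U : ℝ, U0 ≤ U → ∃ u : ℝ, (1 - ε) * U ≤ u ∧ u ≤ U ∧
      Real.exp (-(b * u)) < kk u := by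
  set x := ε / 2 with hx
  have hx0 : 0 < x := by rw [hx]; linarith
  have hx1 : x < 1 / 2 := by rw [hx]; linarith
  have hE0 := EE_pos hx0 hx1
  have hE1 := EE_lt hx0 hx1
  obtain ⟨R0, hR0, hstrip⟩ := strip
  set δ1 := (1 - EE x) / 2 with hδ1
  have hδ0 : 0 < δ1 := by rw [hδ1]; linarith
  have hδ2 : δ1 < 1 / 2 := by rw [hδ1]; linarith
  set lam := min (min R0 (1 / 4)) (b - A) / 8 with hlam
  have hlam0 : 0 < lam := by
    rw [hlam]
    have : 0 < b - A := by linarith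
    positivity
  have hl1 : 8 * lam ≤ R0 := by
    rw [hlam]
    have := (min_le_left (min R0 (1 / 4)) (b - A)).trans (min_le_left R0 (1 / 4))
    linarith
  have hl2 : 8 * lam ≤ 1 / 4 := by
    rw [hlam]
    have := (min_le_left (min R0 (1 / 4)) (b - A)).trans (min_le_right R0 (1 / 4))
    linarith
  have hl3 : 8 * lam ≤ b - A := by
    rw [hlam]
    have := (min_le_right (min R0 (1 / 4)) (b - A))
    linarith
  clear_value lam
  set η := δ1 * lam / 4 with hη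
  have hη0 : 0 < η := by rw [hη]; positivity
  have hη1 : 4 * η < lam := by
    rw [hη]
    have : δ1 * lam < 1 * lam := mul_lt_mul_of_pos_right (by linarith) hlam0
    linarith
  set α := max (A - η) 0 with hα
  have hα0 : 0 ≤ α := le_max_right _ _
  have hα1 : A - η ≤ α := le_max_left _ _
  have hαA : α ≤ A := max_le (by linarith) hA0
  obtain ⟨C, hPD⟩ : ∃ C, PD α C := by
    rcases hA0.eq_or_lt with h0 | h0
    · have : α = 0 := by
        rw [hα]; apply max_eq_right; linarith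
      rw [this]
      exact PD_zero
    · have : α < A := by
        rw [hα]; exact max_lt (by linarith) h0
      exact PD_pos hA1 hα0 this hfree
  clear_value α
  obtain ⟨w1, ρ, R, D, hw1, hρ, hρ0, hD, hDR, hD0, hDle, hball, h0ball⟩ :=
    choose_point hA1 hαA hα0 hα1 hlam0 (by linarith) hη0 hη1 hfree hzero
  have hz : ∀ w : ℂ, 1 - α < w.re → FF w ≠ 0 := fun w hw =>
    FF_ne_of_free hfree (by linarith)
  obtain ⟨C', hk⟩ := hPD.kk_LD
  have h3η : 3 * η < lam := by linarith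
  have key := local_osc (b := b) (x := x) (D := D) (r := 2 * lam) (lam := lam) (s1 := w1 - 1) hk hlam0
    (by simp [hw1]; ring) hx0 hx1 hD0 (by linarith) (by linarith)
    (by
      have h1 : D * EE x ≤ (lam + 3 * η) * EE x := by gcongr
      have h2 : 3 * η = 3 / 4 * δ1 * lam := by rw [hη]; ring
      have h3 : (lam + 3 * η) * EE x = lam * ((1 + 3 / 4 * δ1) * EE x) := by rw [h2]; ring
      have h4 : (1 + 3 / 4 * δ1) * EE x < 1 := by
        rw [hδ1]
        nlinarith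
      have h5 : lam * ((1 + 3 / 4 * δ1) * EE x) < lam * 1 := mul_lt_mul_of_pos_left h4 hlam0
      linarith)
    (small_kk hPD hz (r := 2 * lam) (r' := 3 * lam) (by linarith) (by linarith) (by linarith)
      (by
        intro s hs
        rw [Metric.mem_ball, dist_eq_norm] at hs
        have h1 := Complex.abs_re_le_norm (s - ((-α + lam : ℝ) : ℂ))
        have h2 := Complex.abs_im_le_norm (s - ((-α + lam : ℝ) : ℂ))
        rw [Complex.sub_re, Complex.ofReal_re] at h1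
        rw [Complex.sub_im, Complex.ofReal_im, sub_zero] at h2
        have h3 : |s.re - (-α + lam)| < 3 * lam := by linarith
        have h4 : |s.im| < 3 * lam := by linarith
        rw [abs_lt] at h3
        have h5 : (1 + s).re = 1 + s.re := by simp
        have h6 : (1 + s).im = s.im := by simp
        have h7 : 1 / 4 ≤ (1 + s).re := by rw [h5]; linarith
        refine ⟨?_, hstrip _ h7 (by rw [h5]; linarith) (by rw [h6]; linarith)⟩
        intro h8
        rw [h8] at h7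
        simp at h7
        linarith))
    (by
      obtain ⟨c, hc, m0, hm⟩ := large_dl hPD hz (by rw [hw1]; linarith) hρ hρ0 hD hDR hball h0ball
      refine ⟨c, hc, ‖cexp (-((w1 - 1) * Real.log 2))‖ * |J0|, m0, fun m hm' => ?_⟩
      refine (hm m hm').trans (hPD.norm_dl_le m ?_)
      show -α < (w1 - 1).re
      simp [hw1]
      linarith)
  obtain ⟨U0, hU⟩ := key
  refine ⟨U0, fun U hUU => ?_⟩
  obtain ⟨u, hu1, hu2, hu3⟩ := hU U hUU
  refine ⟨u, ?_, hu2, hu3⟩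
  have : 2 * x = ε := by rw [hx]; ring
  rwa [this] at hu1

end

end Pool.Agent.V11272.RB
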