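import Pool.Agent.V11272.RB.LowerS
import Pool.Agent.V11272.RB.Loc

set_option autoImplicit false

/-! The lower bounds with exponents. -/

namespace Pool.Agent.V11272.RB

open Filter Topology Set MeasureTheory

noncomputable section

/-- primes are well distributed on the scale `y ^ ((1 + Θ) / 2)` -/
lemma theta_close {Θ : ℝ} (h0 : 1 / 2 ≤ Θ) (h1 : Θ ≤ 1)
    (hfree : ∀ s : ℂ, Θ < s.re → riemannZeta s ≠ 0) :
    ∀ᶠ y : ℝ in atTop, ∀ t : ℝ, y / 2 ≤ t → t ≤ y →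
      |Chebyshev.theta t - t| ≤ y ^ ((1 + Θ) / 2) / 16 := by
  obtain ⟨C3, hC3⟩ := Chebyshev.psi_sub_theta_le_mul_sqrt
  have hC30 : 0 ≤ C3 := by
    have h1 := hC3 1
    have h2 := Chebyshev.theta_le_psi 1
    simp at h1
    linarith
  rcases h1.eq_or_lt with h1 | h1
  · subst h1
    obtain ⟨C, hC, h⟩ := psi_logpow 1 le_rfl
    have e1 : ((1 : ℝ) + 1) / 2 = 1 := by norm_num
    have h2 : ∀ᶠ y : ℝ in atTop, 32 * C ≤ Real.log (y / 2) :=
      (Real.tendsto_log_atTop.comp (tendsto_id.atTop_div_const (by norm_num : (0:ℝ) < 2))).eventually_ge_atTop _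
    have h3 : ∀ᶠ y : ℝ in atTop, 32 * C3 ≤ √y := Real.tendsto_sqrt_atTop.eventually_ge_atTop _
    filter_upwards [h2, h3, eventually_ge_atTop (6 : ℝ)] with y hy1 hy2 hy3 t ht1 ht2
    rw [e1, Real.rpow_one]
    have ht0 : 0 < t := by linarith
    have hs := Real.mul_self_sqrt (show 0 ≤ y by linarith)
    have hsy : 0 < √y := Real.sqrt_pos.2 (by linarith)
    have hlog : 0 < Real.log t := Real.log_pos (by linarith)
    have hlog2 : Real.log (y / 2) ≤ Real.log t := Real.log_le_log (by linarith) ht1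
    have a1 : |Chebyshev.psi t - t| ≤ y / 32 := by
      have h4 := h t (by linarith)
      rw [pow_one] at h4
      refine h4.trans ?_
      rw [← mul_div_assoc, div_le_iff₀ hlog]
      calc C * t ≤ C * y := by gcongr
        _ = y / 32 * (32 * C) := by ring
        _ ≤ y / 32 * Real.log t := by
          have : 0 ≤ y / 32 := by linarith
          gcongr
          linarith
    have a2 : Chebyshev.psi t - Chebyshev.theta t ≤ y / 32 := by
      refine (hC3 t).trans ?_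
      calc C3 * √t ≤ C3 * √y := by gcongr
        _ ≤ y / 32 := by nlinarith
    have a3 := Chebyshev.theta_le_psi t
    rw [abs_le] at a1 ⊢
    constructor <;> linarith [a1.1, a1.2]
  · set θ' := (1 + 3 * Θ) / 4 with hθ'
    set g := (1 + Θ) / 2 with hg
    obtain ⟨C, hC, h⟩ := Pool.Agent.W190.psi_of_free Θ h0 hfree θ' (by rw [hθ']; linarith)
      (by rw [hθ']; linarith)
    have hgθ : 0 < g - θ' := by rw [hg, hθ']; linarith
    have h2 : ∀ᶠ y : ℝ in atTop, 16 * (C + C3) ≤ y ^ (g - θ') :=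
      (tendsto_rpow_atTop hgθ).eventually_ge_atTop _
    filter_upwards [h2, eventually_ge_atTop (6 : ℝ)] with y hy1 hy3 t ht1 ht2
    have ht0 : 0 < t := by linarith
    have hy0 : 0 < y := by linarith
    have h4 := h t (by linarith)
    have hθ'0 : 1 / 2 ≤ θ' := by rw [hθ']; linarith
    have h5 : t ^ θ' ≤ y ^ θ' := Real.rpow_le_rpow ht0.le ht2 (by linarith)
    have h6 : √t ≤ y ^ θ' := by
      refine le_trans ?_ h5
      rw [Real.sqrt_eq_rpow]
      exact Real.rpow_le_rpow_of_exponent_le (by linarith) hθ'0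
    have h7 : (C + C3) * y ^ θ' ≤ y ^ g / 16 := by
      have h8 : y ^ g = y ^ (g - θ') * y ^ θ' := by
        rw [← Real.rpow_add hy0]; congr 1; ring
      rw [h8]
      have h9 : 0 ≤ y ^ θ' := by positivity
      nlinarith
    have a1 : |Chebyshev.psi t - t| ≤ C * y ^ θ' := h4.trans (by gcongr)
    have a2 : Chebyshev.psi t - Chebyshev.theta t ≤ C3 * y ^ θ' := (hC3 t).trans (by gcongr)
    have a3 := Chebyshev.theta_le_psi t
    rw [abs_le] at a1 ⊢
    have h10 : 0 ≤ C3 * y ^ θ' := by positivity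
    have h11 : 0 ≤ C * y ^ θ' := by positivity
    constructor <;> nlinarith [a1.1, a1.2]

lemma short_primes {Θ : ℝ} (h0 : 1 / 2 ≤ Θ) (h1 : Θ ≤ 1)
    (hfree : ∀ s : ℂ, Θ < s.re → riemannZeta s ≠ 0) :
    ∀ᶠ y : ℝ in atTop, y ^ ((1 + Θ) / 2) / 4 ≤ Real.log y *
      (((Finset.Ioc ⌊y - y ^ ((1 + Θ) / 2) / 2⌋₊ ⌊y⌋₊).filter Nat.Prime).card : ℝ) := by
  set g := (1 + Θ) / 2 with hg
  filter_upwards [theta_close h0 h1 hfree, eventually_ge_atTop (6 : ℝ)] with y hy hy6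
  rw [← hg] at hy
  have hy0 : 0 < y := by linarith
  have hgy : y ^ g ≤ y := by
    calc y ^ g ≤ y ^ (1 : ℝ) := Real.rpow_le_rpow_of_exponent_le (by linarith) (by rw [hg]; linarith)
      _ = y := Real.rpow_one y
  have hg0 : 0 < y ^ g := by positivity
  set z := y ^ g / 2 with hz
  have a1 := hy y (by linarith) le_rfl
  have a2 := hy (y - z) (by linarith) (by linarith)
  rw [abs_le] at a1 a2
  have h2 : Chebyshev.theta y - Chebyshev.theta (y - z) =
      ∑ p ∈ (Finset.Ioc ⌊y - z⌋₊ ⌊y⌋₊).filter Nat.Prime, Real.log p := by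
    have h1 : PL y = PL (y - z) ∪ (Finset.Ioc ⌊y - z⌋₊ ⌊y⌋₊).filter Nat.Prime := by
      unfold PL
      rw [← Finset.filter_union, Finset.Ioc_union_Ioc_eq_Ioc (Nat.zero_le _)
        (Nat.floor_le_floor (by linarith))]
    have h2 : Disjoint (PL (y - z)) ((Finset.Ioc ⌊y - z⌋₊ ⌊y⌋₊).filter Nat.Prime) := by
      unfold PL
      refine Finset.disjoint_filter_filter ?_
      rw [Finset.disjoint_left]
      intro a ha hb
      rw [Finset.mem_Ioc] at ha hb
      omega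
    rw [theta_eq, theta_eq, h1, Finset.sum_union h2]
    ring
  have h3 : ∑ p ∈ (Finset.Ioc ⌊y - z⌋₊ ⌊y⌋₊).filter Nat.Prime, Real.log p ≤
      Real.log y * (((Finset.Ioc ⌊y - z⌋₊ ⌊y⌋₊).filter Nat.Prime).card : ℝ) := by
    calc _ ≤ ∑ p ∈ (Finset.Ioc ⌊y - z⌋₊ ⌊y⌋₊).filter Nat.Prime, Real.log y := by
          refine Finset.sum_le_sum fun p hp => ?_
          rw [Finset.mem_filter, Finset.mem_Ioc] at hp
          have hp0 : (0 : ℝ) < p := by exact_mod_cast hp.2.pos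
          exact Real.log_le_log hp0 ((Nat.le_floor_iff hy0.le).1 hp.1.2)
      _ = _ := by rw [Finset.sum_const, nsmul_eq_mul]; ring
  refine le_trans ?_ h3
  rw [← h2]
  linarith [a1.1, a2.2]

/-- the parameters -/
lemma params {Θ δ : ℝ} (h0 : 1 / 2 ≤ Θ) (h1 : Θ ≤ 1) (hδ : 0 < δ) (hδ1 : δ ≤ 1 / 4)
    (hfree : ∀ s : ℂ, Θ < s.re → riemannZeta s ≠ 0) :
    ∀ᶠ y : ℝ in atTop, ∃ (z : ℝ) (k : ℕ), 8 ≤ y ∧ 1 ≤ z ∧ z ≤ y / 2 ∧
      k ≤ ((Finset.Ioc ⌊y - z⌋₊ ⌊y⌋₊).filter Nat.Prime).card ∧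
      k * (10 * z / y ^ 2) ≤ y ^ (-(1 - Θ + δ)) / 8 ∧
      Real.exp (y ^ ((1 + Θ) / 2 - δ) / 160) ≤ (2 : ℝ) ^ k := by
  set g := (1 + Θ) / 2 with hg
  have hg1 : 3 / 4 ≤ g := by rw [hg]; linarith
  have hg2 : g ≤ 1 := by rw [hg]; linarith
  have e1 : ∀ᶠ y : ℝ in atTop, Real.log y ≤ 10 * y ^ δ := by
    have h2 := (isLittleO_log_rpow_atTop (r := δ) hδ).bound (c := 10) (by norm_num)
    filter_upwards [h2, eventually_ge_atTop (1 : ℝ)] with y hy hy1
    rwa [Real.norm_of_nonneg (Real.log_nonneg hy1), Real.norm_of_nonneg (by positivity)] at hy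
  have e2 : ∀ᶠ y : ℝ in atTop, 80 ≤ y ^ (g - δ) :=
    (tendsto_rpow_atTop (by linarith)).eventually_ge_atTop _
  filter_upwards [short_primes h0 h1 hfree, e1, e2, eventually_ge_atTop (16 : ℝ)] with y hy1 hy2 hy3 hy4
  rw [← hg] at hy1
  have hy0 : 0 < y := by linarith
  have hly : 0 < Real.log y := Real.log_pos (by linarith)
  have hgy : y ^ g ≤ y := by
    calc y ^ g ≤ y ^ (1 : ℝ) := Real.rpow_le_rpow_of_exponent_le (by linarith) hg2
      _ = y := Real.rpow_one y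
  have hgδ : y ^ (g - δ) ≤ y ^ g := Real.rpow_le_rpow_of_exponent_le (by linarith) (by linarith)
  set k := ⌊y ^ (g - δ) / 40⌋₊ with hk
  have hk1 : (k : ℝ) ≤ y ^ (g - δ) / 40 := Nat.floor_le (by positivity)
  have hk2 : y ^ (g - δ) / 80 ≤ k := by
    have := Nat.lt_floor_add_one (y ^ (g - δ) / 40)
    rw [← hk] at this
    linarith
  refine ⟨y ^ g / 2, k, by linarith, by linarith, by linarith, ?_, ?_, ?_⟩
  · have h2 : (k : ℝ) ≤ (((Finset.Ioc ⌊y - y ^ g / 2⌋₊ ⌊y⌋₊).filter Nat.Prime).card : ℝ) := by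
      have h3 : y ^ g = y ^ (g - δ) * y ^ δ := by
        rw [← Real.rpow_add hy0]; congr 1; ring
      have h4 : Real.log y * (y ^ (g - δ) / 40) ≤ y ^ g / 4 := by
        rw [h3]
        have : 0 ≤ y ^ (g - δ) := by positivity
        nlinarith
      have h5 : Real.log y * (k : ℝ) ≤ Real.log y *
          (((Finset.Ioc ⌊y - y ^ g / 2⌋₊ ⌊y⌋₊).filter Nat.Prime).card : ℝ) := by
        calc Real.log y * (k : ℝ) ≤ Real.log y * (y ^ (g - δ) / 40) := by gcongr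
          _ ≤ _ := h4.trans hy1
      exact le_of_mul_le_mul_left h5 hly
    exact_mod_cast h2
  · have h3 : y ^ (-(1 - Θ + δ)) = y ^ (g - δ) * y ^ g / y ^ 2 := by
      rw [← Real.rpow_add hy0, ← Real.rpow_natCast y 2, ← Real.rpow_sub hy0]
      congr 1
      rw [hg]; push_cast; ring
    rw [h3]
    calc (k : ℝ) * (10 * (y ^ g / 2) / y ^ 2) ≤ (y ^ (g - δ) / 40) * (10 * (y ^ g / 2) / y ^ 2) := by
          gcongr
      _ = _ := by ring
  · have h2 : (2 : ℝ) ^ k = Real.exp (k * Real.log 2) := by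
      rw [mul_comm, Real.exp_mul, Real.exp_log (by norm_num), Real.rpow_natCast]
    rw [h2, Real.exp_le_exp]
    have h3 := Real.log_two_gt_d9
    have h4 : (0 : ℝ) ≤ k := Nat.cast_nonneg k
    nlinarith

/-- general lower bound -/
lemma lower_gen {Θ δ ε β : ℝ} (h0 : 1 / 2 ≤ Θ) (h1 : Θ ≤ 1) (hδ : 0 < δ) (hδ1 : δ ≤ 1 / 4)
    (hε : 4 * δ ≤ ε) (hβ : 1 - Θ + δ < β)
    (hfree : ∀ s : ℂ, Θ < s.re → riemannZeta s ≠ 0)
    (hzero : ∀ δ > 0, ∃ ρ : ℂ, riemannZeta ρ = 0 ∧ Θ - δ < ρ.re) (G : ℝ → ℝ) {C : ℝ}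
    (hG : ∀ {y z x : ℝ} {k : ℕ}, 8 ≤ y → 1 ≤ z → z ≤ y / 2 →
      k ≤ ((Finset.Ioc ⌊y - z⌋₊ ⌊y⌋₊).filter Nat.Prime).card → 0 < x →
      Chebyshev.psi y ≤ Real.log x →
      C * y ^ (-β) + k * (10 * z / y ^ 2) ≤ kk (Real.log y) → (2 : ℝ) ^ k ≤ G x) :
    ∀ᶠ x : ℝ in atTop, Real.exp ((Real.log x) ^ ((1 + Θ) / 2 - ε)) ≤ G x := by
  set g := (1 + Θ) / 2 with hg
  have hg1 : 3 / 4 ≤ g := by rw [hg]; linarith
  have hg2 : g ≤ 1 := by rw [hg]; linarith
  have hε0 : 0 < ε := by linarith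
  obtain ⟨U0, hU⟩ := osc_main (A := 1 - Θ) (b := 1 - Θ + δ) (ε := δ) (by linarith) (by linarith)
    (by intro s hs; exact hfree s (by linarith))
    (by intro d hd; obtain ⟨ρ, h1, h2⟩ := hzero d hd; exact ⟨ρ, h1, by linarith⟩)
    (by linarith) hδ (by linarith)
  have e1 : ∀ᶠ y : ℝ in atTop, C * y ^ (-β) ≤ y ^ (-(1 - Θ + δ)) / 2 := by
    have hpos : 0 < β - (1 - Θ + δ) := by linarith
    filter_upwards [(tendsto_rpow_atTop hpos).eventually_ge_atTop (2 * C), eventually_ge_atTop (1 : ℝ)]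
      with y hy hy1
    have hy0 : 0 < y := by linarith
    have h3 : y ^ (-(1 - Θ + δ)) = y ^ (β - (1 - Θ + δ)) * y ^ (-β) := by
      rw [← Real.rpow_add hy0]; congr 1; ring
    rw [h3]
    have : 0 ≤ y ^ (-β) := by positivity
    nlinarith
  obtain ⟨Y0, hY0⟩ := eventually_atTop.1 ((params h0 h1 hδ hδ1 hfree).and e1)
  -- the variable `L`
  have t1 : Tendsto (fun L : ℝ => Real.log (L / 6)) atTop atTop :=
    Real.tendsto_log_atTop.comp (tendsto_id.atTop_div_const (by norm_num : (0:ℝ) < 6))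
  have t2 : Tendsto (fun L : ℝ => Real.exp ((1 - δ) * Real.log (L / 6))) atTop atTop :=
    Real.tendsto_exp_atTop.comp (t1.const_mul_atTop (by linarith))
  have hexp : g - ε < (1 - δ) * (g - δ) := by nlinarith
  have t3 : ∀ᶠ L : ℝ in atTop, L ^ (g - ε) ≤ (L / 6) ^ ((1 - δ) * (g - δ)) / 160 := by
    have hpos : 0 < (1 - δ) * (g - δ) - (g - ε) := by linarith
    filter_upwards [(tendsto_rpow_atTop hpos).eventually_ge_atTop
      (160 * 6 ^ ((1 - δ) * (g - δ))), eventually_ge_atTop (1 : ℝ)] with L hL hL1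
    have hL0 : 0 < L := by linarith
    rw [Real.div_rpow hL0.le (by norm_num)]
    have h6 : (0 : ℝ) < 6 ^ ((1 - δ) * (g - δ)) := by positivity
    rw [div_div, le_div_iff₀ (by positivity)]
    have h3 : L ^ ((1 - δ) * (g - δ)) = L ^ (g - ε) * L ^ ((1 - δ) * (g - δ) - (g - ε)) := by
      rw [← Real.rpow_add hL0]; congr 1; ring
    rw [h3]
    have h4 : 0 < L ^ (g - ε) := by positivity
    calc L ^ (g - ε) * (6 ^ ((1 - δ) * (g - δ)) * 160) =
          L ^ (g - ε) * (160 * 6 ^ ((1 - δ) * (g - δ))) := by ring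
      _ ≤ _ := by gcongr
  have hL : ∀ᶠ L : ℝ in atTop, ∀ x : ℝ, 0 < x → L = Real.log x → Real.exp (L ^ (g - ε)) ≤ G x := by
    filter_upwards [t1.eventually_ge_atTop U0, t2.eventually_ge_atTop Y0, t3,
      eventually_ge_atTop (7 : ℝ)] with L hL1 hL2 hL3 hL4 x hx0 hLx
    obtain ⟨u, hu1, hu2, hu3⟩ := hU _ hL1
    have hL6 : 0 < L / 6 := by positivity
    set y := Real.exp u with hy
    have hyY : Y0 ≤ y := hL2.trans (Real.exp_le_exp.2 hu1)
    obtain ⟨⟨z, k, p1, p2, p3, p4, p5, p6⟩, p7⟩ := hY0 y hyY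
    have hlogy : Real.log y = u := Real.log_exp u
    have hyL : y ≤ L / 6 := by
      rw [hy, ← Real.exp_log hL6]
      exact Real.exp_le_exp.2 hu2
    have hpsi : Chebyshev.psi y ≤ Real.log x := by
      rw [← hLx]
      have h2 := Chebyshev.psi_le_const_mul_self (x := y) (by linarith)
      have h3 : Real.log 4 ≤ 2 := by
        rw [show (4 : ℝ) = 2 ^ 2 by norm_num, Real.log_pow]
        have := Real.log_two_lt_d9
        push_cast; linarith
      nlinarith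
    have hkk : y ^ (-(1 - Θ + δ)) < kk (Real.log y) := by
      rw [hlogy]
      refine lt_of_eq_of_lt ?_ hu3
      rw [hy, ← Real.exp_mul]
      congr 1
      ring
    have hpos : 0 < y ^ (-(1 - Θ + δ)) := by
      have : 0 < y := Real.exp_pos u
      positivity
    have h2 := hG (y := y) (z := z) (x := x) (k := k) p1 p2 p3 p4 hx0 hpsi (by linarith)
    refine le_trans ?_ (p6.trans h2)
    rw [Real.exp_le_exp]
    refine hL3.trans ?_
    have h3 : (L / 6) ^ ((1 - δ) * (g - δ)) ≤ y ^ (g - δ) := by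
      rw [Real.rpow_mul hL6.le]
      refine Real.rpow_le_rpow (by positivity) ?_ (by linarith)
      rw [Real.rpow_def_of_pos hL6, hy, Real.exp_le_exp]
      linarith
    linarith
  filter_upwards [Real.tendsto_log_atTop.eventually hL, eventually_gt_atTop (0 : ℝ)] with x hx hx0
  exact hx x hx0 rfl

/-- lower bound for the totient exceptions -/
theorem lower_FC {Θ ε : ℝ} (h0 : 1 / 2 ≤ Θ) (h1 : Θ ≤ 1) (hε : 0 < ε)
    (hfree : ∀ s : ℂ, Θ < s.re → riemannZeta s ≠ 0)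
    (hzero : ∀ δ > 0, ∃ ρ : ℂ, riemannZeta ρ = 0 ∧ Θ - δ < ρ.re) :
    ∀ᶠ x : ℝ in atTop, Real.exp ((Real.log x) ^ ((1 + Θ) / 2 - ε)) ≤ FC x := by
  refine lower_gen (δ := min (ε / 4) (1 / 4)) (β := 1) (C := 2) h0 h1 (by positivity)
    (min_le_right _ _) (by have := min_le_left (ε / 4) (1 / 4 : ℝ); linarith)
    (by have := min_le_right (ε / 4) (1 / 4 : ℝ); linarith) hfree hzero FC ?_
  intro y z x k a1 a2 a3 a4 a5 a6 a7
  refine lower_phi a1 a2 a3 a4 a5 ((Chebyshev.theta_le_psi y).trans a6) ?_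
  have : 2 / y = 2 * y ^ (-(1 : ℝ)) := by
    rw [Real.rpow_neg_one]; ring
  rw [this]
  exact a7

/-- lower bound for the sum of divisors exceptions -/
theorem lower_EC {Θ ε : ℝ} (h0 : 1 / 2 < Θ) (h1 : Θ ≤ 1) (hε : 0 < ε)
    (hfree : ∀ s : ℂ, Θ < s.re → riemannZeta s ≠ 0)
    (hzero : ∀ δ > 0, ∃ ρ : ℂ, riemannZeta ρ = 0 ∧ Θ - δ < ρ.re) :
    ∀ᶠ x : ℝ in atTop, Real.exp ((Real.log x) ^ ((1 + Θ) / 2 - ε)) ≤ EC x := by
  obtain ⟨C, hC, h⟩ := lower_sigma
  have hδ0 : 0 < min (min (ε / 4) (1 / 4)) ((Θ - 1 / 2) / 2) := by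
    have : 0 < Θ - 1 / 2 := by linarith
    positivity
  have m1 := min_le_left (min (ε / 4) (1 / 4)) ((Θ - 1 / 2) / 2)
  have m2 := min_le_right (min (ε / 4) (1 / 4)) ((Θ - 1 / 2) / 2)
  have m3 := min_le_left (ε / 4) (1 / 4 : ℝ)
  have m4 := min_le_right (ε / 4) (1 / 4 : ℝ)
  refine lower_gen (δ := min (min (ε / 4) (1 / 4)) ((Θ - 1 / 2) / 2)) (β := 1 / 2) (C := C) h0.le h1 hδ0
    (by linarith) (by linarith) (by linarith) hfree hzero EC ?_
  intro y z x k a1 a2 a3 a4 a5 a6 a7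
  refine h a1 a2 a3 a4 a5 a6 ?_
  have : C / √y = C * y ^ (-(1 / 2 : ℝ)) := by
    rw [Real.rpow_neg (by linarith), Real.sqrt_eq_rpow]; ring
  rw [this]
  exact a7

end

end Pool.Agent.V11272.RB
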