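import Pool.Agent.V11272.RB.Ext
import Pool.Agent.W762.EC.PntA

set_option autoImplicit false

/-! Inputs: the prime number theorem, the zero-free strip. -/

namespace Pool.Agent.V11272.RB

open Complex Filter Topology MeasureTheory Set
open H353 (FF)

noncomputable section

/-- Chebyshev -/
lemma psi_cheb : ∃ c : ℝ, 0 < c ∧ ∀ y : ℝ, 0 ≤ y → |Chebyshev.psi y - y| ≤ c * y := by
  refine ⟨Real.log 4 + 4 + 1, ?_, fun y hy => ?_⟩
  · have : 0 < Real.log 4 := Real.log_pos (by norm_num)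
    linarith
  · have h1 := Chebyshev.psi_le_const_mul_self hy
    have h2 := Chebyshev.psi_nonneg y
    have : 0 < Real.log 4 := Real.log_pos (by norm_num)
    rw [abs_le]
    constructor <;> nlinarith

/-- the prime number theorem with a power of the logarithm -/
theorem psi_logpow (K : ℕ) (hK : 1 ≤ K) : ∃ C : ℝ, 0 < C ∧ ∀ y : ℝ, 2 ≤ y →
    |Chebyshev.psi y - y| ≤ C * (y / Real.log y ^ K) := by
  obtain ⟨N₁, h⟩ := Pool.Agent.W762.EC.PntA.large K hK
  obtain ⟨c0, hc0, hc⟩ := psi_cheb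
  set c : ℝ := 35 + 16 * 8 ^ K with hcdef
  have hcpos : 0 < c := by positivity
  set Y : ℝ := max 4 ((N₁ : ℝ) + 1) with hY
  have hY4 : 4 ≤ Y := le_max_left _ _
  have hlY : 0 < Real.log Y := Real.log_pos (by linarith)
  refine ⟨c * 2 ^ K + K.factorial + c0 * Real.log Y ^ K, by positivity, fun y hy => ?_⟩
  have hy0 : 0 < y := by linarith
  have hly : 0 < Real.log y := Real.log_pos (by linarith)
  by_cases hyY : y < Y
  · have h1 := hc y hy0.le
    have h2 : Real.log y ≤ Real.log Y := Real.log_le_log hy0 hyY.le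
    have h3 : Real.log y ^ K ≤ Real.log Y ^ K := pow_le_pow_left₀ hly.le h2 K
    calc |Chebyshev.psi y - y| ≤ c0 * y := h1
      _ = c0 * Real.log y ^ K * (y / Real.log y ^ K) := by field_simp
      _ ≤ c0 * Real.log Y ^ K * (y / Real.log y ^ K) := by gcongr
      _ ≤ (c * 2 ^ K + K.factorial + c0 * Real.log Y ^ K) * (y / Real.log y ^ K) := by
          have : 0 ≤ c * 2 ^ K + K.factorial := by positivity
          have h9 : 0 ≤ y / Real.log y ^ K := by positivity
          nlinarith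
  · push Not at hyY
    set N := ⌊y⌋₊ with hN
    have hN1 : (N : ℝ) ≤ y := Nat.floor_le hy0.le
    have hN2 : y < N + 1 := Nat.lt_floor_add_one y
    have hNN : N₁ ≤ N := by
      apply Nat.le_floor
      have : (N₁ : ℝ) + 1 ≤ Y := le_max_right _ _
      linarith
    have h1 := h N hNN
    rw [Chebyshev.psi_eq_psi_coe_floor y, ← hN]
    have hN3 : y / 2 ≤ N := by linarith
    have hN0 : (0 : ℝ) < N := by linarith
    have hN4 : √y ≤ N := by
      refine le_trans ?_ hN3
      rw [Real.sqrt_le_left (by linarith)]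
      nlinarith
    have hlN : Real.log y / 2 ≤ Real.log N := by
      have := Real.log_le_log (Real.sqrt_pos.2 hy0) hN4
      rwa [Real.log_sqrt hy0.le] at this
    have h2 : (N : ℝ) / Real.log N ^ K ≤ 2 ^ K * (y / Real.log y ^ K) := by
      calc (N : ℝ) / Real.log N ^ K ≤ y / (Real.log y / 2) ^ K := by gcongr
        _ = _ := by rw [div_pow]; field_simp
    have h3 : 1 ≤ K.factorial * (y / Real.log y ^ K) := by
      have := Real.pow_div_factorial_le_exp (Real.log y) hly.le K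
      rw [Real.exp_log hy0] at this
      rw [← mul_div_assoc, le_div_iff₀ (by positivity), one_mul]
      rw [div_le_iff₀ (by positivity)] at this
      linarith
    have h4 : |Chebyshev.psi (N : ℝ) - y| ≤ |Chebyshev.psi (N : ℝ) - N| + 1 := by
      have e : Chebyshev.psi (N : ℝ) - y = (Chebyshev.psi (N : ℝ) - N) + (N - y) := by ring
      rw [e]
      refine (abs_add_le _ _).trans ?_
      have : |(N : ℝ) - y| ≤ 1 := by rw [abs_le]; constructor <;> linarith
      linarith
    have h9 : 0 ≤ y / Real.log y ^ K := by positivity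
    have h10 : 0 ≤ c0 * Real.log Y ^ K := by positivity
    calc |Chebyshev.psi (N : ℝ) - y| ≤ c * (N / Real.log N ^ K) + 1 := by linarith
      _ ≤ c * (2 ^ K * (y / Real.log y ^ K)) + K.factorial * (y / Real.log y ^ K) := by gcongr
      _ ≤ _ := by nlinarith

lemma Fp_abs (u : ℝ) : |Fp u| = |Chebyshev.psi (Real.exp u) - Real.exp u| * Real.exp (-u) := by
  unfold Fp
  rw [abs_mul, abs_of_pos (Real.exp_pos _)]

lemma integrable_dl : Integrable dl := by
  obtain ⟨C, hC, h⟩ := psi_logpow 1 le_rfl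
  have hL := Real.log_two_gt_d9
  have hb : ∀ u : ℝ, Real.log 2 < u → |dl u| ≤ 4 * C * u ^ (-2 : ℝ) := by
    intro u hu
    have hu0 : 0 < u := L2_pos.trans hu
    have h2 : (2 : ℝ) ≤ Real.exp u := by
      rw [← Real.exp_log (show (0:ℝ) < 2 by norm_num)]
      exact Real.exp_le_exp.2 hu.le
    have h3 := h _ h2
    rw [Real.log_exp, pow_one] at h3
    rw [dl_of_gt hu, abs_mul, Fp_abs, abs_of_pos (show 0 < 1 / u + 1 / u ^ 2 by positivity)]
    have h4 : |Chebyshev.psi (Real.exp u) - Real.exp u| * Real.exp (-u) ≤ C / u := by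
      calc _ ≤ (C * (Real.exp u / u)) * Real.exp (-u) := by gcongr
        _ = C / u * (Real.exp u * Real.exp (-u)) := by ring
        _ = C / u := by rw [← Real.exp_add]; simp
    have h5 : 1 / u + 1 / u ^ 2 ≤ 4 / u := by
      have h3 : 1 / u ≤ 1.5 := by
        rw [div_le_iff₀ hu0]; linarith
      have : 1 / u ^ 2 = 1 / u * (1 / u) := by field_simp
      have h6 : 0 < 1 / u := by positivity
      rw [this, show 4 / u = 4 * (1 / u) by ring]
      nlinarith
    calc _ ≤ C / u * (4 / u) := by gcongr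
      _ = 4 * C * u ^ (-2 : ℝ) := by
        rw [Real.rpow_neg hu0.le, Real.rpow_ofNat]
        field_simp
  have hi : IntegrableOn (fun u : ℝ => 4 * C * u ^ (-2 : ℝ)) (Ioi (Real.log 2)) :=
    (integrableOn_Ioi_rpow_of_lt (by norm_num) L2_pos).const_mul _
  have h1 : IntegrableOn dl (Ioi (Real.log 2)) := by
    refine Integrable.mono' hi measurable_dl.aestronglyMeasurable ?_
    filter_upwards [ae_restrict_mem measurableSet_Ioi] with u hu
    rw [Real.norm_eq_abs]
    exact hb u hu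
  have h2 : dl = (Ioi (Real.log 2)).indicator dl := by
    funext u
    by_cases hu : u ∈ Ioi (Real.log 2)
    · rw [indicator_of_mem hu]
    · rw [indicator_of_notMem hu]
      exact dl_of_le (not_lt.1 hu)
  rw [h2]
  exact h1.integrable_indicator measurableSet_Ioi

lemma PD_zero : ∃ C, PD 0 C := by
  obtain ⟨c0, hc0, hc⟩ := psi_cheb
  refine ⟨c0, le_rfl, one_pos, fun u _ => ?_, integrable_dl⟩
  rw [Fp_abs, zero_mul, neg_zero, Real.exp_zero, mul_one]
  calc _ ≤ (c0 * Real.exp u) * Real.exp (-u) := by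
        have := hc _ (Real.exp_pos u).le
        gcongr
    _ = c0 * (Real.exp u * Real.exp (-u)) := by ring
    _ = c0 := by rw [← Real.exp_add]; simp

lemma PD_pos {A α : ℝ} (hA : A ≤ 1 / 2) (h0 : 0 ≤ α) (hα : α < A)
    (hz : ∀ s : ℂ, 1 - A < s.re → riemannZeta s ≠ 0) : ∃ C, PD α C := by
  obtain ⟨C, hC, h⟩ := Pool.Agent.W190.psi_of_free (1 - A) (by linarith) hz (1 - α) (by linarith)
    (by linarith)
  refine ⟨C, h0, by linarith, fun u hu => ?_, integrable_dl⟩
  have hu0 : 0 < u := L2_pos.trans hu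
  rw [Fp_abs]
  have h1 := h (Real.exp u) (Real.one_le_exp hu0.le)
  rw [← Real.exp_mul] at h1
  calc _ ≤ (C * Real.exp (u * (1 - α))) * Real.exp (-u) := by gcongr
    _ = C * (Real.exp (u * (1 - α)) * Real.exp (-u)) := by ring
    _ = _ := by
        rw [← Real.exp_add]
        congr 2
        ring

lemma strip : ∃ R0 : ℝ, 0 < R0 ∧ ∀ w : ℂ, 1 / 4 ≤ w.re → w.re ≤ 2 → |w.im| < R0 → FF w ≠ 0 := by
  set K : Set ℂ := Icc (1 / 4) 2 ×ℂ Icc (-1) 1 with hKdef
  have hK : IsCompact K := isCompact_Icc.reProdIm isCompact_Icc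
  have hf := H353.zeros_finite K hK
  have h1 : ∀ᶠ R : ℝ in 𝓝[>] 0, ∀ ρ ∈ {ρ : ℂ | FF ρ = 0 ∧ ρ ∈ K}, R < |ρ.im| := by
    rw [hf.eventually_all]
    intro ρ hρ
    have hre : 1 / 4 ≤ ρ.re := (Complex.mem_reProdIm.1 hρ.2).1.1
    have : 0 < |ρ.im| := abs_pos.2 (H353.FF_im_ne ρ hρ.1 (by linarith))
    exact (eventually_lt_nhds this).filter_mono nhdsWithin_le_nhds
  obtain ⟨R, hR, hR1⟩ := (h1.and (Ioo_mem_nhdsGT (zero_lt_one (α := ℝ)))).exists
  refine ⟨R, hR1.1, fun w h2 h3 h4 h5 => ?_⟩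
  have hw : w ∈ K := by
    rw [hKdef, Complex.mem_reProdIm]
    have h6 : |w.im| < 1 := h4.trans hR1.2
    rw [abs_lt] at h6
    exact ⟨⟨h2, h3⟩, ⟨h6.1.le, h6.2.le⟩⟩
  exact absurd (hR w ⟨h5, hw⟩) (not_lt.2 h4.le)

end

end Pool.Agent.V11272.RB
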