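import Mathlib

set_option autoImplicit false

/-! Laplace transforms with powers. -/

namespace Pool.Agent.V11272.RB

open Complex Filter Topology MeasureTheory Set

noncomputable section

/-- `∫_{u > 0} u^m e^{-l u} du` -/
lemma int_pow_exp (m : ℕ) {l : ℝ} (hl : 0 < l) :
    IntegrableOn (fun u : ℝ => u ^ m * Real.exp (-(l * u))) (Ioi 0) ∧
      ∫ u in Ioi (0 : ℝ), u ^ m * Real.exp (-(l * u)) = (m.factorial : ℝ) / l ^ (m + 1) := by
  constructor
  · have h := integrableOn_rpow_mul_exp_neg_mul_rpow (p := 1) (s := m) (b := l)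
      (by have : (0 : ℝ) ≤ m := Nat.cast_nonneg m
          linarith) one_pos hl
    refine h.congr_fun (fun u hu => ?_) measurableSet_Ioi
    have hu0 : (0 : ℝ) < u := hu
    simp only [Real.rpow_one, Real.rpow_natCast]
    rw [neg_mul]
  · have h := Real.integral_rpow_mul_exp_neg_mul_Ioi (a := (m : ℝ) + 1) (r := l)
      (by positivity) hl
    have e : ∫ u in Ioi (0 : ℝ), u ^ m * Real.exp (-(l * u)) =
        ∫ t in Ioi (0 : ℝ), t ^ ((m : ℝ) + 1 - 1) * Real.exp (-(l * t)) := by
      refine setIntegral_congr_fun measurableSet_Ioi fun u hu => ?_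
      simp only [add_sub_cancel_right, Real.rpow_natCast]
    rw [e, h, Real.Gamma_nat_eq_factorial, one_div, Real.inv_rpow hl.le]
    rw [show ((m : ℝ) + 1) = ((m + 1 : ℕ) : ℝ) by push_cast; ring, Real.rpow_natCast]
    field_simp

/-- the Laplace transform of `F u * u ^ m` on `(a, ∞)` -/
def Lp (a : ℝ) (F : ℝ → ℝ) (m : ℕ) (s : ℂ) : ℂ :=
  ∫ u in Ioi a, ((F u * u ^ m : ℝ) : ℂ) * cexp (-(s * u))

/-- data for a Laplace transform -/
structure LD (a : ℝ) (F : ℝ → ℝ) (α C : ℝ) : Prop where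
  ha : 0 ≤ a
  meas : Measurable F
  bd : ∀ u : ℝ, a < u → |F u| ≤ C * Real.exp (-(α * u))

variable {a : ℝ} {F : ℝ → ℝ} {α C : ℝ}

lemma norm_kernel (F : ℝ → ℝ) (m : ℕ) (s : ℂ) (u : ℝ) :
    ‖((F u * u ^ m : ℝ) : ℂ) * cexp (-(s * u))‖ = |F u| * |u| ^ m * Real.exp (-(s.re * u)) := by
  rw [norm_mul, Complex.norm_real, Complex.norm_exp, Real.norm_eq_abs, abs_mul, abs_pow]
  congr 2
  simp

lemma LD.C_nonneg (h : LD a F α C) : 0 ≤ C := by
  have h1 := h.bd (a + 1) (by linarith)
  have h2 := abs_nonneg (F (a + 1))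
  have h3 := Real.exp_pos (-(α * (a + 1)))
  by_contra hc
  push Not at hc
  nlinarith

lemma LD.bound (h : LD a F α C) (m : ℕ) {s : ℂ} {u : ℝ} (hu : a < u) :
    ‖((F u * u ^ m : ℝ) : ℂ) * cexp (-(s * u))‖ ≤
      C * (u ^ m * Real.exp (-((s.re + α) * u))) := by
  rw [norm_kernel]
  have hu0 : 0 ≤ u := h.ha.trans hu.le
  rw [abs_of_nonneg hu0]
  have h1 := h.bd u hu
  calc |F u| * u ^ m * Real.exp (-(s.re * u))
      ≤ (C * Real.exp (-(α * u))) * u ^ m * Real.exp (-(s.re * u)) := by gcongr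
    _ = C * (u ^ m * (Real.exp (-(α * u)) * Real.exp (-(s.re * u)))) := by ring
    _ = _ := by
        rw [← Real.exp_add]
        congr 3
        ring

lemma LD.ioi (h : LD a F α C) : Ioi a ⊆ Ioi (0 : ℝ) := Ioi_subset_Ioi h.ha

lemma meas_kernel (hF : Measurable F) (m : ℕ) (s : ℂ) :
    Measurable fun u : ℝ => ((F u * u ^ m : ℝ) : ℂ) * cexp (-(s * u)) := by
  fun_prop

lemma LD.integrable (h : LD a F α C) (m : ℕ) {s : ℂ} (hs : -α < s.re) :
    IntegrableOn (fun u : ℝ => ((F u * u ^ m : ℝ) : ℂ) * cexp (-(s * u))) (Ioi a) := by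
  have h1 := ((int_pow_exp m (show 0 < s.re + α by linarith)).1.mono_set h.ioi).const_mul C
  refine Integrable.mono' h1 (meas_kernel h.meas m s).aestronglyMeasurable ?_
  filter_upwards [ae_restrict_mem measurableSet_Ioi] with u hu
  exact h.bound m hu

lemma LD.integrable_real (h : LD a F α C) (m : ℕ) {s : ℝ} (hs : -α < s) :
    IntegrableOn (fun u : ℝ => |F u| * u ^ m * Real.exp (-(s * u))) (Ioi a) := by
  have h1 : IntegrableOn (fun u : ℝ => ‖((F u * u ^ m : ℝ) : ℂ) * cexp (-((s : ℂ) * u))‖) (Ioi a) :=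
    (h.integrable m (s := (s : ℂ)) (by simpa using hs)).norm
  refine h1.congr_fun (fun u hu => ?_) measurableSet_Ioi
  simp only
  rw [norm_kernel, abs_of_nonneg (h.ha.trans (le_of_lt hu)), Complex.ofReal_re]

lemma LD.norm_le (h : LD a F α C) (m : ℕ) {s : ℂ} (hs : -α < s.re) :
    ‖Lp a F m s‖ ≤ C * ((m.factorial : ℝ) / (s.re + α) ^ (m + 1)) := by
  have hl : 0 < s.re + α := by linarith
  have h1 := ((int_pow_exp m hl).1.mono_set h.ioi).const_mul C
  unfold Lp
  refine (norm_integral_le_of_norm_le h1 ?_).trans ?_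
  · filter_upwards [ae_restrict_mem measurableSet_Ioi] with u hu
    exact h.bound m hu
  · rw [integral_const_mul]
    refine mul_le_mul_of_nonneg_left ?_ h.C_nonneg
    rw [← (int_pow_exp m hl).2]
    refine setIntegral_mono_set (int_pow_exp m hl).1 ?_ h.ioi.eventuallyLE
    filter_upwards [ae_restrict_mem measurableSet_Ioi] with u hu
    have : (0 : ℝ) < u := hu
    simp only [Pi.zero_apply]
    positivity

/-- differentiation -/
lemma LD.hasDerivAt (h : LD a F α C) (m : ℕ) {s : ℂ} (hs : -α < s.re) :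
    HasDerivAt (Lp a F m) (-Lp a F (m + 1) s) s := by
  set δ := (s.re + α) / 2 with hδ
  have hδ0 : 0 < δ := by rw [hδ]; linarith
  have hb := ((int_pow_exp (m + 1) hδ0).1.mono_set h.ioi).const_mul C
  have key := hasDerivAt_integral_of_dominated_loc_of_deriv_le (𝕜 := ℂ)
    (μ := volume.restrict (Ioi a))
    (F := fun (z : ℂ) (u : ℝ) => ((F u * u ^ m : ℝ) : ℂ) * cexp (-(z * u)))
    (F' := fun (z : ℂ) (u : ℝ) => -(((F u * u ^ (m + 1) : ℝ) : ℂ) * cexp (-(z * u))))
    (x₀ := s) (s := Metric.ball s δ)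
    (bound := fun u : ℝ => C * (u ^ (m + 1) * Real.exp (-(δ * u))))
    (Metric.ball_mem_nhds s hδ0)
    (Eventually.of_forall fun z => (meas_kernel h.meas m z).aestronglyMeasurable)
    (h.integrable m hs)
    ((meas_kernel h.meas (m + 1) s).neg.aestronglyMeasurable)
    (by
      filter_upwards [ae_restrict_mem measurableSet_Ioi] with u hu z hz
      have hu0 : (0 : ℝ) < u := h.ioi hu
      rw [norm_neg]
      refine (h.bound (m + 1) hu).trans ?_
      have hz1 : |z.re - s.re| < δ := by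
        have h1 := Complex.abs_re_le_norm (z - s)
        rw [Complex.sub_re] at h1
        rw [Metric.mem_ball, dist_eq_norm] at hz
        linarith
      have hz2 : δ ≤ z.re + α := by
        rw [abs_lt] at hz1
        have : s.re + α = 2 * δ := by rw [hδ]; ring
        linarith [hz1.1]
      have hC := h.C_nonneg
      gcongr)
    hb
    (by
      filter_upwards with u z hz
      have h0 : HasDerivAt (fun z : ℂ => z * u) (u : ℂ) z := by
        simpa using (hasDerivAt_id z).mul_const (u : ℂ)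
      have h1 : HasDerivAt (fun z : ℂ => -(z * u)) (-(u : ℂ)) z := h0.neg
      have h2 := (h1.cexp).const_mul ((F u * u ^ m : ℝ) : ℂ)
      refine h2.congr_deriv ?_
      push_cast
      ring)
  have h3 := key.2
  have e : ∫ u in Ioi a, -(((F u * u ^ (m + 1) : ℝ) : ℂ) * cexp (-(s * u))) =
      -Lp a F (m + 1) s := by
    unfold Lp
    exact integral_neg _
  rw [e] at h3
  exact h3

/-- the half-plane of convergence -/
def HP (α : ℝ) : Set ℂ := {s : ℂ | -α < s.re}

lemma isOpen_HP (α : ℝ) : IsOpen (HP α) := isOpen_lt continuous_const Complex.continuous_re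

lemma convex_HP (α : ℝ) : Convex ℝ (HP α) := convex_halfSpace_re_gt (-α)

lemma LD.differentiableOn (h : LD a F α C) (m : ℕ) : DifferentiableOn ℂ (Lp a F m) (HP α) :=
  fun _ hs => (h.hasDerivAt m hs).differentiableAt.differentiableWithinAt

lemma LD.iterDeriv (h : LD a F α C) (m k : ℕ) {s : ℂ} (hs : s ∈ HP α) :
    iteratedDeriv k (Lp a F m) s = (-1) ^ k * Lp a F (m + k) s := by
  induction k generalizing s with
  | zero => simp
  | succ k ih =>
    rw [iteratedDeriv_succ]
    have h1 : iteratedDeriv k (Lp a F m) =ᶠ[𝓝 s] fun z => (-1) ^ k * Lp a F (m + k) z := by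
      filter_upwards [(isOpen_HP α).mem_nhds hs] with z hz
      exact ih hz
    rw [h1.deriv_eq, ((h.hasDerivAt (m + k) hs).const_mul ((-1 : ℂ) ^ k)).deriv]
    rw [show m + (k + 1) = m + k + 1 by ring]
    ring

end

end Pool.Agent.V11272.RB
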