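import Pool.Agent.V11272.RB.Upper2

set_option autoImplicit false

/-! The lower bound for the number of exceptional integers. -/

namespace Pool.Agent.V11272.RB

open Filter Topology Set MeasureTheory

noncomputable section

/-- Robin-type exceptional integers -/
def ExcS (n : ℕ) : Prop := 3 ≤ n ∧
  Real.exp Real.eulerMascheroniConstant * n * Real.log (Real.log n) ≤ (ArithmeticFunction.sigma 1 n : ℝ)

open Classical in
/-- number of Robin-type exceptions up to `x` -/
def EC (x : ℝ) : ℝ := (((Finset.Icc 3 ⌊x⌋₊).filter ExcS).card : ℝ)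

lemma excS_exc {n : ℕ} (h : ExcS n) : Exc n := by
  refine ⟨h.1, ?_⟩
  have hn0 : n ≠ 0 := by have := h.1; omega
  have hn : (0 : ℝ) < n := by exact_mod_cast Nat.pos_of_ne_zero hn0
  refine le_trans ?_ (sigma_le hn0)
  rw [le_div_iff₀ hn]
  linarith [h.2]

lemma EC_le_FC (x : ℝ) : EC x ≤ FC x := by
  classical
  unfold EC FC
  have : (Finset.Icc 3 ⌊x⌋₊).filter ExcS ⊆ (Finset.Icc 3 ⌊x⌋₊).filter Exc := by
    intro n hn
    rw [Finset.mem_filter] at hn ⊢
    exact ⟨hn.1, excS_exc hn.2⟩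
  exact_mod_cast Finset.card_le_card this

lemma fact_prod (S : Finset ℕ) (a : ℕ → ℕ) (hS : ∀ p ∈ S, p.Prime) (q : ℕ) :
    (∏ p ∈ S, p ^ a p).factorization q = if q ∈ S then a q else 0 := by
  rw [Nat.factorization_prod (fun p hp => pow_ne_zero _ (hS p hp).ne_zero)]
  rw [Finsupp.finsetSum_apply]
  have : ∀ p ∈ S, (p ^ a p).factorization q = if p = q then a p else 0 := by
    intro p hp
    rw [(hS p hp).factorization_pow, Finsupp.single_apply]
  rw [Finset.sum_congr rfl this, Finset.sum_ite_eq' S q (fun q => a q)]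

lemma primeFactors_prod (S : Finset ℕ) (a : ℕ → ℕ) (hS : ∀ p ∈ S, p.Prime) (ha : ∀ p ∈ S, 1 ≤ a p) :
    (∏ p ∈ S, p ^ a p).primeFactors = S := by
  ext q
  rw [← Nat.support_factorization, Finsupp.mem_support_iff, fact_prod S a hS]
  constructor
  · intro h
    by_contra hc
    rw [if_neg hc] at h
    exact h rfl
  · intro h
    rw [if_pos h]
    have := ha q h
    omega

lemma prod_ne_zero' (S : Finset ℕ) (a : ℕ → ℕ) (hS : ∀ p ∈ S, p.Prime) : (∏ p ∈ S, p ^ a p) ≠ 0 :=
  Finset.prod_ne_zero_iff.2 fun p hp => pow_ne_zero _ (hS p hp).ne_zero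

lemma log_prod' (S : Finset ℕ) (a : ℕ → ℕ) (hS : ∀ p ∈ S, p.Prime) :
    Real.log ((∏ p ∈ S, p ^ a p : ℕ) : ℝ) = ∑ p ∈ S, a p * Real.log p := by
  push_cast
  rw [Real.log_prod (fun p hp => pow_ne_zero _ (by exact_mod_cast (hS p hp).ne_zero))]
  exact Finset.sum_congr rfl fun p _ => Real.log_pow _ _

/-- concavity -/
lemma loglog_le {Y y : ℝ} (hY : 1 < Y) (hy : 1 < y) :
    Real.log (Real.log Y) ≤ Real.log (Real.log y) + ff y * (Y - y) := by
  have hlY : 0 < Real.log Y := Real.log_pos hY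
  have hly : 0 < Real.log y := Real.log_pos hy
  have h1 := Real.log_le_sub_one_of_pos (show 0 < Real.log Y / Real.log y by positivity)
  rw [Real.log_div hlY.ne' hly.ne'] at h1
  have h2 := Real.log_le_sub_one_of_pos (show 0 < Y / y by positivity)
  rw [Real.log_div (by linarith) (by linarith)] at h2
  have h3 : Real.log Y / Real.log y - 1 = (Real.log Y - Real.log y) / Real.log y := by field_simp
  have h4 : (Real.log Y - Real.log y) / Real.log y ≤ (Y / y - 1) / Real.log y := by gcongr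
  have h5 : (Y / y - 1) / Real.log y = ff y * (Y - y) := by
    unfold ff
    have : y ≠ 0 := by linarith
    field_simp
  linarith

/-- cost of a removed prime -/
lemma cost_le {y z : ℝ} {p : ℕ} (hy : 4 ≤ y) (hz1 : 1 ≤ z) (hz2 : z ≤ y / 2) (hp : y - z < p) : wt p - ff y * Real.log p ≤ 10 * z / y ^ 2 := by
  have hp2 : y / 2 < p := by linarith
  have hpn : 2 ≤ p := by
    have : (2 : ℝ) < p := by linarith
    have h2 : 2 < p := by exact_mod_cast this
    omega
  have hp0 : (0 : ℝ) < p := by linarith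
  have hy0 : 0 < y := by linarith
  have hly : 1 ≤ Real.log y := by
    rw [Real.le_log_iff_exp_le hy0]
    have := Real.exp_one_lt_d9
    linarith
  have h1 := wt_upper hpn
  have h2 : Real.log y - Real.log p ≤ 2 * z / y := by
    have h3 := Real.log_le_sub_one_of_pos (show 0 < y / p by positivity)
    rw [Real.log_div hy0.ne' hp0.ne'] at h3
    refine h3.trans ?_
    rw [div_sub_one hp0.ne', div_le_div_iff₀ hp0 hy0]
    nlinarith
  have h3 : 1 / y - 2 * z / y ^ 2 ≤ ff y * Real.log p := by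
    have e1 : ff y * Real.log y = 1 / y := by unfold ff; field_simp
    have hff : 0 < ff y := by unfold ff; positivity
    have hff1 : ff y ≤ 1 / y := by
      unfold ff
      apply one_div_le_one_div_of_le hy0
      nlinarith
    have h4 : ff y * (Real.log y - Real.log p) ≤ 1 / y * (2 * z / y) := by
      calc ff y * (Real.log y - Real.log p) ≤ ff y * (2 * z / y) := by gcongr
        _ ≤ 1 / y * (2 * z / y) := by gcongr
    have h5 : 1 / y * (2 * z / y) = 2 * z / y ^ 2 := by field_simp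
    rw [h5, mul_sub, e1] at h4
    linarith
  have h4 : 1 / ((p : ℝ) - 1) - 1 / y ≤ 8 * z / y ^ 2 := by
    have hp4 : y / 4 ≤ (p : ℝ) - 1 := by linarith
    have hp5 : 0 < (p : ℝ) - 1 := by linarith
    have e : 1 / ((p : ℝ) - 1) - 1 / y = (y - p + 1) / (((p : ℝ) - 1) * y) := by
      field_simp
      ring
    rw [e]
    calc (y - p + 1) / (((p : ℝ) - 1) * y) ≤ (2 * z) / ((y / 4) * y) := by
          gcongr
          linarith
      _ = 8 * z / y ^ 2 := by field_simp; ring
  have h5 : 10 * z / y ^ 2 = 8 * z / y ^ 2 + 2 * z / y ^ 2 := by ring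
  rw [h5]
  linarith

/-- the family of subsets gives many exceptional integers -/
lemma family {y z x : ℝ} {k : ℕ} (hy : 8 ≤ y) (hz2 : z ≤ y / 2)
    (hk : k ≤ ((Finset.Ioc ⌊y - z⌋₊ ⌊y⌋₊).filter Nat.Prime).card)
    (a : ℕ → ℕ) (ha : ∀ p ∈ PL y, 1 ≤ a p) (Q : ℕ → Prop) [DecidablePred Q]
    (hx : ∑ p ∈ PL y, a p * Real.log p ≤ Real.log x) (hx0 : 0 < x)
    (hQ : ∀ A : Finset ℕ, A ⊆ (Finset.Ioc ⌊y - z⌋₊ ⌊y⌋₊).filter Nat.Prime → A.card ≤ k →
      Q (∏ p ∈ PL y \ A, p ^ a p)) :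
    2 ^ k ≤ ((Finset.Icc 3 ⌊x⌋₊).filter Q).card := by
  obtain ⟨P0, hP0, hP0k⟩ := Finset.exists_subset_card_eq hk
  have hprime : ∀ p ∈ PL y, p.Prime := fun p hp => (Finset.mem_filter.1 hp).2
  have hsub : (Finset.Ioc ⌊y - z⌋₊ ⌊y⌋₊).filter Nat.Prime ⊆ PL y := by
    intro p hp
    unfold PL
    rw [Finset.mem_filter, Finset.mem_Ioc] at hp ⊢
    exact ⟨⟨hp.2.pos, hp.1.2⟩, hp.2⟩
  have hinj : Set.InjOn (fun A : Finset ℕ => ∏ p ∈ PL y \ A, p ^ a p) (P0.powerset : Set (Finset ℕ)) := by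
    intro A hA B hB hAB
    rw [Finset.mem_coe, Finset.mem_powerset] at hA hB
    simp only at hAB
    have h1 := primeFactors_prod (PL y \ A) a (fun p hp => hprime p (Finset.mem_sdiff.1 hp).1)
      (fun p hp => ha p (Finset.mem_sdiff.1 hp).1)
    have h2 := primeFactors_prod (PL y \ B) a (fun p hp => hprime p (Finset.mem_sdiff.1 hp).1)
      (fun p hp => ha p (Finset.mem_sdiff.1 hp).1)
    rw [hAB, h2] at h1
    have h3 : PL y \ (PL y \ A) = A := Finset.sdiff_sdiff_eq_self (hA.trans (hP0.trans hsub))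
    have h4 : PL y \ (PL y \ B) = B := Finset.sdiff_sdiff_eq_self (hB.trans (hP0.trans hsub))
    rw [← h3, ← h4, h1]
  have hmaps : ∀ A ∈ P0.powerset, (∏ p ∈ PL y \ A, p ^ a p) ∈ (Finset.Icc 3 ⌊x⌋₊).filter Q := by
    intro A hA
    rw [Finset.mem_powerset] at hA
    have hS : ∀ p ∈ PL y \ A, p.Prime := fun p hp => hprime p (Finset.mem_sdiff.1 hp).1
    rw [Finset.mem_filter, Finset.mem_Icc]
    refine ⟨⟨?_, ?_⟩, hQ A (hA.trans hP0) (by
      rw [← hP0k]; exact Finset.card_le_card hA)⟩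
    · have h3 : 3 ∈ PL y \ A := by
        rw [Finset.mem_sdiff]
        refine ⟨?_, fun h => ?_⟩
        · unfold PL
          rw [Finset.mem_filter, Finset.mem_Ioc]
          exact ⟨⟨by norm_num, Nat.le_floor (by push_cast; linarith)⟩, Nat.prime_three⟩
        · have h4 := hP0 (hA h)
          rw [Finset.mem_filter, Finset.mem_Ioc] at h4
          have h5 : 3 ≤ ⌊y - z⌋₊ := Nat.le_floor (by push_cast; linarith)
          omega
      have h4 : 3 ^ a 3 ∣ ∏ p ∈ PL y \ A, p ^ a p := Finset.dvd_prod_of_mem (fun p => p ^ a p) h3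
      have h5 := Nat.le_of_dvd (Nat.pos_of_ne_zero (prod_ne_zero' _ a hS)) h4
      have h6 : 3 ^ 1 ≤ 3 ^ a 3 := Nat.pow_le_pow_right (by norm_num) (ha 3 (Finset.mem_sdiff.1 h3).1)
      omega
    · apply Nat.le_floor
      have hpos : (0 : ℝ) < ((∏ p ∈ PL y \ A, p ^ a p : ℕ) : ℝ) := by
        exact_mod_cast Nat.pos_of_ne_zero (prod_ne_zero' _ a hS)
      rw [← Real.log_le_log_iff hpos hx0, log_prod' _ a hS]
      refine le_trans ?_ hx
      refine Finset.sum_le_sum_of_subset_of_nonneg Finset.sdiff_subset fun p hp _ => ?_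
      have : (1 : ℝ) ≤ p := by exact_mod_cast (hprime p hp).one_lt.le
      have := Real.log_nonneg this
      positivity
  have hcard := Finset.card_le_card_of_injOn _ hmaps hinj
  rwa [Finset.card_powerset, hP0k] at hcard

/-- the sum of the costs -/
lemma cost_sum {y z : ℝ} {k : ℕ} {A : Finset ℕ} (hy : 8 ≤ y) (hz1 : 1 ≤ z) (hz2 : z ≤ y / 2)
    (hA : A ⊆ (Finset.Ioc ⌊y - z⌋₊ ⌊y⌋₊).filter Nat.Prime) (hk : A.card ≤ k) :
    ∑ p ∈ A, (wt p - ff y * Real.log p) ≤ k * (10 * z / y ^ 2) := by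
  calc ∑ p ∈ A, (wt p - ff y * Real.log p) ≤ ∑ p ∈ A, (10 * z / y ^ 2) := by
        refine Finset.sum_le_sum fun p hp => ?_
        have h1 := hA hp
        rw [Finset.mem_filter, Finset.mem_Ioc] at h1
        refine cost_le (by linarith) hz1 hz2 ?_
        have h2 := Nat.lt_floor_add_one (y - z)
        have h3 : ((⌊y - z⌋₊ + 1 : ℕ) : ℝ) ≤ p := by exact_mod_cast h1.1.1
        push_cast at h3
        linarith
    _ = A.card * (10 * z / y ^ 2) := by rw [Finset.sum_const, nsmul_eq_mul]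
    _ ≤ k * (10 * z / y ^ 2) := by
        have : (A.card : ℝ) ≤ k := by exact_mod_cast hk
        gcongr

lemma prime_mem_facts {y z : ℝ} (hy : 8 ≤ y) (hz2 : z ≤ y / 2) {A : Finset ℕ} (a : ℕ → ℕ)
    (ha : ∀ p ∈ PL y, 1 ≤ a p) (hA : A ⊆ (Finset.Ioc ⌊y - z⌋₊ ⌊y⌋₊).filter Nat.Prime) :
    A ⊆ PL y ∧ 6 ≤ ∏ p ∈ PL y \ A, p ^ a p := by
  have hprime : ∀ p ∈ PL y, p.Prime := fun p hp => (Finset.mem_filter.1 hp).2
  refine ⟨?_, ?_⟩
  · intro p hp
    have h1 := hA hp
    unfold PL
    rw [Finset.mem_filter, Finset.mem_Ioc] at h1 ⊢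
    exact ⟨⟨h1.2.pos, h1.1.2⟩, h1.2⟩
  · have hS : ∀ p ∈ PL y \ A, p.Prime := fun p hp => hprime p (Finset.mem_sdiff.1 hp).1
    have hmem : ∀ q : ℕ, q.Prime → q ≤ 3 → q ∈ PL y \ A := by
      intro q hq hq3
      have hq3' : (q : ℝ) ≤ 3 := by exact_mod_cast hq3
      rw [Finset.mem_sdiff]
      refine ⟨?_, fun h => ?_⟩
      · unfold PL
        rw [Finset.mem_filter, Finset.mem_Ioc]
        exact ⟨⟨hq.pos, Nat.le_floor (by linarith)⟩, hq⟩
      · have h4 := hA h
        rw [Finset.mem_filter, Finset.mem_Ioc] at h4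
        have h5 : 3 ≤ ⌊y - z⌋₊ := Nat.le_floor (by push_cast; linarith)
        omega
    have hd : ∀ q : ℕ, q.Prime → q ≤ 3 → q ∣ ∏ p ∈ PL y \ A, p ^ a p := by
      intro q hq hq3
      have h3 := hmem q hq hq3
      have h4 : q ^ a q ∣ ∏ p ∈ PL y \ A, p ^ a p := Finset.dvd_prod_of_mem (fun p => p ^ a p) h3
      refine dvd_trans ?_ h4
      exact dvd_pow_self q (by have := ha q (Finset.mem_sdiff.1 h3).1; omega)
    have h2 := hd 2 Nat.prime_two (by norm_num)
    have h3 := hd 3 Nat.prime_three le_rfl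
    have h6 : 2 * 3 ∣ ∏ p ∈ PL y \ A, p ^ a p := Nat.Coprime.mul_dvd_of_dvd_of_dvd (by norm_num) h2 h3
    exact Nat.le_of_dvd (Nat.pos_of_ne_zero (prod_ne_zero' _ a hS)) h6

/-- the totient case -/
theorem lower_phi {y z x : ℝ} {k : ℕ} (hy : 8 ≤ y) (hz1 : 1 ≤ z) (hz2 : z ≤ y / 2)
    (hk : k ≤ ((Finset.Ioc ⌊y - z⌋₊ ⌊y⌋₊).filter Nat.Prime).card) (hx0 : 0 < x)
    (hx : Chebyshev.theta y ≤ Real.log x)
    (hkk : 2 / y + k * (10 * z / y ^ 2) ≤ kk (Real.log y)) : (2 : ℝ) ^ k ≤ FC x := by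
  classical
  have key := family (k := k) (x := x) hy hz2 hk (fun _ => 1) (fun _ _ => le_rfl) Exc
    (by simpa [theta_eq] using hx) hx0
    (by
      intro A hA hAk
      obtain ⟨hApl, h6⟩ := prime_mem_facts hy hz2 (fun _ => 1) (fun _ _ => le_rfl) hA
      set n := ∏ p ∈ PL y \ A, p ^ 1 with hn
      have hprime : ∀ p ∈ PL y, p.Prime := fun p hp => (Finset.mem_filter.1 hp).2
      have hS : ∀ p ∈ PL y \ A, p.Prime := fun p hp => hprime p (Finset.mem_sdiff.1 hp).1
      have hn0 : n ≠ 0 := by omega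
      have hnpos : (0 : ℝ) < n := by exact_mod_cast Nat.pos_of_ne_zero hn0
      have h6' : (6 : ℝ) ≤ n := by exact_mod_cast h6
      refine ⟨by omega, ?_⟩
      have hpf : n.primeFactors = PL y \ A := primeFactors_prod (PL y \ A) (fun _ => 1) hS (fun _ _ => le_rfl)
      have hlogn : Real.log n = Chebyshev.theta y - ∑ p ∈ A, Real.log p := by
        have h1 := log_prod' (PL y \ A) (fun _ => 1) hS
        rw [hn, h1, theta_eq, ← Finset.sum_sdiff hApl]
        simp
      have hlogφ : Real.log ((n : ℝ) / Nat.totient n) = SS y - ∑ p ∈ A, wt p := by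
        rw [totient_log hn0, hpf]
        unfold SS
        rw [← Finset.sum_sdiff hApl]
        ring
      have hlog1 : 1 < Real.log n := by
        rw [Real.lt_log_iff_exp_lt hnpos]
        have := Real.exp_one_lt_d9
        linarith
      have hconc := loglog_le hlog1 (show 1 < y by linarith)
      have hcost := cost_sum hy hz1 hz2 hA hAk
      rw [Finset.sum_sub_distrib, ← Finset.mul_sum] at hcost
      have hDD := DD_lower (show 2 ≤ y by linarith)
      have hφ : (0 : ℝ) < Nat.totient n := by exact_mod_cast Nat.totient_pos.2 (Nat.pos_of_ne_zero hn0)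
      have hll : 0 < Real.log (Real.log n) := Real.log_pos hlog1
      rw [← Real.log_le_log_iff (by positivity) (by positivity), hlogφ,
        Real.log_mul (Real.exp_ne_zero _) hll.ne', Real.log_exp]
      have h7 : Real.log (Real.log (Real.log n)) ≤ Real.log (Real.log y) + ff y * (Real.log n - y) := by
        have h8 : Real.log (Real.log (Real.log n)) ≤ Real.log (Real.log y) + ff y * (Real.log n - y) := hconc
        exact h8
      rw [hlogn] at h7
      unfold DD at hDD
      have h9 : ff y * (Chebyshev.theta y - ∑ p ∈ A, Real.log p - y) =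
        ff y * (Chebyshev.theta y - y) - ff y * ∑ p ∈ A, Real.log p := by ring
      rw [h9] at h7
      rw [hlogn]
      linarith)
  unfold FC
  exact_mod_cast key

end

end Pool.Agent.V11272.RB
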