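import Pool.Agent.V11272.RB.Lower

set_option autoImplicit false

/-! The lower bound for the number of exceptional integers, sum of divisors. -/

namespace Pool.Agent.V11272.RB

open Filter Topology Set MeasureTheory

noncomputable section

/-- exponents of the least common multiple -/
def aa (y : ℝ) (p : ℕ) : ℕ := Nat.log p ⌊y⌋₊

lemma psi_aa (y : ℝ) : Chebyshev.psi y = ∑ p ∈ PL y, aa y p * Real.log p := by
  rw [Chebyshev.psi_eq_psi_coe_floor, Chebyshev.psi_eq_sum_mul_log_prime]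
  refine Finset.sum_congr ?_ fun p _ => rfl
  ext p
  simp only [PL, Finset.mem_filter, Finset.mem_Ioc, Nat.mem_primesLE]
  constructor
  · rintro ⟨h1, h2⟩
    exact ⟨⟨h2.pos, h1⟩, h2⟩
  · rintro ⟨⟨_, h1⟩, h2⟩
    exact ⟨h1, h2⟩

lemma aa_one_le {y : ℝ} {p : ℕ} (hp : p ∈ PL y) : 1 ≤ aa y p := by
  unfold PL at hp
  rw [Finset.mem_filter, Finset.mem_Ioc] at hp
  exact Nat.log_pos hp.2.one_lt hp.1.2

lemma tp_le {y : ℝ} {p : ℕ} (hy : 8 ≤ y) (hp : p ∈ PL y) :
    ((p : ℝ)⁻¹) ^ (aa y p + 1) ≤ 1 / y ∧ ((p : ℝ)⁻¹) ^ (aa y p + 1) ≤ 1 / ((p : ℝ) - 1) - 1 / p ∧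
    0 ≤ ((p : ℝ)⁻¹) ^ (aa y p + 1) := by
  have h1 := aa_one_le hp
  unfold PL at hp
  rw [Finset.mem_filter, Finset.mem_Ioc] at hp
  have hp2 : (2 : ℝ) ≤ p := by exact_mod_cast hp.2.two_le
  have hfl := Nat.lt_floor_add_one y
  refine ⟨?_, ?_, by positivity⟩
  · rw [inv_pow, ← one_div]
    apply one_div_le_one_div_of_le (by linarith)
    have h2 : ⌊y⌋₊ < p ^ (aa y p + 1) := Nat.lt_pow_succ_log_self hp.2.one_lt _
    have h3 : ((⌊y⌋₊ + 1 : ℕ) : ℝ) ≤ ((p ^ (aa y p + 1) : ℕ) : ℝ) := by exact_mod_cast h2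
    push_cast at h3
    linarith
  · have h2 : ((p : ℝ)⁻¹) ^ (aa y p + 1) ≤ ((p : ℝ)⁻¹) ^ 2 :=
      pow_le_pow_of_le_one (by positivity) (inv_le_one_of_one_le₀ (by linarith)) (by omega)
    have h3 : 1 / ((p : ℝ) - 1) - 1 / p = 1 / (((p : ℝ) - 1) * p) := by
      have : (p : ℝ) - 1 ≠ 0 := by linarith
      have : (p : ℝ) ≠ 0 := by linarith
      field_simp
      ring
    rw [h3]
    refine h2.trans ?_
    rw [inv_pow, ← one_div]
    apply one_div_le_one_div_of_le (by nlinarith)
    nlinarith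

lemma neglog_le {t : ℝ} (h0 : 0 ≤ t) (h1 : t ≤ 1 / 2) : -Real.log (1 - t) ≤ 2 * t := by
  have h3 : 0 < 1 - t := by linarith
  have := Real.one_sub_inv_le_log_of_pos h3
  have h4 : (1 - t)⁻¹ ≤ 1 + 2 * t := by
    rw [inv_le_iff_one_le_mul₀ h3]
    nlinarith
  linarith

/-- the loss -/
lemma loss_le {y : ℝ} (hy : 8 ≤ y) {S : Finset ℕ} (hS : S ⊆ PL y) :
    -∑ p ∈ S, Real.log (1 - ((p : ℝ)⁻¹) ^ (aa y p + 1)) ≤ 6 / √y := by
  have hy0 : 0 < y := by linarith
  have hs2 : 2 ≤ √y := by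
    rw [Real.le_sqrt (by norm_num) hy0.le]; linarith
  have hss := Real.mul_self_sqrt hy0.le
  set s := ⌊√y⌋₊ with hs
  have hs1 : (s : ℝ) ≤ √y := Nat.floor_le (by linarith)
  have hs3 : √y / 2 ≤ s := by
    have := Nat.lt_floor_add_one (√y)
    rw [← hs] at this
    linarith
  have hspos : 1 ≤ s := Nat.le_floor (by push_cast; linarith)
  have hsy : s ≤ ⌊y⌋₊ := Nat.floor_le_floor (by nlinarith)
  rw [← Finset.sum_neg_distrib]
  have h1 : ∀ p ∈ S, -Real.log (1 - ((p : ℝ)⁻¹) ^ (aa y p + 1)) ≤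
      if p ≤ s then 2 / y else 2 * (1 / ((p : ℝ) - 1) - 1 / p) := by
    intro p hp
    obtain ⟨a1, a2, a3⟩ := tp_le hy (hS hp)
    have h2 := neglog_le a3 (a1.trans (by
      apply one_div_le_one_div_of_le (by norm_num); linarith))
    split_ifs
    · have : 2 / y = 2 * (1 / y) := by ring
      rw [this]; linarith
    · linarith
  have h2 : ∀ p ∈ Finset.Ioc 0 ⌊y⌋₊, (0 : ℝ) ≤
      if p ≤ s then 2 / y else 2 * (1 / ((p : ℝ) - 1) - 1 / p) := by
    intro p hp
    split_ifs with h
    · positivity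
    · have h3 : (1 : ℝ) < p := by
        have : 1 < p := by omega
        exact_mod_cast this
      have : 1 / (p : ℝ) ≤ 1 / ((p : ℝ) - 1) := one_div_le_one_div_of_le (by linarith) (by linarith)
      linarith
  calc ∑ p ∈ S, -Real.log (1 - ((p : ℝ)⁻¹) ^ (aa y p + 1))
      ≤ ∑ p ∈ S, (if p ≤ s then 2 / y else 2 * (1 / ((p : ℝ) - 1) - 1 / p)) := Finset.sum_le_sum h1
    _ ≤ ∑ p ∈ Finset.Ioc 0 ⌊y⌋₊, (if p ≤ s then 2 / y else 2 * (1 / ((p : ℝ) - 1) - 1 / p)) := by
        refine Finset.sum_le_sum_of_subset_of_nonneg ?_ fun p hp _ => h2 p hp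
        exact hS.trans (Finset.filter_subset _ _)
    _ = ∑ p ∈ Finset.Ioc 0 s, (if p ≤ s then 2 / y else 2 * (1 / ((p : ℝ) - 1) - 1 / p)) +
        ∑ p ∈ Finset.Ioc s ⌊y⌋₊, (if p ≤ s then 2 / y else 2 * (1 / ((p : ℝ) - 1) - 1 / p)) :=
        (Finset.sum_Ioc_consecutive _ (Nat.zero_le _) hsy).symm
    _ = ∑ p ∈ Finset.Ioc 0 s, (2 / y) + ∑ p ∈ Finset.Ioc s ⌊y⌋₊, 2 * (1 / ((p : ℝ) - 1) - 1 / p) := by
        congr 1
        · refine Finset.sum_congr rfl fun p hp => ?_
          rw [if_pos (Finset.mem_Ioc.1 hp).2]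
        · refine Finset.sum_congr rfl fun p hp => ?_
          rw [if_neg (not_le.2 (Finset.mem_Ioc.1 hp).1)]
    _ = s * (2 / y) + 2 * (1 / (s : ℝ) - 1 / (⌊y⌋₊ : ℝ)) := by
        rw [← Finset.mul_sum, tele _ _ hspos hsy, Finset.sum_const, nsmul_eq_mul, Nat.card_Ioc,
          Nat.sub_zero]
    _ ≤ 2 / √y + 2 * (2 / √y) := by
        have h3 : (s : ℝ) * (2 / y) ≤ 2 / √y := by
          rw [← mul_div_assoc, div_le_div_iff₀ hy0 (by linarith)]
          nlinarith
        have h4 : 1 / (s : ℝ) ≤ 2 / √y := by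
          rw [div_le_div_iff₀ (by linarith) (by linarith)]
          linarith
        have h5 : (0 : ℝ) ≤ 1 / (⌊y⌋₊ : ℝ) := by positivity
        linarith
    _ = 6 / √y := by ring

/-- the sum of divisors case -/
theorem lower_sigma : ∃ C : ℝ, 0 < C ∧ ∀ {y z x : ℝ} {k : ℕ}, 8 ≤ y → 1 ≤ z → z ≤ y / 2 →
    k ≤ ((Finset.Ioc ⌊y - z⌋₊ ⌊y⌋₊).filter Nat.Prime).card → 0 < x →
    Chebyshev.psi y ≤ Real.log x →
    C / √y + k * (10 * z / y ^ 2) ≤ kk (Real.log y) → (2 : ℝ) ^ k ≤ EC x := by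
  classical
  obtain ⟨C3, hC3⟩ := Chebyshev.psi_sub_theta_le_mul_sqrt
  have hC30 : 0 ≤ C3 := by
    have h1 := hC3 1
    have h2 := Chebyshev.theta_le_psi 1
    simp at h1
    linarith
  refine ⟨8 + C3, by linarith, ?_⟩
  intro y z x k hy hz1 hz2 hk hx0 hx hkk
  have hy0 : 0 < y := by linarith
  have hs2 : 2 ≤ √y := by
    rw [Real.le_sqrt (by norm_num) hy0.le]; linarith
  have hss := Real.mul_self_sqrt hy0.le
  have hly : 1 ≤ Real.log y := by
    rw [Real.le_log_iff_exp_le hy0]
    have := Real.exp_one_lt_d9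
    linarith
  have hff0 : 0 < ff y := by unfold ff; positivity
  have hff1 : ff y ≤ 1 / y := by
    unfold ff
    apply one_div_le_one_div_of_le hy0
    nlinarith
  have key := family (k := k) (x := x) hy hz2 hk (aa y) (fun _ hp => aa_one_le hp) ExcS
    (by rw [← psi_aa]; exact hx) hx0
    (by
      intro A hA hAk
      obtain ⟨hApl, h6⟩ := prime_mem_facts hy hz2 (aa y) (fun _ hp => aa_one_le hp) hA
      set n := ∏ p ∈ PL y \ A, p ^ aa y p with hn
      have hprime : ∀ p ∈ PL y, p.Prime := fun p hp => (Finset.mem_filter.1 hp).2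
      have hS : ∀ p ∈ PL y \ A, p.Prime := fun p hp => hprime p (Finset.mem_sdiff.1 hp).1
      have hn0 : n ≠ 0 := by omega
      have hnpos : (0 : ℝ) < n := by exact_mod_cast Nat.pos_of_ne_zero hn0
      have h6' : (6 : ℝ) ≤ n := by exact_mod_cast h6
      refine ⟨by omega, ?_⟩
      have hpf : n.primeFactors = PL y \ A := primeFactors_prod (PL y \ A) (aa y) hS
        (fun p hp => aa_one_le (Finset.mem_sdiff.1 hp).1)
      have haA : ∀ p ∈ A, aa y p = 1 := by
        intro p hp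
        have h1 := hA hp
        rw [Finset.mem_filter, Finset.mem_Ioc] at h1
        have h2 : (y - z) < p := by
          have h2 := Nat.lt_floor_add_one (y - z)
          have h3 : ((⌊y - z⌋₊ + 1 : ℕ) : ℝ) ≤ p := by exact_mod_cast h1.1.1
          push_cast at h3
          linarith
        have h3 : y < (p : ℝ) ^ 2 := by nlinarith
        have h4 : ⌊y⌋₊ < p ^ 2 := by
          have : ((⌊y⌋₊ : ℕ) : ℝ) < ((p ^ 2 : ℕ) : ℝ) := by
            push_cast
            exact lt_of_le_of_lt (Nat.floor_le hy0.le) h3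
          exact_mod_cast this
        have h5 : Nat.log p ⌊y⌋₊ < 2 := Nat.log_lt_of_lt_pow (by
          have := h1.2.pos
          omega) h4
        have h6 := aa_one_le (hApl hp)
        unfold aa at h6 ⊢
        omega
      have hlogn : Real.log n = Chebyshev.psi y - ∑ p ∈ A, Real.log p := by
        have h1 := log_prod' (PL y \ A) (aa y) hS
        have h2 : ∑ p ∈ A, (aa y p : ℝ) * Real.log p = ∑ p ∈ A, Real.log p := by
          refine Finset.sum_congr rfl fun p hp => ?_
          rw [haA p hp]; simp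
        rw [hn, h1, psi_aa, ← Finset.sum_sdiff hApl, h2]
        ring
      have hlogσ : SS y - ∑ p ∈ A, wt p - 6 / √y ≤ Real.log ((ArithmeticFunction.sigma 1 n : ℝ) / n) := by
        rw [sigma_log hn0, hpf, Finset.sum_add_distrib]
        have h1 : ∑ p ∈ PL y \ A, Real.log (1 - ((p : ℝ)⁻¹) ^ (n.factorization p + 1)) =
            ∑ p ∈ PL y \ A, Real.log (1 - ((p : ℝ)⁻¹) ^ (aa y p + 1)) := by
          refine Finset.sum_congr rfl fun p hp => ?_
          rw [hn, fact_prod (PL y \ A) (aa y) hS, if_pos hp]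
        have h2 := loss_le hy (S := PL y \ A) Finset.sdiff_subset
        have h3 : SS y = ∑ p ∈ PL y \ A, wt p + ∑ p ∈ A, wt p := by
          unfold SS
          rw [← Finset.sum_sdiff hApl]
        rw [h1, h3]
        linarith
      have hlog1 : 1 < Real.log n := by
        rw [Real.lt_log_iff_exp_lt hnpos]
        have := Real.exp_one_lt_d9
        linarith
      have hconc := loglog_le hlog1 (show 1 < y by linarith)
      have hcost := cost_sum hy hz1 hz2 hA hAk
      rw [Finset.sum_sub_distrib, ← Finset.mul_sum] at hcost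
      have hDD := DD_lower (show 2 ≤ y by linarith)
      have hll : 0 < Real.log (Real.log n) := Real.log_pos hlog1
      have h7 : Real.log (Real.log (Real.log n)) ≤ Real.log (Real.log y) + ff y * (Real.log n - y) := hconc
      have h8 : ff y * (Chebyshev.psi y - Chebyshev.theta y) ≤ C3 / √y := by
        have h9 := hC3 y
        have h10 := Chebyshev.theta_le_psi y
        calc ff y * (Chebyshev.psi y - Chebyshev.theta y) ≤ 1 / y * (C3 * √y) := by
              refine mul_le_mul hff1 h9 (by linarith) (by positivity)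
          _ = C3 / √y := by
              rw [one_div, ← div_eq_inv_mul, div_eq_div_iff hy0.ne' (by linarith)]
              nlinarith
      have h9 : 2 / y ≤ 2 / √y := by
        apply div_le_div_of_nonneg_left (by norm_num) (by linarith)
        nlinarith
      have hfin : Real.eulerMascheroniConstant + Real.log (Real.log (Real.log n)) ≤
          Real.log ((ArithmeticFunction.sigma 1 n : ℝ) / n) := by
        rw [hlogn] at h7 ⊢
        unfold DD at hDD
        have e1 : ff y * (Chebyshev.psi y - ∑ p ∈ A, Real.log p - y) =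
          ff y * (Chebyshev.theta y - y) + ff y * (Chebyshev.psi y - Chebyshev.theta y) -
            ff y * ∑ p ∈ A, Real.log p := by ring
        rw [e1] at h7
        have e2 : (8 + C3) / √y = 8 / √y + C3 / √y := by ring
        rw [e2] at hkk
        have e3 : 8 / √y = 6 / √y + 2 / √y := by ring
        rw [e3] at hkk
        linarith
      have hσ : (0 : ℝ) < ArithmeticFunction.sigma 1 n := by
        exact_mod_cast ArithmeticFunction.sigma_pos 1 n hn0
      rw [← Real.log_exp Real.eulerMascheroniConstant,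
        ← Real.log_mul (Real.exp_ne_zero _) hll.ne',
        Real.log_le_log_iff (by positivity) (by positivity), le_div_iff₀ hnpos] at hfin
      linarith)
  unfold EC
  exact_mod_cast key

end

end Pool.Agent.V11272.RB
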