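import Pool.Agent.V11272.RB.Fin
import Pool.Agent.H313R3.TK.J

set_option autoImplicit false

/-! The growth exponents. -/

namespace Pool.Agent.V11272.RB

open Filter Topology Set MeasureTheory

noncomputable section

/-- real parts of the nontrivial zeros -/
def ReZ : Set ℝ := {σ : ℝ | ∃ s : ℂ, riemannZeta s = 0 ∧ 0 < s.re ∧ s.re = σ}

/-- the supremum of the real parts of the nontrivial zeros -/
def Th : ℝ := sSup ReZ

lemma ReZ_bdd : ∀ σ ∈ ReZ, σ < 1 := by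
  rintro σ ⟨s, hs, _, rfl⟩
  exact (Pool.Agent.W190.zero_FF hs).2

lemma ReZ_ne : ∃ σ ∈ ReZ, 1 / 2 ≤ σ := by
  obtain ⟨ρ, h1, h2, _⟩ := H313.TK.exists_zero
  exact ⟨ρ.re, ⟨ρ, h1, by linarith, rfl⟩, h2⟩

lemma ReZ_lub : IsLUB ReZ Th := by
  obtain ⟨σ, hσ, _⟩ := ReZ_ne
  exact isLUB_csSup ⟨σ, hσ⟩ ⟨1, fun σ hσ => (ReZ_bdd σ hσ).le⟩

lemma Th_ge : 1 / 2 ≤ Th := by
  obtain ⟨σ, hσ, h⟩ := ReZ_ne
  exact h.trans (ReZ_lub.1 hσ)

lemma Th_le : Th ≤ 1 := ReZ_lub.2 fun σ hσ => (ReZ_bdd σ hσ).le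

lemma Th_free : ∀ s : ℂ, Th < s.re → riemannZeta s ≠ 0 := by
  intro s hs h
  have h0 := Th_ge
  have : s.re ≤ Th := ReZ_lub.1 ⟨s, h, by linarith, rfl⟩
  linarith

lemma Th_zero : ∀ δ > 0, ∃ ρ : ℂ, riemannZeta ρ = 0 ∧ Th - δ < ρ.re := by
  intro δ hδ
  obtain ⟨σ, ⟨s, h1, _, h3⟩, h4, _⟩ := ReZ_lub.exists_between (show Th - δ < Th by linarith)
  exact ⟨s, h1, by rw [h3]; exact h4⟩

lemma Th_le_iff {θ : ℝ} (_h0 : 0 ≤ θ) : Th ≤ θ ↔ ∀ s : ℂ, θ < s.re → riemannZeta s ≠ 0 := by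
  constructor
  · intro h s hs
    exact Th_free s (by linarith)
  · intro h
    refine ReZ_lub.2 ?_
    rintro σ ⟨s, hs, _, rfl⟩
    by_contra hc
    push Not at hc
    exact h s hc hs

lemma rh_iff_Th : RiemannHypothesis ↔ Th = 1 / 2 := by
  rw [Pool.Agent.W190.rh_free, ← Th_le_iff (by norm_num)]
  exact ⟨fun h => le_antisymm h Th_ge, fun h => h.le⟩

lemma EC_nonneg (x : ℝ) : 0 ≤ EC x := Nat.cast_nonneg _

lemma FC_le_self {x : ℝ} (hx : 0 ≤ x) : FC x ≤ x := by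
  classical
  unfold FC
  calc (((Finset.Icc 3 ⌊x⌋₊).filter Exc).card : ℝ) ≤ ((Finset.Icc 3 ⌊x⌋₊).card : ℝ) := by
        exact_mod_cast Finset.card_filter_le _ _
    _ ≤ (⌊x⌋₊ : ℝ) := by
        rw [Nat.card_Icc]
        exact_mod_cast (by omega : ⌊x⌋₊ + 1 - 3 ≤ ⌊x⌋₊)
    _ ≤ x := Nat.floor_le hx

/-- upper bound with the exponent -/
theorem upper_FC {ε : ℝ} (hε : 0 < ε) :
    ∀ᶠ x : ℝ in atTop, FC x ≤ Real.exp ((Real.log x) ^ ((1 + Th) / 2 + ε)) := by
  rcases Th_le.eq_or_lt with h1 | h1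
  · filter_upwards [eventually_ge_atTop (3 : ℝ)] with x hx
    refine (FC_le_self (by linarith)).trans ?_
    have hlog : 1 ≤ Real.log x := by
      rw [Real.le_log_iff_exp_le (by linarith)]
      have := Real.exp_one_lt_d9
      linarith
    nth_rewrite 1 [← Real.exp_log (show 0 < x by linarith)]
    rw [Real.exp_le_exp]
    calc Real.log x = (Real.log x) ^ (1 : ℝ) := (Real.rpow_one _).symm
      _ ≤ _ := Real.rpow_le_rpow_of_exponent_le hlog (by rw [h1]; linarith)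
  · exact upper_pow Th_ge h1 hε Th_free

/-- generic conversion into a limit -/
lemma tendsto_of_bounds {G : ℝ → ℝ} {a : ℝ}
    (hl : ∀ ε > 0, ∀ᶠ x : ℝ in atTop, Real.exp ((Real.log x) ^ (a - ε)) ≤ G x)
    (hu : ∀ ε > 0, ∀ᶠ x : ℝ in atTop, G x ≤ Real.exp ((Real.log x) ^ (a + ε))) :
    Tendsto (fun x : ℝ => Real.log (Real.log (G x)) / Real.log (Real.log x)) atTop (𝓝 a) := by
  rw [Metric.tendsto_atTop']
  intro ε hε
  have hll : ∀ᶠ x : ℝ in atTop, 1 ≤ Real.log (Real.log x) :=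
    (Real.tendsto_log_atTop.comp Real.tendsto_log_atTop).eventually_ge_atTop 1
  have key : ∀ᶠ x : ℝ in atTop,
      dist (Real.log (Real.log (G x)) / Real.log (Real.log x)) a < ε := by
    filter_upwards [hl (ε / 2) (by linarith), hu (ε / 2) (by linarith), hll,
      Real.tendsto_log_atTop.eventually_ge_atTop 1] with x h1 h2 h3 h4
    have hL0 : 0 < Real.log x := by linarith
    have hG0 : 0 < G x := (Real.exp_pos _).trans_le h1
    have h5 : (Real.log x) ^ (a - ε / 2) ≤ Real.log (G x) := by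
      rwa [Real.le_log_iff_exp_le hG0]
    have h6 : Real.log (G x) ≤ (Real.log x) ^ (a + ε / 2) := by
      rwa [Real.log_le_iff_le_exp hG0]
    have hp : 0 < (Real.log x) ^ (a - ε / 2) := by positivity
    have hlG : 0 < Real.log (G x) := hp.trans_le h5
    have h7 : (a - ε / 2) * Real.log (Real.log x) ≤ Real.log (Real.log (G x)) := by
      rw [← Real.log_rpow hL0]
      exact Real.log_le_log hp h5
    have h8 : Real.log (Real.log (G x)) ≤ (a + ε / 2) * Real.log (Real.log x) := by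
      rw [← Real.log_rpow hL0]
      exact Real.log_le_log hlG h6
    have h9 : a - ε / 2 ≤ Real.log (Real.log (G x)) / Real.log (Real.log x) := by
      rw [le_div_iff₀ (by linarith)]; exact h7
    have h10 : Real.log (Real.log (G x)) / Real.log (Real.log x) ≤ a + ε / 2 := by
      rw [div_le_iff₀ (by linarith)]; exact h8
    rw [Real.dist_eq, abs_lt]
    constructor <;> linarith
  obtain ⟨N, hN⟩ := eventually_atTop.1 key
  exact ⟨N, fun x hx => hN x (le_of_lt hx)⟩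

theorem FC_limit : Tendsto (fun x : ℝ => Real.log (Real.log (FC x)) / Real.log (Real.log x)) atTop
    (𝓝 ((1 + Th) / 2)) :=
  tendsto_of_bounds (fun _ hε => lower_FC Th_ge Th_le hε Th_free Th_zero)
    (fun _ hε => upper_FC hε)

theorem EC_limit (h : 1 / 2 < Th) :
    Tendsto (fun x : ℝ => Real.log (Real.log (EC x)) / Real.log (Real.log x)) atTop
    (𝓝 ((1 + Th) / 2)) :=
  tendsto_of_bounds (fun _ hε => lower_EC h Th_le hε Th_free Th_zero)
    (fun _ hε => (upper_FC hε).mono fun x hx => (EC_le_FC x).trans hx)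

/-- few exceptions imply a zero-free half-plane -/
theorem free_of_few {θ : ℝ} (h0 : 1 / 2 ≤ θ)
    (h : ∀ ε > 0, ∃ᶠ x : ℝ in atTop, EC x ≤ Real.exp ((Real.log x) ^ ((1 + θ) / 2 + ε))) : Th ≤ θ := by
  by_contra hc
  push Not at hc
  have h1 := lower_EC (ε := (Th - θ) / 8) (by linarith) Th_le (by linarith) Th_free Th_zero
  obtain ⟨x, hx1, hx2, hx3⟩ := ((h ((Th - θ) / 8) (by linarith)).and_eventually
    (h1.and (Real.tendsto_log_atTop.eventually_gt_atTop 1))).exists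
  have h2 := Real.exp_le_exp.1 (hx2.trans hx1)
  have h3 := (Real.rpow_le_rpow_left_iff hx3).1 h2
  linarith

end

end Pool.Agent.V11272.RB
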