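import Pool.Agent.V11272.RB.Inp
import Pool.Agent.H305R2.MertensE

set_option autoImplicit false

/-! Mertens' product with the error term in terms of `kk`. -/

namespace Pool.Agent.V11272.RB

open Filter Topology MeasureTheory Set

noncomputable section

/-- the primes up to `y` -/
def PL (y : ℝ) : Finset ℕ := (Finset.Ioc 0 ⌊y⌋₊).filter Nat.Prime

/-- `-log (1 - 1/p)` -/
def wt (p : ℕ) : ℝ := -Real.log (1 - (p : ℝ)⁻¹)

/-- the logarithm of Mertens' product -/
def SS (y : ℝ) : ℝ := ∑ p ∈ PL y, wt p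

/-- `1 / (t log t)` -/
def ff (t : ℝ) : ℝ := 1 / (t * Real.log t)

/-- `(1 + log t) / (t log t)^2` -/
def qq (t : ℝ) : ℝ := (1 + Real.log t) / (t * Real.log t) ^ 2

/-- the deviation -/
def DD (y : ℝ) : ℝ := SS y - Real.eulerMascheroniConstant - Real.log (Real.log y) -
  ff y * (Chebyshev.theta y - y)

lemma theta_eq (y : ℝ) : Chebyshev.theta y = ∑ p ∈ PL y, Real.log p := rfl

lemma wt_lower {p : ℕ} (hp : 2 ≤ p) : (p : ℝ)⁻¹ ≤ wt p := by
  have h2 : (2 : ℝ) ≤ p := by exact_mod_cast hp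
  have h1 : (p : ℝ)⁻¹ ≤ 2⁻¹ := inv_anti₀ (by norm_num) h2
  have := Real.log_le_sub_one_of_pos (show 0 < 1 - (p : ℝ)⁻¹ by linarith)
  unfold wt
  linarith

lemma wt_upper {p : ℕ} (hp : 2 ≤ p) : wt p ≤ 1 / ((p : ℝ) - 1) := by
  have h2 : (2 : ℝ) ≤ p := by exact_mod_cast hp
  have h1 : (p : ℝ)⁻¹ ≤ 2⁻¹ := inv_anti₀ (by norm_num) h2
  have h3 : 0 < 1 - (p : ℝ)⁻¹ := by linarith
  have := Real.one_sub_inv_le_log_of_pos h3
  have h4 : (1 - (p : ℝ)⁻¹)⁻¹ = 1 + 1 / ((p : ℝ) - 1) := by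
    have : (p : ℝ) ≠ 0 := by positivity
    have : (p : ℝ) - 1 ≠ 0 := by linarith
    field_simp
    ring
  unfold wt
  rw [h4] at this
  linarith

lemma wt_diff {p : ℕ} (hp : 2 ≤ p) : wt p - (p : ℝ)⁻¹ ≤ 1 / ((p : ℝ) - 1) - 1 / p := by
  have := wt_upper hp
  rw [one_div (p : ℝ)]
  linarith

lemma ff_hasDeriv {t : ℝ} (ht : 2 ≤ t) : HasDerivAt ff (-qq t) t := by
  have ht0 : t ≠ 0 := by linarith
  have hl : Real.log t ≠ 0 := (Real.log_pos (by linarith)).ne'
  have h1 : HasDerivAt (fun t : ℝ => t * Real.log t) (1 * Real.log t + t * t⁻¹) t :=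
    (hasDerivAt_id t).mul (Real.hasDerivAt_log ht0)
  have h2 := h1.inv (mul_ne_zero ht0 hl)
  have e : ff = fun t : ℝ => (t * Real.log t)⁻¹ := by
    funext t; unfold ff; rw [one_div]
  rw [e]
  refine h2.congr_deriv ?_
  unfold qq
  field_simp
  ring

lemma HH_hasDeriv {t : ℝ} (ht : 2 ≤ t) :
    HasDerivAt (fun t => Real.log (Real.log t) - t * ff t) (t * qq t) t := by
  have ht0 : t ≠ 0 := by linarith
  have hl : Real.log t ≠ 0 := (Real.log_pos (by linarith)).ne'
  have h1 : HasDerivAt (fun t : ℝ => Real.log (Real.log t)) (t⁻¹ / Real.log t) t :=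
    (Real.hasDerivAt_log ht0).log hl
  have h2 : HasDerivAt (fun t : ℝ => t * ff t) (1 * ff t + t * (-qq t)) t :=
    (hasDerivAt_id t).mul (ff_hasDeriv ht)
  refine (h1.sub h2).congr_deriv ?_
  unfold qq ff
  field_simp
  ring

lemma qq_cont : ContinuousOn qq (Ici 2) := by
  intro t ht
  have ht' : (2 : ℝ) ≤ t := ht
  have ht0 : t ≠ 0 := by linarith
  have hl : Real.log t ≠ 0 := (Real.log_pos (by linarith)).ne'
  refine ContinuousAt.continuousWithinAt ?_
  unfold qq
  have h1 := Real.continuousAt_log ht0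
  exact (continuousAt_const.add h1).div ((continuousAt_id.mul h1).pow 2)
    (pow_ne_zero _ (mul_ne_zero ht0 hl))

lemma qq_nonneg {t : ℝ} (ht : 2 ≤ t) : 0 ≤ qq t := by
  have hl : 0 < Real.log t := Real.log_pos (by linarith)
  unfold qq
  positivity

lemma qq_le {t : ℝ} (ht : 2 ≤ t) : qq t ≤ 4 / t ^ 2 := by
  have ht0 : 0 < t := by linarith
  have hl : Real.log 2 ≤ Real.log t := Real.log_le_log (by norm_num) ht
  have hL := Real.log_two_gt_d9
  have hl0 : 0 < Real.log t := by linarith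
  unfold qq
  rw [mul_pow, div_le_div_iff₀ (by positivity) (by positivity)]
  have : 1 + Real.log t ≤ 4 * Real.log t ^ 2 := by nlinarith
  nlinarith [sq_nonneg t]

/-- Abel summation for the sum of `1/p` -/
lemma abel {y N : ℝ} (hy : 2 ≤ y) (hN : y ≤ N) :
    ∑ p ∈ (Finset.Ioc ⌊y⌋₊ ⌊N⌋₊).filter Nat.Prime, (p : ℝ)⁻¹ =
      ff N * Chebyshev.theta N - ff y * Chebyshev.theta y +
        ∫ t in y..N, qq t * Chebyshev.theta t := by
  set c : ℕ → ℝ := fun k => if k.Prime then Real.log k else 0 with hc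
  have hsub : ∀ t ∈ Icc y N, 2 ≤ t := fun t ht => hy.trans ht.1
  have hcont : ContinuousOn (fun t => -qq t) (Icc y N) :=
    (qq_cont.mono fun t ht => hsub t ht).neg
  have hint : IntegrableOn (deriv ff) (Icc y N) := by
    refine (hcont.integrableOn_Icc).congr_fun (fun t ht => ?_) measurableSet_Icc
    exact ((ff_hasDeriv (hsub t ht)).deriv).symm
  have key := sum_mul_eq_sub_sub_integral_mul c (f := ff) (a := y) (b := N) (by linarith) hN
    (fun t ht => (ff_hasDeriv (hsub t ht)).differentiableAt) hint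
  have hθ : ∀ t : ℝ, ∑ k ∈ Finset.Icc 0 ⌊t⌋₊, c k = Chebyshev.theta t := by
    intro t
    rw [Chebyshev.theta_eq_sum_Icc, Finset.sum_filter]
  rw [hθ, hθ] at key
  have e1 : ∑ k ∈ Finset.Ioc ⌊y⌋₊ ⌊N⌋₊, ff k * c k =
      ∑ p ∈ (Finset.Ioc ⌊y⌋₊ ⌊N⌋₊).filter Nat.Prime, (p : ℝ)⁻¹ := by
    rw [Finset.sum_filter]
    refine Finset.sum_congr rfl fun k _ => ?_
    rw [hc]
    simp only
    split_ifs with h
    · have h2 : (2 : ℝ) ≤ k := by exact_mod_cast h.two_le
      have hl : Real.log k ≠ 0 := (Real.log_pos (by linarith)).ne'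
      have hk : (k : ℝ) ≠ 0 := by linarith
      unfold ff
      field_simp
    · rw [mul_zero]
  have e2 : ∫ t in Ioc y N, deriv ff t * ∑ k ∈ Finset.Icc 0 ⌊t⌋₊, c k =
      -∫ t in y..N, qq t * Chebyshev.theta t := by
    rw [intervalIntegral.integral_of_le hN, ← integral_neg]
    refine setIntegral_congr_fun measurableSet_Ioc fun t ht => ?_
    rw [hθ, (ff_hasDeriv (hsub t ⟨ht.1.le, ht.2⟩)).deriv]
    ring
  rw [e1, e2] at key
  rw [key]
  ring

lemma theta_int {y N : ℝ} (hy : 2 ≤ y) (hN : y ≤ N) :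
    IntervalIntegrable (fun t => qq t * Chebyshev.theta t) volume y N := by
  rw [intervalIntegrable_iff_integrableOn_Ioc_of_le hN]
  have h1 : IntegrableOn Chebyshev.theta (Icc y N) :=
    (Chebyshev.theta_mono.monotoneOn _).integrableOn_isCompact isCompact_Icc
  have h2 := h1.continuousOn_mul (qq_cont.mono fun t ht => hy.trans ht.1) isCompact_Icc
  exact h2.mono_set Ioc_subset_Icc_self

lemma psi_int {y N : ℝ} (hy : 2 ≤ y) (hN : y ≤ N) :
    IntervalIntegrable (fun t => qq t * Chebyshev.psi t) volume y N := by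
  rw [intervalIntegrable_iff_integrableOn_Ioc_of_le hN]
  have h1 : IntegrableOn Chebyshev.psi (Icc y N) :=
    (Chebyshev.psi_mono.monotoneOn _).integrableOn_isCompact isCompact_Icc
  have h2 := h1.continuousOn_mul (qq_cont.mono fun t ht => hy.trans ht.1) isCompact_Icc
  exact h2.mono_set Ioc_subset_Icc_self

lemma id_int {y N : ℝ} (hy : 2 ≤ y) (hN : y ≤ N) :
    IntervalIntegrable (fun t => t * qq t) volume y N := by
  refine ContinuousOn.intervalIntegrable ?_
  rw [uIcc_of_le hN]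
  exact continuousOn_id.mul (qq_cont.mono fun t ht => hy.trans ht.1)

lemma H_int {y N : ℝ} (hy : 2 ≤ y) (hN : y ≤ N) :
    ∫ t in y..N, t * qq t = (Real.log (Real.log N) - N * ff N) - (Real.log (Real.log y) - y * ff y) := by
  refine intervalIntegral.integral_eq_sub_of_hasDerivAt
    (f := fun t => Real.log (Real.log t) - t * ff t) (fun t ht => ?_) (id_int hy hN)
  rw [uIcc_of_le hN] at ht
  exact HH_hasDeriv (hy.trans ht.1)

/-- change of variables -/
lemma kk_diff {y N : ℝ} (hy : 2 ≤ y) (hN : y ≤ N) :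
    ∫ t in y..N, qq t * (Chebyshev.psi t - t) = kk (Real.log N) - kk (Real.log y) := by
  have hy0 : 0 < y := by linarith
  have hN0 : 0 < N := by linarith
  have hl : Real.log y ≤ Real.log N := Real.log_le_log hy0 hN
  have h2 : Real.log 2 ≤ Real.log y := Real.log_le_log (by norm_num) hy
  have hk : kk (Real.log N) - kk (Real.log y) = ∫ u in (Real.log y)..(Real.log N), dl u := by
    unfold kk
    have := intervalIntegral.integral_interval_sub_left (f := dl) (μ := volume) (a := Real.log 2)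
      (b := Real.log N) (c := Real.log y) integrable_dl.intervalIntegrable
      integrable_dl.intervalIntegrable
    linarith
  rw [hk, intervalIntegral.integral_of_le hN, intervalIntegral.integral_of_le hl]
  have himg : Real.exp '' (Ioc (Real.log y) (Real.log N)) = Ioc y N := by
    ext t
    constructor
    · rintro ⟨u, hu, rfl⟩
      exact ⟨(Real.log_lt_iff_lt_exp hy0).1 hu.1, (Real.le_log_iff_exp_le hN0).1 hu.2⟩
    · intro ht
      have ht0 : 0 < t := hy0.trans ht.1
      exact ⟨Real.log t, ⟨Real.log_lt_log hy0 ht.1, Real.log_le_log ht0 ht.2⟩, Real.exp_log ht0⟩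
  rw [← himg, integral_image_eq_integral_abs_deriv_smul measurableSet_Ioc
    (fun u _ => (Real.hasDerivAt_exp u).hasDerivWithinAt) Real.exp_injective.injOn]
  refine setIntegral_congr_fun measurableSet_Ioc fun u hu => ?_
  have hu2 : Real.log 2 < u := lt_of_le_of_lt h2 hu.1
  have hu0 : u ≠ 0 := (L2_pos.trans hu2).ne'
  rw [dl_of_gt hu2, abs_of_pos (Real.exp_pos u), smul_eq_mul]
  unfold qq Fp
  rw [Real.log_exp, Real.exp_neg]
  have := Real.exp_ne_zero u
  field_simp
  ring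

lemma tele (a b : ℕ) (_ha : 1 ≤ a) (hab : a ≤ b) :
    ∑ p ∈ Finset.Ioc a b, (1 / ((p : ℝ) - 1) - 1 / p) = 1 / (a : ℝ) - 1 / b := by
  induction b, hab using Nat.le_induction with
  | base => simp
  | succ b hb ih =>
    rw [Finset.sum_Ioc_succ_top (by omega), ih]
    push_cast
    ring

lemma SS_sub {y N : ℝ} (hN : y ≤ N) :
    SS N - SS y = ∑ p ∈ (Finset.Ioc ⌊y⌋₊ ⌊N⌋₊).filter Nat.Prime, wt p := by
  have h1 : PL N = PL y ∪ (Finset.Ioc ⌊y⌋₊ ⌊N⌋₊).filter Nat.Prime := by
    unfold PL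
    rw [← Finset.filter_union, Finset.Ioc_union_Ioc_eq_Ioc (Nat.zero_le _) (Nat.floor_le_floor hN)]
  have h2 : Disjoint (PL y) ((Finset.Ioc ⌊y⌋₊ ⌊N⌋₊).filter Nat.Prime) := by
    unfold PL
    refine Finset.disjoint_filter_filter ?_
    rw [Finset.disjoint_left]
    intro a ha hb
    rw [Finset.mem_Ioc] at ha hb
    omega
  unfold SS
  rw [h1, Finset.sum_union h2]
  ring

/-- the exact relation -/
lemma DD_sub {y N : ℝ} (hy : 2 ≤ y) (hN : y ≤ N) :
    DD N - DD y = (∑ p ∈ (Finset.Ioc ⌊y⌋₊ ⌊N⌋₊).filter Nat.Prime, (wt p - (p : ℝ)⁻¹)) +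
      (kk (Real.log N) - kk (Real.log y)) -
      ∫ t in y..N, qq t * (Chebyshev.psi t - Chebyshev.theta t) := by
  have h1 := abel hy hN
  have h2 := SS_sub hN
  have h3 := H_int hy hN
  have h4 := kk_diff hy hN
  have e1 : ∫ t in y..N, qq t * (Chebyshev.psi t - t) =
      (∫ t in y..N, qq t * Chebyshev.psi t) - ∫ t in y..N, t * qq t := by
    rw [← intervalIntegral.integral_sub (psi_int hy hN) (id_int hy hN)]
    refine intervalIntegral.integral_congr fun t _ => ?_
    ring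
  have e2 : ∫ t in y..N, qq t * (Chebyshev.psi t - Chebyshev.theta t) =
      (∫ t in y..N, qq t * Chebyshev.psi t) - ∫ t in y..N, qq t * Chebyshev.theta t := by
    rw [← intervalIntegral.integral_sub (psi_int hy hN) (theta_int hy hN)]
    refine intervalIntegral.integral_congr fun t _ => ?_
    ring
  rw [Finset.sum_sub_distrib, h1, ← h2, ← h4, e1, e2, h3]
  unfold DD
  ring

lemma psi_theta_int : ∃ C : ℝ, 0 ≤ C ∧ ∀ y N : ℝ, 2 ≤ y → y ≤ N →
    0 ≤ ∫ t in y..N, qq t * (Chebyshev.psi t - Chebyshev.theta t) ∧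
    ∫ t in y..N, qq t * (Chebyshev.psi t - Chebyshev.theta t) ≤ C * y ^ (-(1 / 2) : ℝ) := by
  obtain ⟨C, hC⟩ := Chebyshev.psi_sub_theta_le_mul_sqrt
  have hC0 : 0 ≤ C := by
    have h1 := hC 1
    have h2 := Chebyshev.theta_le_psi 1
    simp at h1
    linarith
  refine ⟨8 * C, by linarith, fun y N hy hN => ⟨?_, ?_⟩⟩
  · refine intervalIntegral.integral_nonneg hN fun t ht => ?_
    exact mul_nonneg (qq_nonneg (hy.trans ht.1)) (sub_nonneg.2 (Chebyshev.theta_le_psi t))
  · have hy0 : 0 < y := by linarith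
    have h0 : (0 : ℝ) ∉ uIcc y N := by
      rw [uIcc_of_le hN]
      intro h
      linarith [h.1]
    have hi : IntervalIntegrable (fun t : ℝ => 4 * C * t ^ (-(3 / 2) : ℝ)) volume y N := by
      refine (intervalIntegral.intervalIntegrable_rpow (Or.inr h0)).const_mul _
    have hi2 : IntervalIntegrable (fun t => qq t * (Chebyshev.psi t - Chebyshev.theta t)) volume y N := by
      have := (psi_int hy hN).sub (theta_int hy hN)
      refine this.congr (fun t _ => ?_)
      ring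
    calc ∫ t in y..N, qq t * (Chebyshev.psi t - Chebyshev.theta t)
        ≤ ∫ t in y..N, 4 * C * t ^ (-(3 / 2) : ℝ) := by
          refine intervalIntegral.integral_mono_on hN hi2 hi fun t ht => ?_
          have ht2 : 2 ≤ t := hy.trans ht.1
          have ht0 : 0 < t := by linarith
          have h1 := hC t
          have h2 := qq_le ht2
          have h3 := qq_nonneg ht2
          have h4 : 0 ≤ Chebyshev.psi t - Chebyshev.theta t := sub_nonneg.2 (Chebyshev.theta_le_psi t)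
          calc qq t * (Chebyshev.psi t - Chebyshev.theta t) ≤ 4 / t ^ 2 * (C * √t) := by gcongr
            _ = 4 * C * t ^ (-(3 / 2) : ℝ) := by
              rw [Real.sqrt_eq_rpow, show (-(3 / 2) : ℝ) = 1 / 2 - 2 by norm_num,
                Real.rpow_sub ht0, Real.rpow_ofNat]
              ring
      _ ≤ 8 * C * y ^ (-(1 / 2) : ℝ) := by
          rw [intervalIntegral.integral_const_mul, integral_rpow (Or.inr ⟨by norm_num, h0⟩)]
          have e : (-(3 / 2) + 1 : ℝ) = -(1 / 2) := by norm_num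
          rw [e]
          have h5 : 0 ≤ N ^ (-(1 / 2) : ℝ) := Real.rpow_nonneg (by linarith) _
          have h6 : (N ^ (-(1 / 2) : ℝ) - y ^ (-(1 / 2) : ℝ)) / (-(1 / 2)) =
            2 * y ^ (-(1 / 2) : ℝ) - 2 * N ^ (-(1 / 2) : ℝ) := by ring
          rw [h6]
          nlinarith

lemma G_bound {y N : ℝ} (hy : 2 ≤ y) (hN : y ≤ N) :
    0 ≤ ∑ p ∈ (Finset.Ioc ⌊y⌋₊ ⌊N⌋₊).filter Nat.Prime, (wt p - (p : ℝ)⁻¹) ∧
    ∑ p ∈ (Finset.Ioc ⌊y⌋₊ ⌊N⌋₊).filter Nat.Prime, (wt p - (p : ℝ)⁻¹) ≤ 2 / y := by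
  have hfl : 2 ≤ ⌊y⌋₊ := Nat.le_floor (by exact_mod_cast hy)
  constructor
  · refine Finset.sum_nonneg fun p hp => ?_
    have := wt_lower (Finset.mem_filter.1 hp).2.two_le
    linarith
  · calc _ ≤ ∑ p ∈ (Finset.Ioc ⌊y⌋₊ ⌊N⌋₊).filter Nat.Prime, (1 / ((p : ℝ) - 1) - 1 / p) :=
          Finset.sum_le_sum fun p hp => wt_diff (Finset.mem_filter.1 hp).2.two_le
      _ ≤ ∑ p ∈ Finset.Ioc ⌊y⌋₊ ⌊N⌋₊, (1 / ((p : ℝ) - 1) - 1 / p) := by
          refine Finset.sum_le_sum_of_subset_of_nonneg (Finset.filter_subset _ _) fun p hp _ => ?_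
          have h1 : ⌊y⌋₊ < p := (Finset.mem_Ioc.1 hp).1
          have h2 : (2 : ℝ) < p := by
            have : 2 < p := by omega
            exact_mod_cast this
          rw [sub_nonneg]
          exact one_div_le_one_div_of_le (by linarith) (by linarith)
      _ = 1 / (⌊y⌋₊ : ℝ) - 1 / (⌊N⌋₊ : ℝ) := tele _ _ (by omega) (Nat.floor_le_floor hN)
      _ ≤ 1 / (⌊y⌋₊ : ℝ) := by
          have : (0 : ℝ) ≤ 1 / (⌊N⌋₊ : ℝ) := by positivity
          linarith
      _ ≤ 2 / y := by
          have h1 := Nat.lt_floor_add_one y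
          have h2 : (2 : ℝ) ≤ ⌊y⌋₊ := by exact_mod_cast hfl
          rw [div_le_div_iff₀ (by linarith) (by linarith)]
          linarith

/-- the deviation tends to zero along the integers -/
lemma DD_tendsto : Tendsto (fun N : ℕ => DD (N : ℝ)) atTop (𝓝 0) := by
  have h3 := Pool.Agent.H305R2.mertens_three
  have h4 := (Real.continuousAt_log (Real.exp_ne_zero Real.eulerMascheroniConstant)).tendsto.comp h3
  rw [Real.log_exp] at h4
  have hlog : Tendsto (fun N : ℕ => Real.log (N : ℝ)) atTop atTop :=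
    Real.tendsto_log_atTop.comp tendsto_natCast_atTop_atTop
  have h5 : Tendsto (fun N : ℕ => SS (N : ℝ) - Real.log (Real.log (N : ℝ))) atTop
      (𝓝 Real.eulerMascheroniConstant) := by
    refine h4.congr' ?_
    filter_upwards [eventually_ge_atTop 2] with N hN
    have hN2 : (2 : ℝ) ≤ N := by exact_mod_cast hN
    have hl : Real.log N ≠ 0 := (Real.log_pos (by linarith)).ne'
    have hpos : ∀ p ∈ (Finset.Icc 1 N).filter Nat.Prime, (1 - (p : ℝ)⁻¹)⁻¹ ≠ 0 := by
      intro p hp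
      have h2 : (2 : ℝ) ≤ p := by exact_mod_cast (Finset.mem_filter.1 hp).2.two_le
      have h1 : (p : ℝ)⁻¹ ≤ 2⁻¹ := inv_anti₀ (by norm_num) h2
      have : 0 < 1 - (p : ℝ)⁻¹ := by linarith
      positivity
    simp only [Function.comp_apply]
    rw [Real.log_div (Finset.prod_ne_zero_iff.2 hpos) hl, Real.log_prod hpos]
    have e : PL (N : ℝ) = (Finset.Icc 1 N).filter Nat.Prime := by
      unfold PL
      rw [Nat.floor_natCast]
      rfl
    unfold SS
    rw [e]
    congr 1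
    refine Finset.sum_congr rfl fun p _ => ?_
    rw [Real.log_inv]
    rfl
  have h6 : Tendsto (fun N : ℕ => ff (N : ℝ) * (Chebyshev.theta (N : ℝ) - N)) atTop (𝓝 0) := by
    have h7 : Tendsto (fun N : ℕ => (Real.log 4 + 1) / Real.log (N : ℝ)) atTop (𝓝 0) :=
      tendsto_const_nhds.div_atTop hlog
    refine squeeze_zero_norm' ?_ h7
    filter_upwards [eventually_ge_atTop 2] with N hN
    have hN2 : (2 : ℝ) ≤ N := by exact_mod_cast hN
    have hl : 0 < Real.log N := Real.log_pos (by linarith)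
    have h8 := Chebyshev.theta_le_log4_mul_x (x := (N : ℝ)) (by linarith)
    have h9 := Chebyshev.theta_nonneg (N : ℝ)
    have h10 : 0 < Real.log 4 := Real.log_pos (by norm_num)
    have h11 : |Chebyshev.theta (N : ℝ) - N| ≤ (Real.log 4 + 1) * N := by
      rw [abs_le]; constructor <;> nlinarith
    have h12 : 0 < ff (N : ℝ) := by unfold ff; positivity
    rw [Real.norm_eq_abs, abs_mul, abs_of_pos h12]
    calc ff (N : ℝ) * |Chebyshev.theta (N : ℝ) - N| ≤ ff (N : ℝ) * ((Real.log 4 + 1) * N) := by gcongr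
      _ = _ := by unfold ff; field_simp
  have h7 := (h5.sub_const Real.eulerMascheroniConstant).sub h6
  rw [sub_self, sub_zero] at h7
  refine h7.congr fun N => ?_
  unfold DD
  ring

lemma kk_log_tendsto : Tendsto (fun N : ℕ => kk (Real.log (N : ℝ))) atTop (𝓝 0) :=
  (kk_tendsto integrable_dl).comp (Real.tendsto_log_atTop.comp tendsto_natCast_atTop_atTop)

/-- the deviation, from below -/
theorem DD_lower {y : ℝ} (hy : 2 ≤ y) : kk (Real.log y) - 2 / y ≤ DD y := by
  obtain ⟨C, hC, h⟩ := psi_theta_int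
  have h1 : Tendsto (fun N : ℕ => DD (N : ℝ) - 2 / y - kk (Real.log (N : ℝ)) + kk (Real.log y)) atTop
      (𝓝 (0 - 2 / y - 0 + kk (Real.log y))) :=
    ((DD_tendsto.sub_const _).sub kk_log_tendsto).add_const _
  have e : 0 - 2 / y - 0 + kk (Real.log y) = kk (Real.log y) - 2 / y := by ring
  rw [e] at h1
  refine le_of_tendsto h1 ?_
  filter_upwards [(tendsto_natCast_atTop_atTop (R := ℝ)).eventually_ge_atTop y] with N hN
  have h2 := DD_sub hy hN
  have h3 := G_bound hy hN
  have h4 := h y N hy hN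
  linarith [h3.2, h4.1]

/-- the deviation, from above -/
theorem DD_upper : ∃ C : ℝ, 0 ≤ C ∧ ∀ y : ℝ, 2 ≤ y →
    DD y ≤ kk (Real.log y) + C * y ^ (-(1 / 2) : ℝ) := by
  obtain ⟨C, hC, h⟩ := psi_theta_int
  refine ⟨C, hC, fun y hy => ?_⟩
  have h1 : Tendsto (fun N : ℕ => DD (N : ℝ) - kk (Real.log (N : ℝ)) + kk (Real.log y) +
      C * y ^ (-(1 / 2) : ℝ)) atTop
      (𝓝 (0 - 0 + kk (Real.log y) + C * y ^ (-(1 / 2) : ℝ))) :=
    ((DD_tendsto.sub kk_log_tendsto).add_const _).add_const _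
  have e : 0 - 0 + kk (Real.log y) + C * y ^ (-(1 / 2) : ℝ) =
    kk (Real.log y) + C * y ^ (-(1 / 2) : ℝ) := by ring
  rw [e] at h1
  refine ge_of_tendsto h1 ?_
  filter_upwards [(tendsto_natCast_atTop_atTop (R := ℝ)).eventually_ge_atTop y] with N hN
  have h2 := DD_sub hy hN
  have h3 := G_bound hy hN
  have h4 := h y N hy hN
  linarith [h3.1, h4.2]

end

end Pool.Agent.V11272.RB
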