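import Pool.Agent.V11272.RB.Lap

set_option autoImplicit false

/-! Local oscillation from the Laplace transform. -/

namespace Pool.Agent.V11272.RB

open Complex Filter Topology MeasureTheory Set

noncomputable section

lemma tail_up (j : ℕ) {l x U : ℝ} (hl : 0 < l) (hx0 : 0 ≤ x) (hx1 : x < 1) (hU : 0 ≤ U) :
    ∫ u in Ioi U, u ^ j * Real.exp (-(l * u)) ≤
      Real.exp (-(l * x * U)) * ((j.factorial : ℝ) / (l * (1 - x)) ^ (j + 1)) := by
  have hl2 : 0 < l * (1 - x) := mul_pos hl (by linarith)
  have h1 := (int_pow_exp j hl2).1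
  have hsub : Ioi U ⊆ Ioi (0 : ℝ) := Ioi_subset_Ioi hU
  calc ∫ u in Ioi U, u ^ j * Real.exp (-(l * u))
      ≤ ∫ u in Ioi U, Real.exp (-(l * x * U)) * (u ^ j * Real.exp (-(l * (1 - x) * u))) := by
        refine setIntegral_mono_on ((int_pow_exp j hl).1.mono_set hsub)
          ((h1.mono_set hsub).const_mul _) measurableSet_Ioi fun u hu => ?_
        have hu1 : U < u := hu
        have hu0 : 0 ≤ u := hU.trans hu1.le
        have e : Real.exp (-(l * u)) = Real.exp (-(l * x * u)) * Real.exp (-(l * (1 - x) * u)) := by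
          rw [← Real.exp_add]; congr 1; ring
        rw [e]
        have h2 : Real.exp (-(l * x * u)) ≤ Real.exp (-(l * x * U)) := by
          apply Real.exp_le_exp.2
          have : 0 ≤ l * x := by positivity
          nlinarith
        calc u ^ j * (Real.exp (-(l * x * u)) * Real.exp (-(l * (1 - x) * u)))
            = Real.exp (-(l * x * u)) * (u ^ j * Real.exp (-(l * (1 - x) * u))) := by ring
          _ ≤ _ := mul_le_mul_of_nonneg_right h2 (by positivity)
    _ = Real.exp (-(l * x * U)) * ∫ u in Ioi U, (u ^ j * Real.exp (-(l * (1 - x) * u))) :=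
        integral_const_mul _ _
    _ ≤ _ := by
        refine mul_le_mul_of_nonneg_left ?_ (Real.exp_pos _).le
        rw [← (int_pow_exp j hl2).2]
        refine setIntegral_mono_set h1 ?_ hsub.eventuallyLE
        filter_upwards [ae_restrict_mem measurableSet_Ioi] with u hu
        have : (0 : ℝ) < u := hu
        simp only [Pi.zero_apply]
        positivity

lemma tail_lo (j : ℕ) {l x V : ℝ} (hl : 0 < l) (hx0 : 0 ≤ x) :
    ∫ u in Ioc 0 V, u ^ j * Real.exp (-(l * u)) ≤
      Real.exp (l * x * V) * ((j.factorial : ℝ) / (l * (1 + x)) ^ (j + 1)) := by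
  have hl2 : 0 < l * (1 + x) := mul_pos hl (by linarith)
  have h1 := (int_pow_exp j hl2).1
  have hsub : Ioc 0 V ⊆ Ioi (0 : ℝ) := fun u hu => hu.1
  calc ∫ u in Ioc 0 V, u ^ j * Real.exp (-(l * u))
      ≤ ∫ u in Ioc 0 V, Real.exp (l * x * V) * (u ^ j * Real.exp (-(l * (1 + x) * u))) := by
        refine setIntegral_mono_on ((int_pow_exp j hl).1.mono_set hsub)
          ((h1.mono_set hsub).const_mul _) measurableSet_Ioc fun u hu => ?_
        have hu0 : 0 ≤ u := hu.1.le
        have e : Real.exp (-(l * u)) = Real.exp (l * x * u) * Real.exp (-(l * (1 + x) * u)) := by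
          rw [← Real.exp_add]; congr 1; ring
        rw [e]
        have h2 : Real.exp (l * x * u) ≤ Real.exp (l * x * V) := by
          apply Real.exp_le_exp.2
          have : 0 ≤ l * x := by positivity
          exact mul_le_mul_of_nonneg_left hu.2 this
        calc u ^ j * (Real.exp (l * x * u) * Real.exp (-(l * (1 + x) * u)))
            = Real.exp (l * x * u) * (u ^ j * Real.exp (-(l * (1 + x) * u))) := by ring
          _ ≤ _ := mul_le_mul_of_nonneg_right h2 (by positivity)
    _ = Real.exp (l * x * V) * ∫ u in Ioc 0 V, (u ^ j * Real.exp (-(l * (1 + x) * u))) :=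
        integral_const_mul _ _
    _ ≤ _ := by
        refine mul_le_mul_of_nonneg_left ?_ (Real.exp_pos _).le
        rw [← (int_pow_exp j hl2).2]
        refine setIntegral_mono_set h1 ?_ hsub.eventuallyLE
        filter_upwards [ae_restrict_mem measurableSet_Ioi] with u hu
        have : (0 : ℝ) < u := hu
        simp only [Pi.zero_apply]
        positivity

/-- the saving -/
def EE (x : ℝ) : ℝ :=
  max (Real.exp (-(x / (1 - x))) / (1 - x)) (Real.exp (x * (1 - 2 * x) / (1 - x)) / (1 + x))

lemma EE_pos {x : ℝ} (hx0 : 0 < x) (hx1 : x < 1 / 2) : 0 < EE x := by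
  unfold EE
  refine lt_max_of_lt_left (div_pos (Real.exp_pos _) (by linarith))

lemma EE_lt {x : ℝ} (hx0 : 0 < x) (hx1 : x < 1 / 2) : EE x < 1 := by
  unfold EE
  have h1 : 0 < 1 - x := by linarith
  refine max_lt ?_ ?_
  · rw [div_lt_one h1]
    have h2 : x / (1 - x) + 1 < Real.exp (x / (1 - x)) :=
      Real.add_one_lt_exp (by positivity)
    have h3 : x / (1 - x) + 1 = (1 - x)⁻¹ := by field_simp; ring
    rw [h3] at h2
    rw [Real.exp_neg]
    have h4 := inv_strictAnti₀ (by positivity) h2
    rwa [inv_inv] at h4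
  · rw [div_lt_one (by linarith)]
    set y := x * (1 - 2 * x) / (1 - x) with hy
    have hy1 : y < x / (1 + x) := by
      rw [hy, div_lt_div_iff₀ h1 (by linarith)]
      nlinarith [pow_pos hx0 3]
    have hx2 : x / (1 + x) < 1 := by rw [div_lt_one (by linarith)]; linarith
    have h2 := Real.add_one_le_exp (-y)
    have h3 : 0 < 1 - y := by linarith
    have h5 : Real.exp y ≤ (1 - y)⁻¹ := by
      have h6 : Real.exp y = (Real.exp (-y))⁻¹ := by rw [Real.exp_neg, inv_inv]
      rw [h6]
      exact inv_anti₀ h3 (by linarith)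
    have h7 : (1 - y)⁻¹ < 1 + x := by
      rw [inv_lt_comm₀ h3 (by linarith)]
      have : (1 + x)⁻¹ = 1 - x / (1 + x) := by field_simp; ring
      rw [this]
      linarith
    linarith

variable {a : ℝ} {kk : ℝ → ℝ} {α C : ℝ}

lemma tails (j : ℕ) {l x U : ℝ} (hl : 0 < l) (hx0 : 0 < x) (hx1 : x < 1 / 2) (hU : 0 ≤ U)
    (hj1 : (j : ℝ) ≤ (1 - x) * (l * U)) (hj2 : (1 - x) * (l * U) ≤ j + 2) :
    (∫ u in Ioc 0 ((1 - 2 * x) * U), u ^ j * Real.exp (-(l * u))) +
      ∫ u in Ioi U, u ^ j * Real.exp (-(l * u)) ≤ (4 * Real.exp 4 / l) * (j.factorial * (EE x / l) ^ j) := by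
  have h1 : 0 < 1 - x := by linarith
  have a1 := tail_up j hl hx0.le (by linarith) hU
  have a2 := tail_lo j (V := (1 - 2 * x) * U) hl hx0.le
  have b1 : Real.exp (-(l * x * U)) * ((j.factorial : ℝ) / (l * (1 - x)) ^ (j + 1)) ≤
      (2 / l) * (j.factorial * (EE x / l) ^ j) := by
    have c1 : Real.exp (-(l * x * U)) ≤ (Real.exp (-(x / (1 - x)))) ^ j := by
      rw [← Real.exp_nat_mul]
      apply Real.exp_le_exp.2
      have : j * (x / (1 - x)) ≤ l * x * U := by
        rw [mul_div_assoc', div_le_iff₀ h1]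
        nlinarith
      linarith
    have c2 : (Real.exp (-(x / (1 - x)))) ^ j * ((j.factorial : ℝ) / (l * (1 - x)) ^ (j + 1)) =
        (1 / (l * (1 - x))) * (j.factorial * ((Real.exp (-(x / (1 - x))) / (1 - x)) / l) ^ j) := by
      rw [div_pow, div_pow, pow_succ, mul_pow]
      field_simp
    have c3 : (Real.exp (-(x / (1 - x))) / (1 - x)) ≤ EE x := le_max_left _ _
    calc _ ≤ (Real.exp (-(x / (1 - x)))) ^ j * ((j.factorial : ℝ) / (l * (1 - x)) ^ (j + 1)) := by
          gcongr
      _ = _ := c2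
      _ ≤ _ := by
          have c4 : 1 / (l * (1 - x)) ≤ 2 / l := by
            rw [div_le_div_iff₀ (by positivity) hl]
            nlinarith
          gcongr
  have b2 : Real.exp (l * x * ((1 - 2 * x) * U)) * ((j.factorial : ℝ) / (l * (1 + x)) ^ (j + 1)) ≤
      (Real.exp 4 / l) * (j.factorial * (EE x / l) ^ j) := by
    have c1 : Real.exp (l * x * ((1 - 2 * x) * U)) ≤
        Real.exp 4 * (Real.exp (x * (1 - 2 * x) / (1 - x))) ^ j := by
      rw [← Real.exp_nat_mul, ← Real.exp_add]
      apply Real.exp_le_exp.2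
      have h3 : l * U ≤ (j + 2) / (1 - x) := by
        rw [le_div_iff₀ h1]
        linarith
      have h4 : 0 ≤ x * (1 - 2 * x) := by
        have : 0 < 1 - 2 * x := by linarith
        positivity
      have h5 : l * x * ((1 - 2 * x) * U) ≤ x * (1 - 2 * x) * ((j + 2) / (1 - x)) := by
        calc l * x * ((1 - 2 * x) * U) = x * (1 - 2 * x) * (l * U) := by ring
          _ ≤ _ := mul_le_mul_of_nonneg_left h3 h4
      have h6 : x * (1 - 2 * x) * ((j + 2) / (1 - x)) =
          (j : ℝ) * (x * (1 - 2 * x) / (1 - x)) + 2 * (x * (1 - 2 * x) / (1 - x)) := by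
        field_simp
      have h7 : x * (1 - 2 * x) / (1 - x) ≤ 2 := by
        rw [div_le_iff₀ h1]
        nlinarith
      linarith
    have c2 : Real.exp 4 * (Real.exp (x * (1 - 2 * x) / (1 - x))) ^ j *
        ((j.factorial : ℝ) / (l * (1 + x)) ^ (j + 1)) =
        (Real.exp 4 / (l * (1 + x))) *
          (j.factorial * ((Real.exp (x * (1 - 2 * x) / (1 - x)) / (1 + x)) / l) ^ j) := by
      rw [div_pow, div_pow, pow_succ, mul_pow]
      field_simp
    have c3 : (Real.exp (x * (1 - 2 * x) / (1 - x)) / (1 + x)) ≤ EE x := le_max_right _ _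
    calc _ ≤ Real.exp 4 * (Real.exp (x * (1 - 2 * x) / (1 - x))) ^ j *
        ((j.factorial : ℝ) / (l * (1 + x)) ^ (j + 1)) := by gcongr
      _ = _ := c2
      _ ≤ _ := by
          have c4 : Real.exp 4 / (l * (1 + x)) ≤ Real.exp 4 / l := by
            refine div_le_div_of_nonneg_left (Real.exp_pos _).le hl ?_
            nlinarith
          gcongr
  have hE : 0 ≤ EE x := (EE_pos hx0 hx1).le
  have hX : 0 ≤ (j.factorial : ℝ) * (EE x / l) ^ j := by positivity
  have he : 1 ≤ Real.exp 4 := Real.one_le_exp (by norm_num)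
  calc _ ≤ (Real.exp 4 / l) * (j.factorial * (EE x / l) ^ j) +
        (2 / l) * (j.factorial * (EE x / l) ^ j) := by linarith
    _ = ((Real.exp 4 + 2) / l) * (j.factorial * (EE x / l) ^ j) := by ring
    _ ≤ _ := by
        refine mul_le_mul_of_nonneg_right ?_ hX
        refine div_le_div_of_nonneg_right ?_ hl.le
        linarith

/-- the one-sided bound on a window bounds the transforms -/
lemma window_bound (h : LD a kk α C) (j : ℕ) {lam x U b : ℝ} {s1 : ℂ} (hl : 0 < lam)
    (hs1 : s1.re = -α + lam) (hb : 0 < lam + b - α) (hx0 : 0 < x) (hx1 : x < 1 / 2) (hU : 0 ≤ U)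
    (hj1 : (j : ℝ) ≤ (1 - x) * (lam * U)) (hj2 : (1 - x) * (lam * U) ≤ j + 2)
    (hW : ∀ u : ℝ, (1 - 2 * x) * U ≤ u → u ≤ U → kk u ≤ Real.exp (-(b * u))) :
    ‖Lp a kk j s1‖ ≤ 2 * ((j.factorial : ℝ) / (lam + b - α) ^ (j + 1)) +
      2 * (C * ((4 * Real.exp 4 / lam) * (j.factorial * (EE x / lam) ^ j))) +
      ‖Lp a kk j ((-α + lam : ℝ) : ℂ)‖ := by
  set s0 : ℝ := -α + lam with hs0
  have hs0' : -α < s0 := by rw [hs0]; linarith
  set V := (1 - 2 * x) * U with hV
  have hV0 : 0 ≤ V := mul_nonneg (by linarith) hU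
  have hVU : V ≤ U := by rw [hV]; nlinarith
  have hC := h.C_nonneg
  -- the integral of the absolute value
  have i1 : ‖Lp a kk j s1‖ ≤ ∫ u in Ioi a, |kk u| * u ^ j * Real.exp (-(s0 * u)) := by
    unfold Lp
    refine norm_integral_le_of_norm_le (h.integrable_real j hs0') ?_
    filter_upwards [ae_restrict_mem measurableSet_Ioi] with u hu
    rw [norm_kernel, hs1, abs_of_nonneg (h.ha.trans (le_of_lt hu))]
  -- the real transform
  have i2 : (Lp a kk j (s0 : ℂ)).re = ∫ u in Ioi a, kk u * u ^ j * Real.exp (-(s0 * u)) := by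
    unfold Lp
    have := integral_re (h.integrable j (s := (s0 : ℂ)) (by simpa using hs0'))
    rw [← Complex.reCLM_apply, ← ContinuousLinearMap.integral_comp_comm _
      (h.integrable j (s := (s0 : ℂ)) (by simpa using hs0'))]
    refine integral_congr_ae (Eventually.of_forall fun u => ?_)
    simp only [Complex.reCLM_apply]
    rw [← Complex.ofReal_mul, ← Complex.ofReal_neg, ← Complex.ofReal_exp, ← Complex.ofReal_mul,
      Complex.ofReal_re]
  have i3 : IntegrableOn (fun u : ℝ => kk u * u ^ j * Real.exp (-(s0 * u))) (Ioi a) := by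
    refine Integrable.mono' (h.integrable_real j hs0') ?_ ?_
    · have := h.meas
      exact (by fun_prop : Measurable fun u : ℝ =>
        kk u * u ^ j * Real.exp (-(s0 * u))).aestronglyMeasurable
    · filter_upwards [ae_restrict_mem measurableSet_Ioi] with u hu
      have hu0 : 0 ≤ u := h.ha.trans (le_of_lt hu)
      rw [Real.norm_eq_abs, abs_mul, abs_mul, abs_pow, abs_of_nonneg hu0, Real.abs_exp]
  -- the window part
  have i4 : IntegrableOn (fun u : ℝ => Real.exp (-(b * u)) * (u ^ j * Real.exp (-(s0 * u)))) (Ioi 0) ∧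
      ∫ u in Ioi (0 : ℝ), Real.exp (-(b * u)) * (u ^ j * Real.exp (-(s0 * u))) =
        (j.factorial : ℝ) / (lam + b - α) ^ (j + 1) := by
    have e : (fun u : ℝ => Real.exp (-(b * u)) * (u ^ j * Real.exp (-(s0 * u)))) =
        fun u : ℝ => u ^ j * Real.exp (-((lam + b - α) * u)) := by
      funext u
      rw [mul_left_comm, ← Real.exp_add]
      congr 2
      rw [hs0]; ring
    rw [e]
    exact int_pow_exp j hb
  -- the outer part
  have hS : MeasurableSet (Ioc 0 V ∪ Ioi U) := measurableSet_Ioc.union measurableSet_Ioi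
  have hsub : Ioc 0 V ∪ Ioi U ⊆ Ioi (0 : ℝ) := by
    rintro u (hu | hu)
    · exact hu.1
    · exact lt_of_le_of_lt hU hu
  have i5 : IntegrableOn (fun u : ℝ => u ^ j * Real.exp (-(lam * u))) (Ioc 0 V ∪ Ioi U) :=
    (int_pow_exp j hl).1.mono_set hsub
  have i6 : ∫ u in Ioc 0 V ∪ Ioi U, u ^ j * Real.exp (-(lam * u)) ≤
      (4 * Real.exp 4 / lam) * (j.factorial * (EE x / lam) ^ j) := by
    rw [setIntegral_union ?_ measurableSet_Ioi ((int_pow_exp j hl).1.mono_set fun u hu => hu.1)
      ((int_pow_exp j hl).1.mono_set (Ioi_subset_Ioi hU))]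
    · exact tails j hl hx0 hx1 hU hj1 hj2
    · rw [Set.disjoint_left]
      intro u hu1 hu2
      have h1 : U < u := hu2
      linarith [hu1.2]
  -- the pointwise inequality
  have key : ∫ u in Ioi a, |kk u| * u ^ j * Real.exp (-(s0 * u)) ≤
      ∫ u in Ioi a, (2 * (Real.exp (-(b * u)) * (u ^ j * Real.exp (-(s0 * u)))) +
        2 * (C * (Ioc 0 V ∪ Ioi U).indicator (fun u => u ^ j * Real.exp (-(lam * u))) u) -
        kk u * u ^ j * Real.exp (-(s0 * u))) := by
    refine setIntegral_mono_on (h.integrable_real j hs0') ?_ measurableSet_Ioi fun u hu => ?_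
    · refine Integrable.sub (Integrable.add ((i4.1.mono_set h.ioi).const_mul 2) ?_) i3
      refine Integrable.const_mul (Integrable.const_mul ?_ C) 2
      have := (i5.integrable_indicator hS)
      exact this.restrict
    · have hu0 : 0 < u := h.ioi hu
      have hp : 0 ≤ u ^ j * Real.exp (-(s0 * u)) := by positivity
      by_cases hmem : u ∈ Ioc 0 V ∪ Ioi U
      · rw [indicator_of_mem hmem]
        have h1 := h.bd u hu
        have h2 : |kk u| * (u ^ j * Real.exp (-(s0 * u))) ≤
            C * (u ^ j * Real.exp (-(lam * u))) := by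
          have h3 : u ^ j * Real.exp (-(lam * u)) =
              Real.exp (-(α * u)) * (u ^ j * Real.exp (-(s0 * u))) := by
            rw [mul_left_comm, ← Real.exp_add]
            congr 2
            rw [hs0]; ring
          rw [h3, ← mul_assoc C]
          exact mul_le_mul_of_nonneg_right h1 hp
        have h4 : 0 ≤ Real.exp (-(b * u)) * (u ^ j * Real.exp (-(s0 * u))) := by positivity
        have h5 : kk u * (u ^ j * Real.exp (-(s0 * u))) ≤
            |kk u| * (u ^ j * Real.exp (-(s0 * u))) :=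
          mul_le_mul_of_nonneg_right (le_abs_self _) hp
        have e1 : kk u * u ^ j * Real.exp (-(s0 * u)) = kk u * (u ^ j * Real.exp (-(s0 * u))) := by
          ring
        have e2 : |kk u| * u ^ j * Real.exp (-(s0 * u)) =
            |kk u| * (u ^ j * Real.exp (-(s0 * u))) := by ring
        rw [e1, e2]
        linarith
      · rw [indicator_of_notMem hmem]
        have hV' : V < u := by
          by_contra hc
          exact hmem (Or.inl ⟨hu0, not_lt.1 hc⟩)
        have hU' : u ≤ U := by
          by_contra hc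
          exact hmem (Or.inr (not_le.1 hc))
        have h1 := hW u hV'.le hU'
        have h2 : |kk u| ≤ 2 * Real.exp (-(b * u)) - kk u := by
          have := Real.exp_pos (-(b * u))
          rcases abs_cases (kk u) with ⟨h3, _⟩ | ⟨h3, _⟩ <;> rw [h3] <;> linarith
        have h3 := mul_le_mul_of_nonneg_right h2 hp
        have e1 : kk u * u ^ j * Real.exp (-(s0 * u)) = kk u * (u ^ j * Real.exp (-(s0 * u))) := by
          ring
        have e2 : |kk u| * u ^ j * Real.exp (-(s0 * u)) =
            |kk u| * (u ^ j * Real.exp (-(s0 * u))) := by ring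
        rw [e1, e2]
        linarith
  have hind : IntegrableOn (fun u => (Ioc 0 V ∪ Ioi U).indicator
      (fun u => u ^ j * Real.exp (-(lam * u))) u) (Ioi a) :=
    (i5.integrable_indicator hS).restrict
  have hA : Integrable (fun u : ℝ => 2 * (Real.exp (-(b * u)) * (u ^ j * Real.exp (-(s0 * u)))))
      (volume.restrict (Ioi a)) := (i4.1.mono_set h.ioi).const_mul 2
  have hB : Integrable (fun u : ℝ => 2 * (C * (Ioc 0 V ∪ Ioi U).indicator
      (fun u => u ^ j * Real.exp (-(lam * u))) u)) (volume.restrict (Ioi a)) :=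
    (hind.const_mul C).const_mul 2
  have e1 := integral_sub (μ := volume.restrict (Ioi a))
    (f := fun u : ℝ => 2 * (Real.exp (-(b * u)) * (u ^ j * Real.exp (-(s0 * u)))) +
      2 * (C * (Ioc 0 V ∪ Ioi U).indicator (fun u => u ^ j * Real.exp (-(lam * u))) u))
    (g := fun u : ℝ => kk u * u ^ j * Real.exp (-(s0 * u))) (hA.add hB) i3
  rw [e1, integral_add hA hB, integral_const_mul, integral_const_mul, integral_const_mul,
    ← i2] at key
  have j1 : ∫ u in Ioi a, Real.exp (-(b * u)) * (u ^ j * Real.exp (-(s0 * u))) ≤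
      (j.factorial : ℝ) / (lam + b - α) ^ (j + 1) := by
    rw [← i4.2]
    refine setIntegral_mono_set i4.1 ?_ h.ioi.eventuallyLE
    filter_upwards [ae_restrict_mem measurableSet_Ioi] with u hu
    have : (0 : ℝ) < u := hu
    simp only [Pi.zero_apply]
    positivity
  have j2 : ∫ u in Ioi a, (Ioc 0 V ∪ Ioi U).indicator (fun u => u ^ j * Real.exp (-(lam * u))) u ≤
      (4 * Real.exp 4 / lam) * (j.factorial * (EE x / lam) ^ j) := by
    refine le_trans ?_ i6
    rw [← integral_indicator (f := fun u => u ^ j * Real.exp (-(lam * u))) hS]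
    refine setIntegral_le_integral (i5.integrable_indicator hS) ?_
    refine Eventually.of_forall fun u => ?_
    simp only [Pi.zero_apply]
    refine indicator_nonneg (fun u hu => ?_) u
    have : 0 < u := hsub hu
    positivity
  have j3 : -(Lp a kk j (s0 : ℂ)).re ≤ ‖Lp a kk j (s0 : ℂ)‖ := by
    have := Complex.abs_re_le_norm (Lp a kk j (s0 : ℂ))
    exact (neg_le_abs _).trans this
  have j4 := mul_le_mul_of_nonneg_left j2 hC
  linarith

end

end Pool.Agent.V11272.RB
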