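import Pool.Agent.V11272.RB.Zf

set_option autoImplicit false

/-! Large derivatives near a zero. -/

namespace Pool.Agent.V11272.RB

open Complex Filter Topology MeasureTheory Set
open H353 (FF)

noncomputable section

variable {α C : ℝ}

lemma iter_inv (ρ : ℂ) (k : ℕ) : ∀ w : ℂ, w ≠ ρ →
    iteratedDeriv k (fun w : ℂ => (w - ρ)⁻¹) w = (-1) ^ k * k.factorial * ((w - ρ)⁻¹) ^ (k + 1) := by
  induction k with
  | zero => intro w _; simp
  | succ k ih =>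
    intro w hw
    rw [iteratedDeriv_succ]
    have e : iteratedDeriv k (fun w : ℂ => (w - ρ)⁻¹) =ᶠ[𝓝 w]
        fun w => (-1) ^ k * k.factorial * ((w - ρ)⁻¹) ^ (k + 1) := by
      filter_upwards [isOpen_ne.mem_nhds hw] with v hv
      exact ih v hv
    have hw' : w - ρ ≠ 0 := sub_ne_zero.2 hw
    have h1 : HasDerivAt (fun w : ℂ => (w - ρ)⁻¹) (-1 / (w - ρ) ^ 2) w :=
      ((hasDerivAt_id w).sub_const ρ).inv hw'
    have h2 : HasDerivAt (fun w : ℂ => (-1) ^ k * (k.factorial : ℂ) * ((w - ρ)⁻¹) ^ (k + 1))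
        ((-1) ^ k * (k.factorial : ℂ) * (((k + 1 : ℕ) : ℂ) * ((w - ρ)⁻¹) ^ (k + 1 - 1) *
          (-1 / (w - ρ) ^ 2))) w := (h1.pow (k + 1)).const_mul _
    rw [e.deriv_eq, h2.deriv]
    rw [Nat.factorial_succ, Nat.add_sub_cancel]
    have h3 : -1 / (w - ρ) ^ 2 = -((w - ρ)⁻¹) ^ 2 := by
      rw [inv_pow, neg_div, one_div]
    rw [h3]
    push_cast
    ring

/-- pole decomposition -/
lemma pole {ρ w1 : ℂ} {R : ℝ} (hρ : FF ρ = 0) (hρ0 : ρ ≠ 0)
    (hz : ∀ w ∈ Metric.ball w1 R, FF w = 0 → w = ρ) (h0 : (0 : ℂ) ∉ Metric.ball w1 R) :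
    ∃ c : ℂ, c ≠ 0 ∧ ∃ H : ℂ → ℂ, DifferentiableOn ℂ H (Metric.ball w1 R) ∧
      ∀ w ∈ Metric.ball w1 R, w ≠ ρ → PP w = c * (w - ρ)⁻¹ + H w := by
  have hne : ∃ v, FF v ≠ 0 := ⟨1, by rw [show FF 1 = 1 from ZU.J_g2b.FF_one]; exact one_ne_zero⟩
  obtain ⟨n, G, hG, hGρ, hFG⟩ := ZU.J_g2b.zf_one FF FF_diff hne ρ
  have hn : n ≠ 0 := by
    rintro rfl
    have := hFG ρ
    rw [hρ] at this
    simp at this
    exact hGρ this.symm
  have hG0 : ∀ w ∈ Metric.ball w1 R, G w ≠ 0 := by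
    intro w hw h
    by_cases hwρ : w = ρ
    · rw [hwρ] at h; exact hGρ h
    · apply hwρ
      apply hz w hw
      rw [hFG, h, mul_zero]
  have hw0 : ∀ w ∈ Metric.ball w1 R, w ≠ 0 := by
    rintro w hw rfl
    exact h0 hw
  refine ⟨-(n / ρ), neg_ne_zero.2 (div_ne_zero (Nat.cast_ne_zero.2 hn) hρ0),
    fun w => (n / ρ) * w⁻¹ - w⁻¹ * (deriv G w / G w + 1) +
      dslope (fun w : ℂ => -cexp ((1 - w) * Real.log 2)) 1 w, ?_, ?_⟩
  · intro w hw
    have h1 : DifferentiableAt ℂ (deriv G) w :=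
      (hG.contDiff (n := 2)).differentiable_deriv_two w
    have h2 := hG w
    have h3 : DifferentiableAt ℂ (fun w : ℂ => w⁻¹) w := differentiableAt_inv (hw0 w hw)
    refine DifferentiableAt.differentiableWithinAt ?_
    refine DifferentiableAt.add ?_ (dslope_part_diff w)
    refine DifferentiableAt.sub (h3.const_mul _) ?_
    exact h3.mul ((h1.div h2 (hG0 w hw)).add (differentiableAt_const _))
  · intro w hw hwρ
    have hw' : w - ρ ≠ 0 := sub_ne_zero.2 hwρ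
    have hw0' := hw0 w hw
    have hG' := hG0 w hw
    have hdF : deriv FF w = n * (w - ρ) ^ (n - 1) * G w + (w - ρ) ^ n * deriv G w := by
      have e : FF = fun v => (v - ρ) ^ n * G v := funext hFG
      have h1 : HasDerivAt (fun v : ℂ => (v - ρ) ^ n) (n * (w - ρ) ^ (n - 1) * 1) w :=
        ((hasDerivAt_id w).sub_const ρ).pow n
      have h2 := (h1.mul (hG w).hasDerivAt).deriv
      have h3 : deriv FF w = deriv ((fun v : ℂ => (v - ρ) ^ n) * G) w := by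
        rw [e]; rfl
      rw [h3, h2]
      ring
    obtain ⟨j, rfl⟩ : ∃ j, n = j + 1 := ⟨n - 1, by omega⟩
    unfold PP
    rw [hdF, hFG w]
    rw [Nat.add_sub_cancel]
    beta_reduce
    generalize dslope (fun w : ℂ => -cexp ((1 - w) * Real.log 2)) 1 w = dd
    have hp : (w - ρ) ^ j ≠ 0 := pow_ne_zero _ hw'
    rw [pow_succ]
    field_simp
    ring

lemma cauchy_bound {H : ℂ → ℂ} {w1 : ℂ} {R R' : ℝ} (hR' : 0 < R') (hRR : R' < R)
    (hH : DifferentiableOn ℂ H (Metric.ball w1 R)) :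
    ∃ M : ℝ, 0 ≤ M ∧ ∀ k : ℕ, ‖iteratedDeriv k H w1‖ ≤ k.factorial * M / R' ^ k := by
  have hsub : Metric.closedBall w1 R' ⊆ Metric.ball w1 R := Metric.closedBall_subset_ball hRR
  have hc : ContinuousOn H (Metric.sphere w1 R') :=
    hH.continuousOn.mono (Metric.sphere_subset_closedBall.trans hsub)
  obtain ⟨M, hM⟩ := (isCompact_sphere w1 R').exists_bound_of_continuousOn hc
  refine ⟨max M 0, le_max_right _ _, fun k => ?_⟩
  refine Complex.norm_iteratedDeriv_le_of_forall_mem_sphere_norm_le k hR' ?_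
    (fun z hz => (hM z hz).trans (le_max_left _ _))
  refine DifferentiableOn.diffContOnCl ?_
  rw [closure_ball _ hR'.ne']
  exact hH.mono hsub


/-- the transform of `Fp` through the derivatives of `PP` -/
lemma Lp_Fp_iter (h : PD α C) (hz : ∀ w : ℂ, 1 - α < w.re → FF w ≠ 0) (k : ℕ) {s : ℂ}
    (hs : s ∈ HP α) : Lp (Real.log 2) Fp k s = (-1) ^ k * iteratedDeriv k PP (1 + s) := by
  have h1 := h.Fp_LD.iterDeriv 0 k hs
  have h2 : iteratedDeriv k (Lp (Real.log 2) Fp 0) s = iteratedDeriv k (fun s => PP (1 + s)) s := by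
    refine Filter.EventuallyEq.iteratedDeriv_eq k ?_
    filter_upwards [(isOpen_HP α).mem_nhds hs] with z hz'
    exact Lp_Fp_eqOn h hz hz'
  have h3 : iteratedDeriv k (fun s => PP (1 + s)) s = iteratedDeriv k PP (1 + s) := by
    rw [iteratedDeriv_comp_const_add]
  rw [h2, h3, zero_add] at h1
  rw [h1, ← mul_assoc, ← mul_pow]
  simp

/-- large values of the transform of `dl` near a zero -/
lemma large_dl (h : PD α C) (hz : ∀ w : ℂ, 1 - α < w.re → FF w ≠ 0) {ρ w1 : ℂ} {R D : ℝ}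
    (hw1 : 1 - α < w1.re) (hρ : FF ρ = 0) (hρ0 : ρ ≠ 0) (hD : ‖w1 - ρ‖ = D) (hDR : D < R)
    (hzR : ∀ w ∈ Metric.ball w1 R, FF w = 0 → w = ρ) (h0 : (0 : ℂ) ∉ Metric.ball w1 R) :
    ∃ c > 0, ∃ m0 : ℕ, ∀ m ≥ m0, c * (((m - 1).factorial : ℝ) / D ^ m) ≤
      ‖Lp (Real.log 2) dl m (w1 - 1)‖ := by
  obtain ⟨c, hc, H, hH, hP⟩ := pole hρ hρ0 hzR h0
  have hne : w1 ≠ ρ := by
    rintro rfl
    exact hz _ hw1 hρ
  have hD0 : 0 < D := by rw [← hD]; exact norm_pos_iff.2 (sub_ne_zero.2 hne)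
  have hc0 : 0 < ‖c‖ := norm_pos_iff.2 hc
  obtain ⟨M, hM0, hM⟩ := cauchy_bound (R' := (D + R) / 2) (by linarith) (by linarith) hH
  set R' := (D + R) / 2 with hR'
  have hR0 : 0 < R' := by rw [hR']; linarith
  have hDR' : D < R' := by rw [hR']; linarith
  clear_value R'
  have hs : (w1 - 1) ∈ HP α := by
    show -α < (w1 - 1).re
    simp; linarith
  have hball : w1 ∈ Metric.ball w1 R := Metric.mem_ball_self (by linarith)
  -- derivative of PP
  have hPk : ∀ k : ℕ, iteratedDeriv k PP w1 =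
      c * ((-1) ^ k * k.factorial * ((w1 - ρ)⁻¹) ^ (k + 1)) + iteratedDeriv k H w1 := by
    intro k
    have e1 : PP =ᶠ[𝓝 w1] fun w => c * (w - ρ)⁻¹ + H w := by
      filter_upwards [Metric.isOpen_ball.mem_nhds hball, isOpen_ne.mem_nhds hne] with w hw hw2
      exact hP w hw hw2
    rw [Filter.EventuallyEq.iteratedDeriv_eq k e1]
    have d1 : ContDiffAt ℂ k (fun w : ℂ => c * (w - ρ)⁻¹) w1 := by
      refine contDiffAt_const.mul ?_
      exact (contDiffAt_id.sub contDiffAt_const).inv (sub_ne_zero.2 hne)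
    have d2 : ContDiffAt ℂ k H w1 :=
      ((hH.analyticOnNhd Metric.isOpen_ball) w1 hball).contDiffAt
    have e2 : iteratedDeriv k (fun w => c * (w - ρ)⁻¹ + H w) w1 =
        iteratedDeriv k (fun w : ℂ => c * (w - ρ)⁻¹) w1 + iteratedDeriv k H w1 :=
      iteratedDeriv_fun_add d1 d2
    rw [e2, iteratedDeriv_const_mul_field, iter_inv ρ k w1 hne]
  -- the main quantity
  have key : ∀ k : ℕ, ‖c‖ * ((k + 1).factorial / D ^ (k + 2)) * (1 - D / (k + 1)) -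
      (k.factorial * M / R' ^ k + (k + 1).factorial * M / R' ^ (k + 1)) ≤
      ‖Lp (Real.log 2) dl (k + 2) (w1 - 1)‖ := by
    intro k
    rw [Lp_dl h k hs, Lp_Fp_iter h hz k hs, Lp_Fp_iter h hz (k + 1) hs,
      show 1 + (w1 - 1) = w1 by ring, hPk, hPk]
    have e : (-1 : ℂ) ^ k * (c * ((-1) ^ k * (k.factorial : ℂ) * (w1 - ρ)⁻¹ ^ (k + 1)) + iteratedDeriv k H w1) +
        (-1) ^ (k + 1) * (c * ((-1) ^ (k + 1) * ((k + 1).factorial : ℂ) * (w1 - ρ)⁻¹ ^ (k + 1 + 1)) +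
          iteratedDeriv (k + 1) H w1) =
        c * ((k.factorial : ℂ) * (w1 - ρ)⁻¹ ^ (k + 1) + ((k + 1).factorial : ℂ) * (w1 - ρ)⁻¹ ^ (k + 2)) +
        ((-1) ^ k * iteratedDeriv k H w1 + (-1) ^ (k + 1) * iteratedDeriv (k + 1) H w1) := by
      have h1 : (-1 : ℂ) ^ k * (-1) ^ k = 1 := by rw [← mul_pow]; simp
      have h2 : (-1 : ℂ) ^ (k + 1) * (-1) ^ (k + 1) = 1 := by rw [← mul_pow]; simp
      linear_combination (c * (k.factorial : ℂ) * (w1 - ρ)⁻¹ ^ (k + 1)) * h1 +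
        (c * ((k + 1).factorial : ℂ) * (w1 - ρ)⁻¹ ^ (k + 2)) * h2
    rw [e]
    have n1 : ‖(-1 : ℂ) ^ k * iteratedDeriv k H w1 + (-1) ^ (k + 1) * iteratedDeriv (k + 1) H w1‖ ≤
        k.factorial * M / R' ^ k + (k + 1).factorial * M / R' ^ (k + 1) := by
      refine (norm_add_le _ _).trans (add_le_add ?_ ?_)
      · rw [norm_mul, norm_pow, norm_neg, norm_one, one_pow, one_mul]; exact hM k
      · rw [norm_mul, norm_pow, norm_neg, norm_one, one_pow, one_mul]; exact hM (k + 1)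
    have n2 : ‖c‖ * ((k + 1).factorial / D ^ (k + 2)) * (1 - D / (k + 1)) ≤
        ‖c * ((k.factorial : ℂ) * (w1 - ρ)⁻¹ ^ (k + 1) + ((k + 1).factorial : ℂ) * (w1 - ρ)⁻¹ ^ (k + 2))‖ := by
      rw [norm_mul, mul_assoc]
      refine mul_le_mul_of_nonneg_left ?_ hc0.le
      have n3 : ‖((k + 1).factorial : ℂ) * (w1 - ρ)⁻¹ ^ (k + 2)‖ = (k + 1).factorial / D ^ (k + 2) := by
        rw [norm_mul, norm_pow, norm_inv, hD, Complex.norm_natCast, inv_pow, div_eq_mul_inv]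
      have n4 : ‖(k.factorial : ℂ) * (w1 - ρ)⁻¹ ^ (k + 1)‖ = (k + 1).factorial / D ^ (k + 2) * (D / (k + 1)) := by
        rw [norm_mul, norm_pow, norm_inv, hD, Complex.norm_natCast, inv_pow, Nat.factorial_succ]
        push_cast
        field_simp
        ring
      have n5 := norm_sub_le (((k.factorial : ℂ) * (w1 - ρ)⁻¹ ^ (k + 1) +
        ((k + 1).factorial : ℂ) * (w1 - ρ)⁻¹ ^ (k + 2))) ((k.factorial : ℂ) * (w1 - ρ)⁻¹ ^ (k + 1))
      rw [add_sub_cancel_left, n3, n4] at n5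
      linarith
    have n6 := norm_sub_le (c * ((k.factorial : ℂ) * (w1 - ρ)⁻¹ ^ (k + 1) +
        ((k + 1).factorial : ℂ) * (w1 - ρ)⁻¹ ^ (k + 2)) +
      ((-1) ^ k * iteratedDeriv k H w1 + (-1) ^ (k + 1) * iteratedDeriv (k + 1) H w1))
      ((-1) ^ k * iteratedDeriv k H w1 + (-1) ^ (k + 1) * iteratedDeriv (k + 1) H w1)
    rw [add_sub_cancel_right] at n6
    linarith
  -- asymptotics
  have t1 : Tendsto (fun k : ℕ => ‖c‖ * (1 - D / ((k : ℝ) + 1)) -
      (M * D ^ 2 * (D / R') ^ k * (1 / ((k : ℝ) + 1)) + M * D ^ 2 / R' * (D / R') ^ k)) atTop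
      (𝓝 (‖c‖ * (1 - 0) - (M * D ^ 2 * 0 * 0 + M * D ^ 2 / R' * 0))) := by
    have a1 : Tendsto (fun k : ℕ => D / ((k : ℝ) + 1)) atTop (𝓝 0) :=
      tendsto_const_nhds.div_atTop (tendsto_atTop_add_const_right _ _ tendsto_natCast_atTop_atTop)
    have a2 : Tendsto (fun k : ℕ => 1 / ((k : ℝ) + 1)) atTop (𝓝 0) :=
      tendsto_const_nhds.div_atTop (tendsto_atTop_add_const_right _ _ tendsto_natCast_atTop_atTop)
    have a3 : Tendsto (fun k : ℕ => (D / R') ^ k) atTop (𝓝 0) :=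
      tendsto_pow_atTop_nhds_zero_of_lt_one (by positivity) ((div_lt_one hR0).2 hDR')
    exact ((tendsto_const_nhds.sub a1).const_mul _).sub (((a3.const_mul _).mul a2).add (a3.const_mul _))
  have e1 : ‖c‖ * (1 - 0) - (M * D ^ 2 * 0 * 0 + M * D ^ 2 / R' * 0) = ‖c‖ := by ring
  rw [e1] at t1
  obtain ⟨k0, hk0⟩ := eventually_atTop.1 (t1.eventually_const_lt (show ‖c‖ / 2 < ‖c‖ by linarith))
  refine ⟨‖c‖ / 2, by linarith, k0 + 2, fun m hm => ?_⟩
  obtain ⟨k, rfl⟩ : ∃ k, m = k + 2 := ⟨m - 2, by omega⟩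
  have h2 := hk0 k (by omega)
  refine le_trans ?_ (key k)
  have e3 : k + 2 - 1 = k + 1 := by omega
  rw [e3]
  have hpos : 0 < ((k + 1).factorial : ℝ) / D ^ (k + 2) := by positivity
  have e4 : ‖c‖ * ((k + 1).factorial / D ^ (k + 2)) * (1 - D / (k + 1)) -
      (k.factorial * M / R' ^ k + (k + 1).factorial * M / R' ^ (k + 1)) =
      (((k + 1).factorial : ℝ) / D ^ (k + 2)) * (‖c‖ * (1 - D / ((k : ℝ) + 1)) -
      (M * D ^ 2 * (D / R') ^ k * (1 / ((k : ℝ) + 1)) + M * D ^ 2 / R' * (D / R') ^ k)) := by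
    rw [Nat.factorial_succ, div_pow]
    push_cast
    field_simp
    ring
  rw [e4, mul_comm (‖c‖ / 2)]
  exact mul_le_mul_of_nonneg_left h2.le hpos.le

end

end Pool.Agent.V11272.RB
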