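import Pool.Agent.V11272.RB.Lap

set_option autoImplicit false

/-! The transforms of the Chebyshev function and of its weighted tail. -/

namespace Pool.Agent.V11272.RB

open Complex Filter Topology MeasureTheory Set

noncomputable section

/-- `(ψ(e^u) - e^u) e^{-u}` -/
def Fp (u : ℝ) : ℝ := (Chebyshev.psi (Real.exp u) - Real.exp u) * Real.exp (-u)

/-- the density -/
def dl (u : ℝ) : ℝ := (Ioi (Real.log 2)).indicator (fun u => Fp u * (1 / u + 1 / u ^ 2)) u

/-- the tail -/
def kk (u : ℝ) : ℝ := (∫ r in (Real.log 2)..u, dl r) - ∫ r in Ioi (Real.log 2), dl r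

lemma L2_pos : 0 < Real.log 2 := Real.log_pos (by norm_num)

lemma L2_le : Real.log 2 ≤ 1 := by
  have := Real.log_two_lt_d9
  linarith

lemma measurable_Fp : Measurable Fp := by
  unfold Fp
  have h : Measurable Chebyshev.psi := Chebyshev.psi_mono.measurable
  exact ((h.comp Real.measurable_exp).sub Real.measurable_exp).mul
    (Real.measurable_exp.comp measurable_neg)

lemma measurable_dl : Measurable dl := by
  unfold dl
  refine Measurable.indicator ?_ measurableSet_Ioi
  exact measurable_Fp.mul (by fun_prop)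

lemma dl_of_gt {u : ℝ} (hu : Real.log 2 < u) : dl u = Fp u * (1 / u + 1 / u ^ 2) :=
  indicator_of_mem (show u ∈ Ioi (Real.log 2) from hu) _

lemma dl_of_le {u : ℝ} (hu : u ≤ Real.log 2) : dl u = 0 :=
  indicator_of_notMem (fun h => absurd (show Real.log 2 < u from h) (not_lt.2 hu)) _

/-- data: the error term of the prime number theorem -/
structure PD (α C : ℝ) : Prop where
  h0 : 0 ≤ α
  h1 : α < 1
  bd : ∀ u : ℝ, Real.log 2 < u → |Fp u| ≤ C * Real.exp (-(α * u))
  int : Integrable dl

variable {α C : ℝ}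

lemma PD.Fp_LD (h : PD α C) : LD (Real.log 2) Fp α C := ⟨L2_pos.le, measurable_Fp, h.bd⟩

lemma PD.C_nonneg (h : PD α C) : 0 ≤ C := h.Fp_LD.C_nonneg

lemma PD.dl_LD (h : PD α C) : LD (Real.log 2) dl α (C * 4) := by
  refine ⟨L2_pos.le, measurable_dl, fun u hu => ?_⟩
  rw [dl_of_gt hu, abs_mul]
  have h1 := h.bd u hu
  have hC := h.C_nonneg
  have hL := Real.log_two_gt_d9
  have hu0 : 0 < u := L2_pos.trans hu
  have h2 : |1 / u + 1 / u ^ 2| ≤ 4 := by
    rw [abs_of_pos (by positivity)]
    have h3 : 1 / u ≤ 1.5 := by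
      rw [div_le_iff₀ hu0]; linarith
    have h4 : 1 / u ^ 2 = (1 / u) ^ 2 := by rw [div_pow, one_pow]
    have h5 : 0 < 1 / u := by positivity
    rw [h4]
    nlinarith
  calc |Fp u| * |1 / u + 1 / u ^ 2| ≤ (C * Real.exp (-(α * u))) * 4 := by gcongr
    _ = _ := by ring

lemma kk_eq (h : Integrable dl) (u : ℝ) : kk u = -∫ r in Ioi u, dl r := by
  unfold kk
  have h1 := intervalIntegral.integral_Ioi_sub_Ioi' (f := dl) (μ := volume) (a := Real.log 2) (b := u)
    h.integrableOn h.integrableOn
  linarith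

lemma measurable_kk (h : Integrable dl) : Measurable kk := by
  unfold kk
  have h1 : Continuous fun u : ℝ => ∫ r in (Real.log 2)..u, dl r :=
    intervalIntegral.continuous_primitive (fun a b => h.intervalIntegrable) _
  exact (h1.sub continuous_const).measurable

lemma continuous_kk (h : Integrable dl) : Continuous kk := by
  unfold kk
  have h1 : Continuous fun u : ℝ => ∫ r in (Real.log 2)..u, dl r :=
    intervalIntegral.continuous_primitive (fun a b => h.intervalIntegrable) _
  exact h1.sub continuous_const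

lemma PD.kk_LD (h : PD α C) : ∃ C', LD (Real.log 2) kk α C' := by
  rcases h.h0.eq_or_lt with h0 | h0
  · refine ⟨∫ r, |dl r|, L2_pos.le, measurable_kk h.int, fun u hu => ?_⟩
    rw [← h0, zero_mul, neg_zero, Real.exp_zero, mul_one, kk_eq h.int, abs_neg]
    refine (abs_integral_le_integral_abs).trans ?_
    exact setIntegral_le_integral h.int.abs (Eventually.of_forall fun _ => abs_nonneg _)
  · refine ⟨C * 4 / α, L2_pos.le, measurable_kk h.int, fun u hu => ?_⟩
    rw [kk_eq h.int, abs_neg]
    have hu0 : 0 < u := L2_pos.trans hu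
    have h1 : IntegrableOn (fun r : ℝ => C * 4 * Real.exp (-(α * r))) (Ioi u) := by
      have h9 : IntegrableOn (fun r : ℝ => C * 4 * Real.exp (-α * r)) (Ioi u) :=
        (integrableOn_exp_mul_Ioi (show -α < 0 by linarith) u).const_mul (C * 4)
      refine h9.congr_fun (fun r _ => ?_) measurableSet_Ioi
      simp only [neg_mul]
    calc |∫ r in Ioi u, dl r| ≤ ∫ r in Ioi u, C * 4 * Real.exp (-(α * r)) := by
          rw [← Real.norm_eq_abs]
          refine norm_integral_le_of_norm_le h1 ?_
          filter_upwards [ae_restrict_mem measurableSet_Ioi] with r hr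
          rw [Real.norm_eq_abs]
          exact h.dl_LD.bd r (hu.trans hr)
      _ = C * 4 / α * Real.exp (-(α * u)) := by
          rw [integral_const_mul]
          have h2 := integral_exp_mul_Ioi (show -α < 0 by linarith) u
          have e : ∫ r in Ioi u, Real.exp (-(α * r)) = ∫ r in Ioi u, Real.exp (-α * r) := by
            refine integral_congr_ae (Eventually.of_forall fun r => ?_)
            simp only [neg_mul]
          rw [e, h2, neg_mul]
          field_simp

/-- the tail tends to zero -/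
lemma kk_tendsto (h : Integrable dl) : Tendsto kk atTop (𝓝 0) := by
  have h1 := intervalIntegral_tendsto_integral_Ioi (f := dl) (μ := volume) (Real.log 2)
    h.integrableOn tendsto_id
  unfold kk
  have h2 := h1.sub_const (∫ r in Ioi (Real.log 2), dl r)
  simpa using h2

/-- the transforms of `dl` and `Fp` -/
lemma Lp_dl (h : PD α C) (k : ℕ) {s : ℂ} (hs : s ∈ HP α) :
    Lp (Real.log 2) dl (k + 2) s = Lp (Real.log 2) Fp k s + Lp (Real.log 2) Fp (k + 1) s := by
  unfold Lp
  rw [← integral_add (h.Fp_LD.integrable k hs) (h.Fp_LD.integrable (k + 1) hs)]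
  refine setIntegral_congr_fun measurableSet_Ioi fun u hu => ?_
  have hu0 : u ≠ 0 := (L2_pos.trans hu).ne'
  rw [dl_of_gt hu, ← add_mul]
  congr 1
  push_cast
  have : (u : ℂ) ≠ 0 := by exact_mod_cast hu0
  field_simp
  ring

/-- the relation between the transforms of `kk` and `dl`, in the half-plane `Re s > 0` -/
lemma rel_pos (h : PD α C) {s : ℂ} (hs : 0 < s.re) :
    s * Lp (Real.log 2) kk 0 s = Lp (Real.log 2) dl 0 s -
      cexp (-(s * Real.log 2)) * ((∫ r in Ioi (Real.log 2), dl r : ℝ) : ℂ) := by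
  set a := Real.log 2 with ha
  have hs0 : s ≠ 0 := by rintro rfl; simp at hs
  -- the two-variable function
  obtain ⟨μ, hμ⟩ : ∃ μ : Measure ℝ, μ = volume.restrict (Ioi a) := ⟨_, rfl⟩
  have hE : Integrable (fun u : ℝ => cexp (-(s * u))) μ := by
    rw [hμ]
    have := (int_pow_exp 0 hs).1.mono_set (Ioi_subset_Ioi (L2_pos.le : (0:ℝ) ≤ a))
    refine Integrable.mono' this (by fun_prop) ?_
    refine Eventually.of_forall fun u => ?_
    rw [Complex.norm_exp]
    simp
  have hD : Integrable (fun r : ℝ => ((dl r : ℝ) : ℂ)) μ := by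
    rw [hμ]
    exact h.int.integrableOn.ofReal
  have hsf : SFinite μ := by rw [hμ]; infer_instance
  have hprod : Integrable (fun z : ℝ × ℝ => cexp (-(s * z.1)) * ((dl z.2 : ℝ) : ℂ)) (μ.prod μ) :=
    hE.mul_prod hD
  set S : Set (ℝ × ℝ) := {z | z.1 < z.2} with hS
  have hSm : MeasurableSet S := measurableSet_lt measurable_fst measurable_snd
  have hprod2 := hprod.indicator hSm
  have hswap := integral_integral_swap (f := fun u r : ℝ => S.indicator
    (fun z : ℝ × ℝ => cexp (-(s * z.1)) * ((dl z.2 : ℝ) : ℂ)) (u, r)) (μ := μ) (ν := μ) hprod2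
  -- left side
  have hleft : ∫ u, (∫ r, S.indicator (fun z : ℝ × ℝ => cexp (-(s * z.1)) * ((dl z.2 : ℝ) : ℂ))
      (u, r) ∂μ) ∂μ = -Lp a kk 0 s := by
    unfold Lp
    rw [← integral_neg, hμ]
    refine setIntegral_congr_fun measurableSet_Ioi fun u hu => ?_
    have e1 : (fun r : ℝ => S.indicator (fun z : ℝ × ℝ => cexp (-(s * z.1)) * ((dl z.2 : ℝ) : ℂ))
        (u, r)) = (Ioi u).indicator (fun r => cexp (-(s * u)) * ((dl r : ℝ) : ℂ)) := by
      funext r
      by_cases hr : u < r
      · rw [indicator_of_mem (show (u, r) ∈ S from hr), indicator_of_mem (show r ∈ Ioi u from hr)]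
      · rw [indicator_of_notMem (show (u, r) ∉ S from hr),
          indicator_of_notMem (show r ∉ Ioi u from hr)]
    rw [e1, setIntegral_indicator measurableSet_Ioi]
    have e2 : Ioi a ∩ Ioi u = Ioi u := by
      rw [Ioi_inter_Ioi, max_eq_right (le_of_lt hu)]
    rw [e2, integral_const_mul, integral_complex_ofReal, pow_zero, mul_one, kk_eq h.int]
    push_cast
    ring
  have hright : ∫ r, (∫ u, S.indicator (fun z : ℝ × ℝ => cexp (-(s * z.1)) * ((dl z.2 : ℝ) : ℂ))
      (u, r) ∂μ) ∂μ = (cexp (-(s * a)) * ((∫ r in Ioi a, dl r : ℝ) : ℂ) - Lp a dl 0 s) / s := by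
    have hinner : ∀ r ∈ Ioi a, (∫ u, S.indicator
        (fun z : ℝ × ℝ => cexp (-(s * z.1)) * ((dl z.2 : ℝ) : ℂ)) (u, r) ∂μ) =
        (cexp (-(s * a)) * ((dl r : ℝ) : ℂ) -
          ((dl r * r ^ 0 : ℝ) : ℂ) * cexp (-(s * r))) / s := by
      intro r hr
      have e1 : (fun u : ℝ => S.indicator (fun z : ℝ × ℝ => cexp (-(s * z.1)) * ((dl z.2 : ℝ) : ℂ))
          (u, r)) = (Iio r).indicator (fun u => cexp (-(s * u)) * ((dl r : ℝ) : ℂ)) := by
        funext u
        by_cases hr : u < r
        · rw [indicator_of_mem (show (u, r) ∈ S from hr), indicator_of_mem (show u ∈ Iio r from hr)]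
        · rw [indicator_of_notMem (show (u, r) ∉ S from hr),
            indicator_of_notMem (show u ∉ Iio r from hr)]
      rw [e1, hμ, setIntegral_indicator measurableSet_Iio, Ioi_inter_Iio, integral_mul_const,
        ← integral_Ioc_eq_integral_Ioo, ← intervalIntegral.integral_of_le (le_of_lt hr)]
      have e3 : ∫ u in a..r, cexp (-(s * u)) = (cexp (-(s * a)) - cexp (-(s * r))) / s := by
        have := integral_exp_mul_complex (a := a) (b := r) (c := -s) (neg_ne_zero.2 hs0)
        simp only [neg_mul] at this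
        rw [this]
        field_simp
        ring
      rw [e3, pow_zero, mul_one]
      field_simp
    have e4 : ∫ r, (∫ u, S.indicator (fun z : ℝ × ℝ => cexp (-(s * z.1)) * ((dl z.2 : ℝ) : ℂ))
        (u, r) ∂μ) ∂μ = ∫ r in Ioi a, (cexp (-(s * a)) * ((dl r : ℝ) : ℂ) -
          ((dl r * r ^ 0 : ℝ) : ℂ) * cexp (-(s * r))) / s := by
      rw [hμ] at hinner ⊢
      exact setIntegral_congr_fun measurableSet_Ioi hinner
    rw [hμ] at hD
    rw [e4, integral_div, integral_sub (hD.const_mul _)
      (h.dl_LD.integrable 0 (lt_of_le_of_lt (by linarith [h.h0]) hs)), integral_const_mul,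
      integral_complex_ofReal]
    rfl
  rw [hleft, hright] at hswap
  have h5 : Lp a kk 0 s = -((cexp (-(s * a)) * ((∫ r in Ioi a, dl r : ℝ) : ℂ) -
      Lp a dl 0 s) / s) := by
    rw [← hswap, neg_neg]
  rw [h5]
  field_simp
  ring

end

end Pool.Agent.V11272.RB
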