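import Pool.Agent.V11272.RB.Tr

set_option autoImplicit false

/-! The relations between the transforms. -/

namespace Pool.Agent.V11272.RB

open Complex Filter Topology MeasureTheory Set

noncomputable section

variable {α C : ℝ}

/-- the total integral of `dl` -/
def J0 : ℝ := ∫ r in Ioi (Real.log 2), dl r

lemma eqOn_HP {α : ℝ} {f g : ℂ → ℂ} (hα : 0 ≤ α) (hf : DifferentiableOn ℂ f (HP α))
    (hg : DifferentiableOn ℂ g (HP α)) (h : ∀ s : ℂ, 0 < s.re → f s = g s) :
    EqOn f g (HP α) := by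
  have hf' : AnalyticOnNhd ℂ f (HP α) := hf.analyticOnNhd (isOpen_HP α)
  have hg' : AnalyticOnNhd ℂ g (HP α) := hg.analyticOnNhd (isOpen_HP α)
  have h1 : (1 : ℂ) ∈ HP α := by
    show -α < (1 : ℂ).re
    rw [Complex.one_re]; linarith
  refine hf'.eqOn_of_preconnected_of_eventuallyEq hg' (convex_HP α).isPreconnected h1 ?_
  have h2 : {s : ℂ | 0 < s.re} ∈ 𝓝 (1 : ℂ) :=
    (isOpen_lt continuous_const Complex.continuous_re).mem_nhds (by simp)
  filter_upwards [h2] with s hs
  exact h s hs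

lemma PD.rel (h : PD α C) : ∀ s ∈ HP α, s * Lp (Real.log 2) kk 0 s =
    Lp (Real.log 2) dl 0 s - cexp (-(s * Real.log 2)) * (J0 : ℂ) := by
  obtain ⟨C', hk⟩ := h.kk_LD
  refine eqOn_HP (f := fun s => s * Lp (Real.log 2) kk 0 s)
    (g := fun s => Lp (Real.log 2) dl 0 s - cexp (-(s * Real.log 2)) * (J0 : ℂ)) h.h0 ?_ ?_ ?_
  · exact differentiableOn_id.mul (hk.differentiableOn 0)
  · refine (h.dl_LD.differentiableOn 0).sub (DifferentiableOn.mul_const ?_ _)
    exact (by fun_prop : Differentiable ℂ fun s : ℂ => cexp (-(s * Real.log 2))).differentiableOn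
  · intro s hs
    exact rel_pos h hs

/-- the derivatives of the relation -/
lemma PD.rel_iter (h : PD α C) (m : ℕ) : ∀ s ∈ HP α,
    s * Lp (Real.log 2) kk m s - m * Lp (Real.log 2) kk (m - 1) s =
      Lp (Real.log 2) dl m s - (Real.log 2 : ℂ) ^ m * (cexp (-(s * Real.log 2)) * (J0 : ℂ)) := by
  obtain ⟨C', hk⟩ := h.kk_LD
  induction m with
  | zero =>
    intro s hs
    have := h.rel s hs
    simpa using this
  | succ m ih =>
    intro s hs
    have e1 : (fun s : ℂ => s * Lp (Real.log 2) kk m s - m * Lp (Real.log 2) kk (m - 1) s) =ᶠ[𝓝 s]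
        fun s => Lp (Real.log 2) dl m s -
          (Real.log 2 : ℂ) ^ m * (cexp (-(s * Real.log 2)) * (J0 : ℂ)) := by
      filter_upwards [(isOpen_HP α).mem_nhds hs] with z hz
      exact ih z hz
    have d1 : HasDerivAt (fun s : ℂ => s * Lp (Real.log 2) kk m s - m * Lp (Real.log 2) kk (m - 1) s)
        ((1 * Lp (Real.log 2) kk m s + s * (-Lp (Real.log 2) kk (m + 1) s)) -
          m * (-Lp (Real.log 2) kk (m - 1 + 1) s)) s :=
      ((hasDerivAt_id s).mul (hk.hasDerivAt m hs)).sub ((hk.hasDerivAt (m - 1) hs).const_mul _)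
    have d0 : HasDerivAt (fun s : ℂ => cexp (-(s * Real.log 2)))
        (cexp (-(s * Real.log 2)) * (-(Real.log 2 : ℂ))) s := by
      have h0 : HasDerivAt (fun z : ℂ => z * (Real.log 2 : ℂ)) (Real.log 2 : ℂ) s := by
        simpa using (hasDerivAt_id s).mul_const (Real.log 2 : ℂ)
      have h1 : HasDerivAt (fun z : ℂ => -(z * (Real.log 2 : ℂ))) (-(Real.log 2 : ℂ)) s := h0.neg
      exact h1.cexp
    have d2 : HasDerivAt (fun s : ℂ => Lp (Real.log 2) dl m s -
          (Real.log 2 : ℂ) ^ m * (cexp (-(s * Real.log 2)) * (J0 : ℂ)))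
        (-Lp (Real.log 2) dl (m + 1) s - (Real.log 2 : ℂ) ^ m *
          (cexp (-(s * Real.log 2)) * (-(Real.log 2 : ℂ)) * (J0 : ℂ))) s :=
      (h.dl_LD.hasDerivAt m hs).sub ((d0.mul_const _).const_mul _)
    have e2 := (d1.congr_of_eventuallyEq e1.symm).unique d2
    have e3 : (m : ℂ) * Lp (Real.log 2) kk (m - 1 + 1) s = m * Lp (Real.log 2) kk m s := by
      rcases m with _ | m
      · simp
      · simp
    simp only [mul_neg, sub_neg_eq_add] at e2
    rw [e3] at e2
    have e4 : m + 1 - 1 = m := by omega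
    rw [e4]
    push_cast
    rw [pow_succ]
    linear_combination -e2

lemma PD.norm_dl_le (h : PD α C) (m : ℕ) {s : ℂ} (hs : s ∈ HP α) :
    ‖Lp (Real.log 2) dl m s‖ ≤ ‖s‖ * ‖Lp (Real.log 2) kk m s‖ +
      m * ‖Lp (Real.log 2) kk (m - 1) s‖ + ‖cexp (-(s * Real.log 2))‖ * |J0| := by
  have h1 := h.rel_iter m s hs
  have h2 : Lp (Real.log 2) dl m s = s * Lp (Real.log 2) kk m s -
      m * Lp (Real.log 2) kk (m - 1) s +
      (Real.log 2 : ℂ) ^ m * (cexp (-(s * Real.log 2)) * (J0 : ℂ)) := by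
    rw [h1]; ring
  rw [h2]
  refine (norm_add_le _ _).trans (add_le_add ((norm_sub_le _ _).trans (add_le_add ?_ ?_)) ?_)
  · rw [norm_mul]
  · rw [norm_mul, Complex.norm_natCast]
  · rw [norm_mul, norm_mul, norm_pow, Complex.norm_real, Complex.norm_real, Real.norm_eq_abs,
      Real.norm_eq_abs, abs_of_pos L2_pos]
    have h3 : Real.log 2 ^ m ≤ 1 := pow_le_one₀ L2_pos.le L2_le
    have h4 : 0 ≤ ‖cexp (-(s * Real.log 2))‖ * |J0| := by positivity
    calc Real.log 2 ^ m * (‖cexp (-(s * Real.log 2))‖ * |J0|)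
        ≤ 1 * (‖cexp (-(s * Real.log 2))‖ * |J0|) := mul_le_mul_of_nonneg_right h3 h4
      _ = _ := one_mul _

end

end Pool.Agent.V11272.RB
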