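import Pool.Agent.V11272.RB.Count

set_option autoImplicit false

/-! The upper bounds for the number of exceptional integers. -/

namespace Pool.Agent.V11272.RB

open Filter Topology Set MeasureTheory

noncomputable section

open Classical in
/-- number of Nicolas-type exceptions up to `x` -/
def FC (x : ℝ) : ℝ := (((Finset.Icc 3 ⌊x⌋₊).filter Exc).card : ℝ)

lemma FC_nonneg (x : ℝ) : 0 ≤ FC x := Nat.cast_nonneg _

theorem count_upper' {x L B : ℝ} (hx : 16 ≤ x) (hL : L = Real.log x) (hB : 1 ≤ B)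
    (hM : ∀ n : ℕ, 3 ≤ Real.log n → Real.log n ≤ L → Exc n → ((Mis n).card : ℝ) ≤ B)
    (hT : ∀ k : ℕ, (k : ℝ) ≤ L → k - Chebyshev.theta k ≤ B) :
    FC x ≤ Real.exp (9 * B * Real.log (L + 1)) := by
  have hL2 : 2 ≤ L := by
    rw [hL, Real.le_log_iff_exp_le (by linarith)]
    have := Real.exp_one_lt_d9
    have h2 : Real.exp 2 = Real.exp 1 * Real.exp 1 := by rw [← Real.exp_add]; norm_num
    rw [h2]
    have h0 := Real.exp_pos 1
    nlinarith
  have hlog : 1 ≤ Real.log (L + 1) := by
    rw [Real.le_log_iff_exp_le (by linarith)]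
    have := Real.exp_one_lt_d9
    linarith
  have h1 := count_upper (x := x) (L := L) (T := B) (M := ⌊B⌋₊) (by linarith) hL
    (fun n a b c => Nat.le_floor (hM n a b c)) hT
  have hfl : ((⌊B⌋₊ : ℕ) : ℝ) ≤ B := Nat.floor_le (by linarith)
  set Z := 2 * (⌊B⌋₊ : ℝ) * Real.log (L + 1) + 1 + B with hZ
  have hZ0 : 0 ≤ Z := by
    have : (0 : ℝ) ≤ ⌊B⌋₊ := Nat.cast_nonneg _
    rw [hZ]; positivity
  have hZle : Z ≤ 2 * B * Real.log (L + 1) + 1 + B := by
    rw [hZ]
    have := mul_le_mul_of_nonneg_right hfl (by linarith : 0 ≤ Real.log (L + 1))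
    linarith
  have h2 : Real.exp 3 + (L + 1) * Real.exp Z ≤ Real.exp (4 + Real.log (L + 1) + Z) := by
    have e1 : 1 ≤ Real.exp Z := Real.one_le_exp hZ0
    have e3 : Real.exp (4 + Real.log (L + 1) + Z) = Real.exp 4 * (L + 1) * Real.exp Z := by
      rw [Real.exp_add, Real.exp_add, Real.exp_log (by linarith)]
    have e4 : Real.exp 4 = Real.exp 3 * Real.exp 1 := by rw [← Real.exp_add]; norm_num
    have e5 : 2 ≤ Real.exp 1 := by have := Real.exp_one_gt_d9; linarith
    have e6 : 1 ≤ Real.exp 3 := Real.one_le_exp (by norm_num)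
    have e7 : Real.exp 3 + (L + 1) ≤ Real.exp 4 * (L + 1) := by
      rw [e4]
      nlinarith [mul_nonneg (by linarith : 0 ≤ Real.exp 3 - 1) (by linarith : 0 ≤ L)]
    rw [e3]
    calc Real.exp 3 + (L + 1) * Real.exp Z ≤ Real.exp 3 * Real.exp Z + (L + 1) * Real.exp Z := by
          nlinarith
      _ = (Real.exp 3 + (L + 1)) * Real.exp Z := by ring
      _ ≤ _ := by gcongr
  have h3 : 4 + Real.log (L + 1) + Z ≤ 9 * B * Real.log (L + 1) := by
    nlinarith [mul_nonneg (by linarith : 0 ≤ B - 1) (by linarith : 0 ≤ Real.log (L + 1) - 1)]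
  unfold FC
  exact h1.trans (h2.trans (Real.exp_le_exp.2 h3))

lemma card_from_sq {m Q : ℝ} (_hm : 0 ≤ m) (h : m * (m - 1) ≤ Q) (hQ : 0 ≤ Q) : m ≤ 1 + √Q := by
  by_contra hc
  push Not at hc
  have h1 := Real.sqrt_nonneg Q
  have h2 := Real.mul_self_sqrt hQ
  nlinarith

/-- the power bound -/
theorem upper_pow {θ ε : ℝ} (h0 : 1 / 2 ≤ θ) (h1 : θ < 1) (hε : 0 < ε)
    (hz : ∀ s : ℂ, θ < s.re → riemannZeta s ≠ 0) :
    ∀ᶠ x : ℝ in atTop, FC x ≤ Real.exp ((Real.log x) ^ ((1 + θ) / 2 + ε)) := by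
  set ε' := min ε ((1 - θ) / 2) with hε'
  have hε'0 : 0 < ε' := lt_min hε (by linarith)
  have hε'1 : ε' ≤ ε := min_le_left _ _
  have hε'2 : ε' ≤ (1 - θ) / 2 := min_le_right _ _
  set α := 1 - θ - ε' with hα
  have hα0 : 0 ≤ α := by rw [hα]; linarith
  have hα1 : α < 1 - θ := by rw [hα]; linarith
  obtain ⟨C, hPD⟩ := PD_pos (A := 1 - θ) (α := α) (by linarith) hα0 hα1 (by
    intro s hs; exact hz s (by linarith))
  obtain ⟨C', hk⟩ := hPD.kk_LD
  obtain ⟨C2, hC2, hDD⟩ := DD_upper
  obtain ⟨C3, hC3⟩ := Chebyshev.psi_sub_theta_le_mul_sqrt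
  have hC30 : 0 ≤ C3 := by
    have h1 := hC3 1
    have h2 := Chebyshev.theta_le_psi 1
    simp at h1
    linarith
  have hC0 := hPD.C_nonneg
  have hC'0 := hk.C_nonneg
  set a := 1 - α / 2 with ha
  have ha0 : 0 < a := by rw [ha]; linarith
  -- bound for DD
  have hD : ∀ y : ℝ, 3 ≤ y → DD y ≤ (C' + C2) * y ^ (-α) := by
    intro y hy
    have hy0 : 0 < y := by linarith
    have h2 := hDD y (by linarith)
    have h3 := hk.bd (Real.log y) (Real.log_lt_log (by norm_num) (by linarith))
    have h4 : Real.exp (-(α * Real.log y)) = y ^ (-α) := by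
      rw [Real.rpow_def_of_pos hy0]; congr 1; ring
    rw [h4] at h3
    have h5 : y ^ (-(1 / 2) : ℝ) ≤ y ^ (-α) := Real.rpow_le_rpow_of_exponent_le (by linarith) (by linarith)
    have h6 := le_abs_self (kk (Real.log y))
    nlinarith
  set C4 : ℝ := 3 + √(2 * (C' + C2)) + C + 3 * C3 + 3 with hC4
  have hC40 : 1 ≤ C4 := by
    rw [hC4]
    have := Real.sqrt_nonneg (2 * (C' + C2))
    linarith
  have hmain : ∀ x : ℝ, 16 ≤ x → FC x ≤ Real.exp (9 * (C4 * Real.log x ^ a) * Real.log (Real.log x + 1)) := by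
    intro x hx
    set L := Real.log x with hL
    have hL2 : 2 ≤ L := by
      rw [hL, Real.le_log_iff_exp_le (by linarith)]
      have := Real.exp_one_lt_d9
      have h2 : Real.exp 2 = Real.exp 1 * Real.exp 1 := by rw [← Real.exp_add]; norm_num
      rw [h2]
      have h0 := Real.exp_pos 1
      nlinarith
    have hLa : 1 ≤ L ^ a := Real.one_le_rpow (by linarith) ha0.le
    refine count_upper' hx hL ?_ ?_ ?_
    · nlinarith
    · intro n hn1 hn2 hn3
      set y := Real.log n with hy
      have hy0 : 0 < y := by linarith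
      have hn0 : n ≠ 0 := by
        have := hn3.1
        omega
      have h2 := missing_card hn0 hy hn1 hn3.2
      have h3 : 2 * y ^ 2 * DD y + 4 ≤ 2 * (C' + C2) * L ^ (2 * a) + 4 := by
        have h4 := hD y hn1
        have h5 : y ^ (2 * a) ≤ L ^ (2 * a) := Real.rpow_le_rpow hy0.le hn2 (by linarith)
        have h6 : y ^ 2 * y ^ (-α) = y ^ (2 * a) := by
          rw [← Real.rpow_natCast y 2, ← Real.rpow_add hy0]
          congr 1
          rw [ha]; push_cast; ring
        have h7 : y ^ 2 * DD y ≤ (C' + C2) * y ^ (2 * a) := by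
          rw [← h6]
          nlinarith [sq_nonneg y]
        nlinarith
      have h4 := card_from_sq (Nat.cast_nonneg _) (h2.trans h3) (by positivity)
      have h5 : √(2 * (C' + C2) * L ^ (2 * a) + 4) ≤ √(2 * (C' + C2)) * L ^ a + 2 := by
        have h6 : L ^ (2 * a) = (L ^ a) ^ 2 := by
          rw [← Real.rpow_natCast (L ^ a) 2, ← Real.rpow_mul (by linarith)]
          congr 1
          push_cast; ring
        have h7 := Real.sqrt_nonneg (2 * (C' + C2))
        have h8 := Real.sq_sqrt (show 0 ≤ 2 * (C' + C2) by linarith)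
        rw [h6]
        apply Real.sqrt_le_iff.2
        refine ⟨by positivity, ?_⟩
        have h9 : 0 ≤ √(2 * (C' + C2)) * L ^ a := by positivity
        have e : (√(2 * (C' + C2)) * L ^ a + 2) ^ 2 = (√(2 * (C' + C2))) ^ 2 * (L ^ a) ^ 2 + 4 +
          4 * (√(2 * (C' + C2)) * L ^ a) := by ring
        rw [e, h8]
        linarith
      calc ((Mis n).card : ℝ) ≤ 1 + (√(2 * (C' + C2)) * L ^ a + 2) := by linarith
        _ ≤ C4 * L ^ a := by
          rw [hC4]
          nlinarith
    · intro k hk'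
      have hk0 : (0 : ℝ) ≤ k := Nat.cast_nonneg k
      by_cases hk3 : (k : ℝ) < 3
      · have := Chebyshev.theta_nonneg (k : ℝ)
        have h5 : 3 ≤ C4 := by
          rw [hC4]
          have := Real.sqrt_nonneg (2 * (C' + C2))
          linarith
        nlinarith
      · push Not at hk3
        have hkpos : (0 : ℝ) < k := by linarith
        have h2 := hPD.bd (Real.log k) (Real.log_lt_log (by norm_num) (by linarith))
        rw [Fp_abs, Real.exp_log hkpos, Real.exp_neg, Real.exp_log hkpos] at h2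
        have h4 : Real.exp (-(α * Real.log k)) = (k : ℝ) ^ (-α) := by
          rw [Real.rpow_def_of_pos hkpos]; congr 1; ring
        rw [h4] at h2
        have h5 : |Chebyshev.psi (k : ℝ) - k| ≤ C * (k : ℝ) ^ a := by
          have h6 : |Chebyshev.psi (k : ℝ) - k| ≤ C * (k : ℝ) ^ (-α) * k := by
            rwa [← div_eq_mul_inv, div_le_iff₀ hkpos] at h2
          have h7 : (k : ℝ) ^ (-α) * k = (k : ℝ) ^ (1 - α) := by
            rw [show (1 - α) = -α + 1 by ring, Real.rpow_add_one hkpos.ne']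
          have h8 : (k : ℝ) ^ (1 - α) ≤ (k : ℝ) ^ a :=
            Real.rpow_le_rpow_of_exponent_le (by linarith) (by rw [ha]; linarith)
          calc _ ≤ C * (k : ℝ) ^ (-α) * k := h6
            _ = C * ((k : ℝ) ^ (-α) * k) := by ring
            _ ≤ C * (k : ℝ) ^ a := by rw [h7]; gcongr
        have h6 := hC3 (k : ℝ)
        have h7 : √(k : ℝ) ≤ (k : ℝ) ^ a := by
          rw [Real.sqrt_eq_rpow]
          exact Real.rpow_le_rpow_of_exponent_le (by linarith) (by rw [ha]; linarith)
        have h8 : (k : ℝ) ^ a ≤ L ^ a := Real.rpow_le_rpow hk0 hk' ha0.le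
        have h9 := neg_abs_le (Chebyshev.psi (k : ℝ) - k)
        have h10 : 0 ≤ (k : ℝ) ^ a := by positivity
        calc (k : ℝ) - Chebyshev.theta k = -(Chebyshev.psi (k : ℝ) - k) +
              (Chebyshev.psi (k : ℝ) - Chebyshev.theta k) := by ring
          _ ≤ C * (k : ℝ) ^ a + C3 * (k : ℝ) ^ a := by
              have : C3 * √(k : ℝ) ≤ C3 * (k : ℝ) ^ a := mul_le_mul_of_nonneg_left h7 hC30
              linarith
          _ = (C + C3) * (k : ℝ) ^ a := by ring
          _ ≤ (C + C3) * L ^ a := mul_le_mul_of_nonneg_left h8 (by linarith)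
          _ ≤ C4 * L ^ a := by
              refine mul_le_mul_of_nonneg_right ?_ (by linarith)
              rw [hC4]
              have := Real.sqrt_nonneg (2 * (C' + C2))
              linarith
  -- growth
  have hab : 0 < (1 + θ) / 2 + ε - a := by rw [ha, hα]; linarith
  set d := (1 + θ) / 2 + ε - a with hd
  have hgrow : ∀ᶠ L : ℝ in atTop, 9 * (C4 * L ^ a) * Real.log (L + 1) ≤ L ^ ((1 + θ) / 2 + ε) := by
    have h2 := (isLittleO_log_rpow_atTop (r := d) hab).bound (c := 1 / (18 * C4)) (by positivity)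
    filter_upwards [h2, eventually_ge_atTop (2 : ℝ)] with L hL hL2
    have hlog : 0 ≤ Real.log L := Real.log_nonneg (by linarith)
    have hL0 : 0 < L := by linarith
    rw [Real.norm_of_nonneg hlog, Real.norm_of_nonneg (by positivity)] at hL
    have h3 : Real.log (L + 1) ≤ 2 * Real.log L := by
      have : Real.log (L ^ 2) = 2 * Real.log L := by
        rw [Real.log_pow]; push_cast; ring
      rw [← this]
      exact Real.log_le_log (by linarith) (by nlinarith)
    have h4 : L ^ ((1 + θ) / 2 + ε) = L ^ a * L ^ d := by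
      rw [← Real.rpow_add hL0]
      congr 1
      rw [hd]; ring
    rw [h4]
    have h5 : 9 * C4 * (2 * Real.log L) ≤ L ^ d := by
      have : 18 * C4 * (1 / (18 * C4) * L ^ d) = L ^ d := by field_simp
      rw [← this]
      have := mul_le_mul_of_nonneg_left hL (show 0 ≤ 18 * C4 by linarith)
      linarith
    calc 9 * (C4 * L ^ a) * Real.log (L + 1) ≤ 9 * (C4 * L ^ a) * (2 * Real.log L) := by gcongr
      _ = L ^ a * (9 * C4 * (2 * Real.log L)) := by ring
      _ ≤ L ^ a * L ^ d := by gcongr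
  filter_upwards [Real.tendsto_log_atTop.eventually hgrow, eventually_ge_atTop (16 : ℝ)] with x hx hx16
  exact (hmain x hx16).trans (Real.exp_le_exp.2 hx)

end

end Pool.Agent.V11272.RB
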