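import Pool.Agent.V11272.RB.Upper

set_option autoImplicit false

/-! The unconditional upper bound for the number of exceptional integers. -/

namespace Pool.Agent.V11272.RB

open Filter Topology Set MeasureTheory

noncomputable section

lemma mono_log (J : ℕ) {y L : ℝ} (hy : 3 ≤ y) (hL : y ≤ L) :
    y / Real.log y ^ J ≤ (J.factorial * Real.exp 1) * (L / Real.log L ^ J) := by
  have hy0 : 0 < y := by linarith
  have hly : 1 ≤ Real.log y := by
    rw [Real.le_log_iff_exp_le hy0]
    have := Real.exp_one_lt_d9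
    linarith
  have hlL : 1 ≤ Real.log L := hly.trans (Real.log_le_log hy0 hL)
  obtain ⟨s, hs, rfl⟩ : ∃ s : ℝ, 1 ≤ s ∧ L = y * s :=
    ⟨L / y, by rwa [le_div_iff₀ hy0, one_mul], by field_simp⟩
  have hls : 0 ≤ Real.log s := Real.log_nonneg hs
  have h1 : Real.log (y * s) ≤ Real.log y * (1 + Real.log s) := by
    rw [Real.log_mul hy0.ne' (by linarith)]
    nlinarith
  have h2 : (1 + Real.log s) ^ J ≤ J.factorial * Real.exp 1 * s := by
    have := Real.pow_div_factorial_le_exp (1 + Real.log s) (by linarith) J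
    rw [Real.exp_add, Real.exp_log (by linarith), div_le_iff₀ (by positivity)] at this
    linarith
  have h3 : Real.log (y * s) ^ J ≤ Real.log y ^ J * (J.factorial * Real.exp 1 * s) := by
    calc Real.log (y * s) ^ J ≤ (Real.log y * (1 + Real.log s)) ^ J :=
          pow_le_pow_left₀ (by linarith) h1 J
      _ = Real.log y ^ J * (1 + Real.log s) ^ J := mul_pow _ _ _
      _ ≤ _ := by gcongr
  rw [← mul_div_assoc, div_le_div_iff₀ (by positivity) (by positivity)]
  calc y * Real.log (y * s) ^ J ≤ y * (Real.log y ^ J * (J.factorial * Real.exp 1 * s)) := by gcongr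
    _ = _ := by ring

lemma kk_logpow (K : ℕ) (hK : 1 ≤ K) : ∃ C : ℝ, 0 < C ∧ ∀ u : ℝ, Real.log 2 < u → |kk u| ≤ C / u ^ K := by
  obtain ⟨C, hC, h⟩ := psi_logpow K hK
  have hL := Real.log_two_gt_d9
  have hb : ∀ u : ℝ, Real.log 2 < u → |dl u| ≤ 4 * C * u ^ (-(K : ℝ) - 1) := by
    intro u hu
    have hu0 : 0 < u := L2_pos.trans hu
    have h2 : (2 : ℝ) ≤ Real.exp u := by
      rw [← Real.exp_log (show (0:ℝ) < 2 by norm_num)]
      exact Real.exp_le_exp.2 hu.le
    have h3 := h _ h2
    rw [Real.log_exp] at h3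
    rw [dl_of_gt hu, abs_mul, Fp_abs, abs_of_pos (show 0 < 1 / u + 1 / u ^ 2 by positivity)]
    have h4 : |Chebyshev.psi (Real.exp u) - Real.exp u| * Real.exp (-u) ≤ C / u ^ K := by
      calc _ ≤ (C * (Real.exp u / u ^ K)) * Real.exp (-u) := by gcongr
        _ = C / u ^ K * (Real.exp u * Real.exp (-u)) := by ring
        _ = C / u ^ K := by rw [← Real.exp_add]; simp
    have h5 : 1 / u + 1 / u ^ 2 ≤ 4 / u := by
      have h3 : 1 / u ≤ 1.5 := by
        rw [div_le_iff₀ hu0]; linarith
      have : 1 / u ^ 2 = 1 / u * (1 / u) := by field_simp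
      have h6 : 0 < 1 / u := by positivity
      rw [this, show 4 / u = 4 * (1 / u) by ring]
      nlinarith
    calc _ ≤ C / u ^ K * (4 / u) := by gcongr
      _ = 4 * C * u ^ (-(K : ℝ) - 1) := by
        rw [Real.rpow_sub_one hu0.ne', Real.rpow_neg hu0.le, Real.rpow_natCast]
        field_simp
  refine ⟨4 * C / K, by positivity, fun u hu => ?_⟩
  have hu0 : 0 < u := L2_pos.trans hu
  have hK0 : (0 : ℝ) < K := by exact_mod_cast hK
  rw [kk_eq integrable_dl, abs_neg]
  have hi : IntegrableOn (fun r : ℝ => 4 * C * r ^ (-(K : ℝ) - 1)) (Ioi u) :=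
    (integrableOn_Ioi_rpow_of_lt (by linarith) hu0).const_mul _
  calc |∫ r in Ioi u, dl r| ≤ ∫ r in Ioi u, 4 * C * r ^ (-(K : ℝ) - 1) := by
        rw [← Real.norm_eq_abs]
        refine norm_integral_le_of_norm_le hi ?_
        filter_upwards [ae_restrict_mem measurableSet_Ioi] with r hr
        rw [Real.norm_eq_abs]
        exact hb r (hu.trans hr)
    _ = 4 * C / K / u ^ K := by
        rw [integral_const_mul, integral_Ioi_rpow_of_lt (by linarith) hu0]
        have : -(K : ℝ) - 1 + 1 = -(K : ℝ) := by ring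
        rw [this, Real.rpow_neg hu0.le, Real.rpow_natCast]
        field_simp

/-- the unconditional bound -/
theorem upper_all (K : ℕ) : ∀ᶠ x : ℝ in atTop,
    FC x ≤ Real.exp (Real.log x / (Real.log (Real.log x)) ^ K) := by
  set J := K + 2 with hJ
  obtain ⟨C', hC', hkk⟩ := kk_logpow (2 * J) (by omega)
  obtain ⟨C, hC, hpsi⟩ := psi_logpow J (by omega)
  obtain ⟨C2, hC2, hDD⟩ := DD_upper
  obtain ⟨C3, hC3⟩ := Chebyshev.psi_sub_theta_le_mul_sqrt
  have hC30 : 0 ≤ C3 := by
    have h1 := hC3 1
    have h2 := Chebyshev.theta_le_psi 1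
    simp at h1
    linarith
  set F1 : ℝ := J.factorial * Real.exp 1 with hF1
  have hF10 : 0 < F1 := by positivity
  -- comparison of powers
  have hcmp : ∀ j : ℕ, ∀ y : ℝ, 3 ≤ y → y ^ (-(1 / 2) : ℝ) ≤ (2 ^ j * j.factorial) / Real.log y ^ j := by
    intro j y hy
    have hy0 : 0 < y := by linarith
    have hly : 0 < Real.log y := Real.log_pos (by linarith)
    have h1 := Real.pow_div_factorial_le_exp (Real.log y / 2) (by positivity) j
    have h2 : Real.exp (Real.log y / 2) = y ^ ((1 : ℝ) / 2) := by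
      rw [Real.rpow_def_of_pos hy0]; congr 1; ring
    rw [h2, div_pow] at h1
    rw [Real.rpow_neg hy0.le, le_div_iff₀ (by positivity), inv_mul_le_iff₀ (by positivity)]
    rw [div_div, div_le_iff₀ (by positivity)] at h1
    linarith
  set C5 : ℝ := C' + C2 * (2 ^ (2 * J) * (2 * J).factorial) with hC5
  have hC50 : 0 < C5 := by positivity
  have hD : ∀ y : ℝ, 3 ≤ y → y ^ 2 * DD y ≤ C5 * (y / Real.log y ^ J) ^ 2 := by
    intro y hy
    have hy0 : 0 < y := by linarith
    have hly : 0 < Real.log y := Real.log_pos (by linarith)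
    have h2 := hDD y (by linarith)
    have h3 := hkk (Real.log y) (Real.log_lt_log (by norm_num) (by linarith))
    have h4 := mul_le_mul_of_nonneg_left (hcmp (2 * J) y hy) hC2
    have h5 : DD y ≤ C5 / Real.log y ^ (2 * J) := by
      rw [hC5, add_div, mul_div_assoc]
      linarith [le_abs_self (kk (Real.log y))]
    calc y ^ 2 * DD y ≤ y ^ 2 * (C5 / Real.log y ^ (2 * J)) := by gcongr
      _ = C5 * (y / Real.log y ^ J) ^ 2 := by
        rw [div_pow, ← pow_mul, mul_comm J 2]; ring
  set F2 : ℝ := 2 ^ (2 * J) * (2 * J).factorial with hF2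
  set C8 : ℝ := C + C3 * F2 with hC8
  have hC80 : 0 < C8 := by positivity
  set C4 : ℝ := 3 * (F1 + 1) + √(2 * C5) * F1 + C8 * F1 with hC4
  have hC40 : 0 < C4 := by positivity
  have hlow : ∀ L : ℝ, 3 ≤ L → 1 ≤ F1 * (L / Real.log L ^ J) := by
    intro L hL
    have hL0 : 0 < L := by linarith
    have hly : 0 < Real.log L := Real.log_pos (by linarith)
    have h1 := Real.pow_div_factorial_le_exp (Real.log L) hly.le J
    rw [Real.exp_log hL0, div_le_iff₀ (by positivity)] at h1
    rw [← mul_div_assoc, le_div_iff₀ (by positivity), one_mul, hF1]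
    have h2 : 1 ≤ Real.exp 1 := Real.one_le_exp (by norm_num)
    calc Real.log L ^ J ≤ L * J.factorial := h1
      _ = (J.factorial * 1) * L := by ring
      _ ≤ _ := by gcongr
  have hmain : ∀ x : ℝ, 16 ≤ x → 3 ≤ Real.log x → FC x ≤
      Real.exp (9 * ((C4 + F1) * (Real.log x / Real.log (Real.log x) ^ J)) * Real.log (Real.log x + 1)) := by
    intro x hx hL3
    set L := Real.log x with hL
    have hlL : 0 < Real.log L := Real.log_pos (by linarith)
    set Q := L / Real.log L ^ J with hQ
    have hQ0 : 0 < Q := by rw [hQ]; positivity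
    have hQ1 := hlow L hL3
    rw [← hQ] at hQ1
    have hmono : ∀ y : ℝ, 3 ≤ y → y ≤ L → y / Real.log y ^ J ≤ F1 * Q := fun y hy hyL =>
      mono_log J hy hyL
    have hs0 := Real.sqrt_nonneg (2 * C5)
    refine count_upper' hx hL ?_ ?_ ?_
    · rw [add_mul]
      have : 0 ≤ C4 * Q := by positivity
      linarith
    · intro n hn1 hn2 hn3
      set y := Real.log n with hy
      have hy0 : 0 < y := by linarith
      have hly : 0 < Real.log y := Real.log_pos (by linarith)
      have hn0 : n ≠ 0 := by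
        have := hn3.1
        omega
      have h2 := missing_card hn0 hy hn1 hn3.2
      have h3 : 2 * y ^ 2 * DD y + 4 ≤ 2 * C5 * (F1 * Q) ^ 2 + 4 := by
        have h4 := hD y hn1
        have h5 := hmono y hn1 hn2
        have h6 : (y / Real.log y ^ J) ^ 2 ≤ (F1 * Q) ^ 2 := pow_le_pow_left₀ (by positivity) h5 2
        have h7 : C5 * (y / Real.log y ^ J) ^ 2 ≤ C5 * (F1 * Q) ^ 2 := by gcongr
        linarith
      have h4 := card_from_sq (Nat.cast_nonneg _) (h2.trans h3) (by positivity)
      have h5 : √(2 * C5 * (F1 * Q) ^ 2 + 4) ≤ √(2 * C5) * (F1 * Q) + 2 := by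
        have h8 := Real.sq_sqrt (show 0 ≤ 2 * C5 by linarith)
        apply Real.sqrt_le_iff.2
        refine ⟨by positivity, ?_⟩
        have h9 : 0 ≤ √(2 * C5) * (F1 * Q) := by positivity
        have e : (√(2 * C5) * (F1 * Q) + 2) ^ 2 = (√(2 * C5)) ^ 2 * (F1 * Q) ^ 2 + 4 +
          4 * (√(2 * C5) * (F1 * Q)) := by ring
        rw [e, h8]
        linarith
      calc ((Mis n).card : ℝ) ≤ 1 + (√(2 * C5) * (F1 * Q) + 2) := by linarith
        _ ≤ (C4 + F1) * Q := by
          rw [hC4]
          have h9 : 0 ≤ C8 * F1 * Q := by positivity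
          have h10 : 0 ≤ F1 * Q := by positivity
          nlinarith
    · intro k hk'
      have hk0 : (0 : ℝ) ≤ k := Nat.cast_nonneg k
      by_cases hk3 : (k : ℝ) < 3
      · have := Chebyshev.theta_nonneg (k : ℝ)
        have h9 : 0 ≤ C8 * F1 * Q := by positivity
        have h10 : 0 ≤ F1 * Q := by positivity
        have h11 : 0 ≤ √(2 * C5) * F1 * Q := by positivity
        rw [hC4]
        nlinarith
      · push Not at hk3
        have hkpos : (0 : ℝ) < k := by linarith
        have hlk : 0 < Real.log (k : ℝ) := Real.log_pos (by linarith)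
        have h2 := hpsi k (by linarith)
        have h6 := hC3 (k : ℝ)
        have h7 : √(k : ℝ) ≤ F2 * ((k : ℝ) / Real.log k ^ J) := by
          have h8 := hcmp J k hk3
          have h9 : √(k : ℝ) = k * (k : ℝ) ^ (-(1 / 2) : ℝ) := by
            rw [Real.sqrt_eq_rpow, mul_comm, ← Real.rpow_add_one hkpos.ne']
            norm_num
          rw [h9]
          have h10 : (2 : ℝ) ^ J * J.factorial ≤ F2 := by
            rw [hF2]
            have a1 : (2 : ℝ) ^ J ≤ 2 ^ (2 * J) := pow_le_pow_right₀ (by norm_num) (by omega)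
            have a2 : ((J.factorial : ℕ) : ℝ) ≤ ((2 * J).factorial : ℕ) := by
              exact_mod_cast Nat.factorial_le (by omega : J ≤ 2 * J)
            exact mul_le_mul a1 a2 (by positivity) (by positivity)
          calc (k : ℝ) * (k : ℝ) ^ (-(1 / 2) : ℝ) ≤ k * ((2 ^ J * J.factorial) / Real.log k ^ J) := by
                gcongr
            _ = (2 ^ J * J.factorial) * ((k : ℝ) / Real.log k ^ J) := by ring
            _ ≤ _ := by gcongr
        have h9 := neg_abs_le (Chebyshev.psi (k : ℝ) - k)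
        calc (k : ℝ) - Chebyshev.theta k = -(Chebyshev.psi (k : ℝ) - k) +
              (Chebyshev.psi (k : ℝ) - Chebyshev.theta k) := by ring
          _ ≤ C * ((k : ℝ) / Real.log k ^ J) + C3 * (F2 * ((k : ℝ) / Real.log k ^ J)) := by
              have : C3 * √(k : ℝ) ≤ C3 * (F2 * ((k : ℝ) / Real.log k ^ J)) :=
                mul_le_mul_of_nonneg_left h7 hC30
              linarith
          _ = C8 * ((k : ℝ) / Real.log k ^ J) := by rw [hC8]; ring
          _ ≤ C8 * (F1 * Q) := mul_le_mul_of_nonneg_left (hmono k hk3 hk') hC80.le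
          _ ≤ (C4 + F1) * Q := by
              rw [hC4]
              have h10 : 0 ≤ F1 * Q := by positivity
              have h11 : 0 ≤ √(2 * C5) * F1 * Q := by positivity
              nlinarith
  have hgrow : ∀ᶠ L : ℝ in atTop, 9 * ((C4 + F1) * (L / Real.log L ^ J)) * Real.log (L + 1) ≤
      L / Real.log L ^ K := by
    have h2 : ∀ᶠ L : ℝ in atTop, 18 * (C4 + F1) ≤ Real.log L :=
      Real.tendsto_log_atTop.eventually_ge_atTop _
    filter_upwards [h2, eventually_ge_atTop (2 : ℝ)] with L hL hL2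
    have hlog : 0 < Real.log L := Real.log_pos (by linarith)
    have hL0 : 0 < L := by linarith
    have h3 : Real.log (L + 1) ≤ 2 * Real.log L := by
      have : Real.log (L ^ 2) = 2 * Real.log L := by
        rw [Real.log_pow]; push_cast; ring
      rw [← this]
      exact Real.log_le_log (by linarith) (by nlinarith)
    have h4 : L / Real.log L ^ J = L / Real.log L ^ K / Real.log L ^ 2 := by
      rw [hJ, pow_add, div_div]
    rw [h4]
    have h5 : 0 < L / Real.log L ^ K := by positivity
    calc 9 * ((C4 + F1) * (L / Real.log L ^ K / Real.log L ^ 2)) * Real.log (L + 1)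
        ≤ 9 * ((C4 + F1) * (L / Real.log L ^ K / Real.log L ^ 2)) * (2 * Real.log L) := by gcongr
      _ = (L / Real.log L ^ K) * (18 * (C4 + F1) / Real.log L) := by field_simp; ring
      _ ≤ (L / Real.log L ^ K) * 1 := by
          gcongr
          rwa [div_le_one hlog]
      _ = _ := mul_one _
  filter_upwards [Real.tendsto_log_atTop.eventually hgrow, eventually_ge_atTop (16 : ℝ),
    Real.tendsto_log_atTop.eventually_ge_atTop 3] with x hx hx16 hx3
  exact (hmain x hx16 hx3).trans (Real.exp_le_exp.2 hx)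

end

end Pool.Agent.V11272.RB
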