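import Pool.Agent.V11272.RB.Tr2
import Pool.Agent.W190.A17

set_option autoImplicit false

/-! The transform of `ψ` in terms of zeta. -/

namespace Pool.Agent.V11272.RB

open Complex Filter Topology MeasureTheory Set
open H353 (FF)

noncomputable section

variable {α C : ℝ}

/-- change of variables for the Chebyshev function -/
lemma psi_integral (w : ℂ) : ∫ t in Ioi (1 : ℝ), ((Chebyshev.psi t : ℝ) : ℂ) * (t : ℂ) ^ (-(w + 1)) =
    ∫ u in Ioi (Real.log 2), ((Chebyshev.psi (Real.exp u) : ℝ) : ℂ) * cexp (-(w * u)) := by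
  have himg : Real.exp '' (Ioi (Real.log 2)) = Ioi (2 : ℝ) := by
    ext t
    constructor
    · rintro ⟨u, hu, rfl⟩
      have := Real.exp_lt_exp.2 (show Real.log 2 < u from hu)
      rwa [Real.exp_log (by norm_num)] at this
    · intro ht
      have ht' : (2 : ℝ) < t := ht
      refine ⟨Real.log t, Real.log_lt_log (by norm_num) ht', Real.exp_log (by linarith)⟩
  have h1 : ∫ t in Ioi (1 : ℝ), ((Chebyshev.psi t : ℝ) : ℂ) * (t : ℂ) ^ (-(w + 1)) =
      ∫ t in Ioi (2 : ℝ), ((Chebyshev.psi t : ℝ) : ℂ) * (t : ℂ) ^ (-(w + 1)) := by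
    rw [← integral_Ici_eq_integral_Ioi (x := (2 : ℝ))]
    refine (setIntegral_eq_of_subset_of_forall_sdiff_eq_zero measurableSet_Ioi ?_ ?_)
    · intro t ht
      have : (2 : ℝ) ≤ t := ht
      show (1 : ℝ) < t
      linarith
    · intro t ht
      have h2 : t < 2 := by
        by_contra hc
        exact ht.2 (not_lt.1 hc)
      rw [Chebyshev.psi_eq_zero_of_lt_two h2]
      simp
  rw [h1, ← himg, integral_image_eq_integral_abs_deriv_smul measurableSet_Ioi
    (fun u _ => (Real.hasDerivAt_exp u).hasDerivWithinAt) Real.exp_injective.injOn]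
  refine setIntegral_congr_fun measurableSet_Ioi fun u _ => ?_
  rw [abs_of_pos (Real.exp_pos u), Complex.real_smul, Complex.ofReal_exp,
    Complex.cpow_def_of_ne_zero (Complex.exp_ne_zero _), ← Complex.ofReal_exp, ← Complex.ofReal_log
    (Real.exp_pos u).le, Real.log_exp, Complex.ofReal_exp]
  rw [mul_left_comm, ← Complex.exp_add]
  congr 2
  ring

/-- the transform in terms of zeta -/
lemma Lp_Fp_zeta (h : PD α C) {s : ℂ} (hs : 0 < s.re) :
    (1 + s) * Lp (Real.log 2) Fp 0 s = -deriv riemannZeta (1 + s) / riemannZeta (1 + s) -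
      (1 + s) * (cexp (-(s * Real.log 2)) / s) := by
  have hw : 1 < (1 + s).re := by simp [hs]
  have hs0 : s ≠ 0 := by rintro rfl; simp at hs
  have e1 := ArithmeticFunction.LSeries_vonMangoldt_eq_deriv_riemannZeta_div hw
  have hO : (fun n : ℕ => ∑ k ∈ Finset.Icc 1 n, (ArithmeticFunction.vonMangoldt k : ℝ))
      =O[atTop] fun n : ℕ => (n : ℝ) ^ (1 : ℝ) := by
    obtain ⟨c, hc⟩ : ∃ c : ℝ, ∀ x : ℝ, 0 ≤ x → Chebyshev.psi x ≤ c * x :=
      ⟨_, fun x hx => Chebyshev.psi_le_const_mul_self hx⟩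
    refine Asymptotics.IsBigO.of_bound c (Eventually.of_forall fun n => ?_)
    rw [Real.rpow_one, Real.norm_eq_abs, Real.norm_eq_abs, Nat.abs_cast,
      abs_of_nonneg (Finset.sum_nonneg fun _ _ => ArithmeticFunction.vonMangoldt_nonneg)]
    have h2 := hc n (Nat.cast_nonneg n)
    have h3 : Chebyshev.psi (n : ℝ) = ∑ k ∈ Finset.Icc 1 n, ArithmeticFunction.vonMangoldt k := by
      rw [Chebyshev.psi, Nat.floor_natCast]
      rfl
    rw [← h3]
    exact h2
  have e2 := LSeries_eq_mul_integral_of_nonneg (fun n => (ArithmeticFunction.vonMangoldt n : ℝ))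
    zero_le_one hw hO (fun n => ArithmeticFunction.vonMangoldt_nonneg)
  rw [e1] at e2
  have e3 : ∫ t in Ioi (1 : ℝ), (∑ k ∈ Finset.Icc 1 ⌊t⌋₊, ((ArithmeticFunction.vonMangoldt k : ℝ) : ℂ)) *
      (t : ℂ) ^ (-((1 + s) + 1)) =
      ∫ t in Ioi (1 : ℝ), ((Chebyshev.psi t : ℝ) : ℂ) * (t : ℂ) ^ (-((1 + s) + 1)) := by
    refine setIntegral_congr_fun measurableSet_Ioi fun t _ => ?_
    congr 1
    rw [← Complex.ofReal_sum]
    rfl
  rw [e3, psi_integral] at e2
  have hint := h.Fp_LD.integrable 0 (s := s) (by linarith [h.h0])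
  have hE : IntegrableOn (fun u : ℝ => cexp (-(s * u))) (Ioi (Real.log 2)) := by
    have := (int_pow_exp 0 hs).1.mono_set (Ioi_subset_Ioi (L2_pos.le : (0:ℝ) ≤ Real.log 2))
    refine Integrable.mono' this (by fun_prop) ?_
    refine Eventually.of_forall fun u => ?_
    rw [Complex.norm_exp]
    simp
  have e4 : ∫ u in Ioi (Real.log 2), ((Chebyshev.psi (Real.exp u) : ℝ) : ℂ) * cexp (-((1 + s) * u)) =
      Lp (Real.log 2) Fp 0 s + ∫ u in Ioi (Real.log 2), cexp (-(s * u)) := by
    unfold Lp
    rw [← integral_add hint hE]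
    refine setIntegral_congr_fun measurableSet_Ioi fun u _ => ?_
    simp only [pow_zero, mul_one, Fp]
    push_cast
    have : cexp (-((1 + s) * u)) = cexp (-(u : ℂ)) * cexp (-(s * u)) := by
      rw [← Complex.exp_add]
      congr 1
      ring
    rw [this]
    have h1 : cexp (u : ℂ) * cexp (-(u : ℂ)) = 1 := by
      rw [← Complex.exp_add]; simp
    linear_combination (cexp (-(s * u))) * h1
  have e5 : ∫ u in Ioi (Real.log 2), cexp (-(s * u)) = cexp (-(s * Real.log 2)) / s := by
    have := integral_exp_mul_complex_Ioi (a := -s) (by simpa using hs) (Real.log 2)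
    simp only [neg_mul] at this
    rw [this, neg_div_neg_eq]
  rw [e4, e5] at e2
  rw [mul_add] at e2
  rw [e2]
  ring

/-- the analytic continuation -/
def PP (w : ℂ) : ℂ := -(1 / w) * (deriv FF w / FF w + 1) +
  dslope (fun w : ℂ => -cexp ((1 - w) * Real.log 2)) 1 w

lemma dslope_part_diff : Differentiable ℂ (dslope (fun w : ℂ => -cexp ((1 - w) * Real.log 2)) 1) := by
  have h : Differentiable ℂ (fun w : ℂ => -cexp ((1 - w) * Real.log 2)) := by fun_prop
  have := (differentiableOn_dslope (s := univ) (c := (1 : ℂ)) univ_mem).2 h.differentiableOn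
  exact differentiableOn_univ.1 this

lemma FF_diff : Differentiable ℂ FF := ZU.J_g2b.FF_diff

lemma PP_diff {w : ℂ} (h0 : w ≠ 0) (h : FF w ≠ 0) : DifferentiableAt ℂ PP w := by
  unfold PP
  have h1 : DifferentiableAt ℂ (deriv FF) w := by
    have := (FF_diff.contDiff (n := 2)).differentiable_deriv_two
    exact this w
  have h2 : DifferentiableAt ℂ FF w := FF_diff w
  refine DifferentiableAt.add ?_ (dslope_part_diff w)
  refine DifferentiableAt.mul ?_ ((h1.div h2 h).add (differentiableAt_const _))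
  exact (DifferentiableAt.div (differentiableAt_const _) differentiableAt_id h0).neg

lemma Lp_Fp_PP (h : PD α C) {s : ℂ} (hs : 0 < s.re) : Lp (Real.log 2) Fp 0 s = PP (1 + s) := by
  have h1 := Lp_Fp_zeta h hs
  have hs0 : s ≠ 0 := by rintro rfl; simp at hs
  have hw1 : (1 + s) ≠ 1 := by simpa using hs0
  have hw0 : (1 + s) ≠ 0 := by
    intro h
    have := congrArg Complex.re h
    simp at this
    linarith
  have hz : riemannZeta (1 + s) ≠ 0 := riemannZeta_ne_zero_of_one_le_re (by simp [hs.le])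
  have hF : FF (1 + s) = s * riemannZeta (1 + s) := by
    rw [Pool.Agent.W190.FF_eq_ne hw1]; ring
  have hdF : deriv FF (1 + s) = riemannZeta (1 + s) + s * deriv riemannZeta (1 + s) := by
    have e : FF =ᶠ[𝓝 (1 + s)] fun v => (v - 1) * riemannZeta v := by
      filter_upwards [isOpen_ne.mem_nhds hw1] with v hv
      exact Pool.Agent.W190.FF_eq_ne hv
    rw [e.deriv_eq]
    have hd := differentiableAt_riemannZeta hw1
    have := (((hasDerivAt_id (1 + s)).sub_const 1).mul hd.hasDerivAt).deriv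
    have e2 : deriv (fun v : ℂ => (v - 1) * riemannZeta v) (1 + s) =
      deriv ((fun v : ℂ => id v - 1) * riemannZeta) (1 + s) := rfl
    rw [e2, this]
    simp
  unfold PP
  rw [dslope_of_ne _ hw1, slope_def_field, hF, hdF]
  have e6 : cexp (-(s * Real.log 2)) = cexp ((1 - (1 + s)) * Real.log 2) := by
    congr 1
    ring
  rw [← e6]
  simp only [sub_self, zero_mul, Complex.exp_zero, add_sub_cancel_left]
  have h2 : Lp (Real.log 2) Fp 0 s = (-deriv riemannZeta (1 + s) / riemannZeta (1 + s) -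
      (1 + s) * (cexp (-(s * Real.log 2)) / s)) / (1 + s) := by
    rw [← h1]; field_simp
  rw [h2]
  field_simp
  ring

/-- the transform continued to the zero-free half-plane -/
lemma Lp_Fp_eqOn (h : PD α C) (hz : ∀ w : ℂ, 1 - α < w.re → FF w ≠ 0) :
    EqOn (Lp (Real.log 2) Fp 0) (fun s => PP (1 + s)) (HP α) := by
  refine eqOn_HP h.h0 (h.Fp_LD.differentiableOn 0) ?_ ?_
  · intro s hs
    have hs' : -α < s.re := hs
    have h1 : 1 - α < (1 + s).re := by simp; linarith
    have h0 : (1 + s) ≠ 0 := by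
      intro h'
      have := congrArg Complex.re h'
      simp at this
      linarith [h.h1]
    have h2 : DifferentiableAt ℂ (fun s : ℂ => PP (1 + s)) s :=
      DifferentiableAt.comp (g := PP) (f := fun s : ℂ => 1 + s) s (PP_diff h0 (hz _ h1))
        (by fun_prop)
    exact h2.differentiableWithinAt
  · intro s hs
    exact Lp_Fp_PP h hs

end

end Pool.Agent.V11272.RB
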